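import Pool.Agent.P.MP_f05dbc_gt.Avg

/-!
The fibrewise affine action attached to a commensurated subgroup with a free abelian quotient.
-/

namespace Pool.Agent.P.MP_f05dbc_gt

open Set Filter Topology Metric

variable {G : Type*} [Group G] {T : Type} [TopologicalSpace T] {N H : Subgroup G}

/-- An action by continuous maps as a homomorphism to the group of homeomorphisms. -/
def homOf (A : G → T → T) (hc : ∀ g, Continuous (A g)) (h1 : ∀ x, A 1 x = x)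
    (hm : ∀ g h x, A (g * h) x = A g (A h x)) : G →* (T ≃ₜ T) :=
  MonoidHom.mk' (fun g => ⟨⟨A g, A g⁻¹, fun x => by rw [← hm, inv_mul_cancel, h1],
    fun x => by rw [← hm, mul_inv_cancel, h1]⟩, hc g, hc g⁻¹⟩)
    fun g h => Homeomorph.ext (hm g h)

/-- A homomorphism from `N` onto a lattice, with a compatible linear action of `G`. -/
structure Lat (N : Subgroup G) (V : Type) [NormedAddCommGroup V] [NormedSpace ℝ V] where
  ρ : G →* (V →L[ℝ] V)
  vec : G → V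
  ker : Subgroup G
  vec_mul : ∀ x ∈ N, ∀ y ∈ N, vec (x * y) = vec x + vec y
  ρ_vec : ∀ g, ∀ x ∈ N, g * x * g⁻¹ ∈ N → ρ g (vec x) = vec (g * x * g⁻¹)
  ρ_eq : ∀ x ∈ N, ρ x = 1
  ker_le : ker ≤ N
  vec_ker : ∀ x ∈ ker, vec x = 0
  discrete : ∀ r, FinCos ker {x | x ∈ N ∧ ‖vec x‖ ≤ r}
  cocompact : ∀ H : Subgroup G, FinCos H N → ∃ r, ∀ v, ∃ x ∈ N, x ∈ H ∧ ‖v + vec x‖ ≤ r

theorem exists_lat {n : ℕ} (hN : Cms N) (χ : N →* Multiplicative (Fin n → ℤ))
    (hχ : Function.Surjective χ)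
    (hc : ∀ (g : G) (x y : N), g * x * g⁻¹ = y → χ x = 1 → χ y = 1) :
    ∃ L : Lat N (Fin n → ℝ), L.ker = χ.ker.map N.subtype := by
  classical
  let cst : (Fin n → ℤ) →+ (Fin n → ℝ) :=
    AddMonoidHom.mk' (fun z i => (z i : ℝ)) fun z w => funext fun i => by simp
  have hcst : Function.Injective cst := fun z w e =>
    funext fun i => Int.cast_injective (congrFun e i)
  let vec : G → Fin n → ℝ := fun x => if h : x ∈ N then cst (χ ⟨x, h⟩).toAdd else 0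
  have hv : ∀ x : N, vec x = cst (χ x).toAdd := fun x => dif_pos x.2
  have hmul : ∀ x ∈ N, ∀ y ∈ N, vec (x * y) = vec x + vec y := fun x hx y hy => by
    rw [hv ⟨x, hx⟩, hv ⟨y, hy⟩, ← map_add, ← toAdd_mul, ← map_mul, ← hv]
    rfl
  have hpow : ∀ x ∈ N, ∀ m : ℕ, vec (x ^ m) = (m : ℝ) • vec x := fun x hx m => by
    rw [hv ⟨x, hx⟩, Nat.cast_smul_eq_nsmul, ← map_nsmul, ← toAdd_pow, ← map_pow, ← hv]
    rfl
  have hvec : ∀ x y : N, vec x = vec y ↔ χ x = χ y := fun x y => by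
    rw [hv, hv, hcst.eq_iff, Multiplicative.toAdd.injective.eq_iff]
  have hwd : ∀ g : G, ∀ x ∈ N, ∀ y ∈ N, g * x * g⁻¹ ∈ N → g * y * g⁻¹ ∈ N → vec x = vec y →
      vec (g * x * g⁻¹) = vec (g * y * g⁻¹) := fun g x hx y hy h1 h2 e => by
    refine (hvec ⟨_, h1⟩ ⟨_, h2⟩).2 (inv_mul_eq_one.1 ?_)
    rw [← map_inv, ← map_mul]
    refine hc g ((⟨x, hx⟩ : N)⁻¹ * ⟨y, hy⟩) _ (by simp [mul_assoc]) ?_
    rw [map_mul, map_inv, (hvec ⟨x, hx⟩ ⟨y, hy⟩).1 e, inv_mul_cancel]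
  choose s hs using hχ
  have hsv : ∀ z, vec (s (Multiplicative.ofAdd z)) = cst z := fun z => by rw [hv, hs]; rfl
  choose m hm0 hm using fun g => (hN.conj g).exists_pow
  replace hm : ∀ g, ∀ x ∈ N, g * x ^ m g * g⁻¹ ∈ N := hm
  have hm0' : ∀ g, (m g : ℝ) ≠ 0 := fun g => Nat.cast_ne_zero.2 (hm0 g).ne'
  have hb : ∀ i, cst (Pi.basisFun ℤ (Fin n) i) = Pi.basisFun ℝ (Fin n) i := fun i => by
    ext j
    simp [cst, Pi.single_apply]
  have hex : ∀ g : G, ∃ S : (Fin n → ℝ) →L[ℝ] (Fin n → ℝ), ∀ x ∈ N, g * x * g⁻¹ ∈ N →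
      S (vec x) = vec (g * x * g⁻¹) := fun g => by
    let F : (Fin n → ℤ) →+ (Fin n → ℝ) := AddMonoidHom.mk'
      (fun z => (m g : ℝ)⁻¹ • vec (g * (s (Multiplicative.ofAdd z) : G) ^ m g * g⁻¹)) fun z w => by
        have h1 := hm g _ (s (Multiplicative.ofAdd z)).2
        have h2 := hm g _ (s (Multiplicative.ofAdd w)).2
        have h3 := pow_mem (s (Multiplicative.ofAdd z)).2 (m g)
        have h4 := pow_mem (s (Multiplicative.ofAdd w)).2 (m g)
        have e : ∀ x y : G, g * x * g⁻¹ * (g * y * g⁻¹) = g * (x * y) * g⁻¹ := fun x y => by group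
        rw [← smul_add, ← hmul _ h1 _ h2, e, hwd g _ (pow_mem (s _).2 _) _ (mul_mem h3 h4)
          (hm g _ (s _).2) (e _ _ ▸ mul_mem h1 h2)]
        rw [hmul _ h3 _ h4, hpow _ (s _).2, hpow _ (s _).2, hpow _ (s _).2, hsv, hsv, hsv, map_add,
          smul_add]
    let S := LinearMap.toContinuousLinearMap
      ((Pi.basisFun ℝ (Fin n)).constr ℝ fun i => F (Pi.basisFun ℤ (Fin n) i))
    have h1 : ((S : (Fin n → ℝ) →+ (Fin n → ℝ)).comp cst).toIntLinearMap = F.toIntLinearMap :=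
      (Pi.basisFun ℤ (Fin n)).ext fun i => by
        show S (cst _) = _
        rw [hb]
        exact (Pi.basisFun ℝ (Fin n)).constr_basis ℝ _ i
    refine ⟨S, fun x hx h2 => ?_⟩
    have h3 : S (cst (χ ⟨x, hx⟩).toAdd) = (m g : ℝ)⁻¹ • vec (g * (s (χ ⟨x, hx⟩) : G) ^ m g * g⁻¹) :=
      LinearMap.congr_fun h1 _
    rw [hv ⟨x, hx⟩, h3, hwd g _ (pow_mem (s _).2 _) _ (pow_mem hx _) (hm g _ (s _).2) (hm g x hx),
      ← conj_pow, hpow _ h2, inv_smul_smul₀ (hm0' g)]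
    rw [hpow _ (s _).2, hpow _ hx, (hvec _ ⟨x, hx⟩).2 (hs _)]
  choose ρ hρ using hex
  have hext : ∀ (S S' : (Fin n → ℝ) →L[ℝ] (Fin n → ℝ)) (k : ℕ), 0 < k →
      (∀ x ∈ N, S (vec (x ^ k)) = S' (vec (x ^ k))) → S = S' := fun S S' k hk h =>
    ContinuousLinearMap.coe_injective ((Pi.basisFun ℝ (Fin n)).ext fun i => by
      have := h _ (s (Multiplicative.ofAdd (Pi.basisFun ℤ (Fin n) i))).2
      rw [hpow _ (s _).2, hsv, hb, map_smul, map_smul] at this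
      exact smul_right_injective _ (Nat.cast_ne_zero.2 hk.ne') this)
  have h3 : ∀ x ∈ N, ρ x = 1 := fun x hx => hext _ _ 1 one_pos fun y hy => by
    have h1 := mul_mem (mul_mem hx hy) (inv_mem hx)
    rw [pow_one, hρ x y hy h1]
    exact (hvec ⟨_, h1⟩ ⟨y, hy⟩).2 ((congrArg χ (show _ = (⟨x, hx⟩ * ⟨y, hy⟩ * ⟨x, hx⟩⁻¹ : N)
      from rfl)).trans (by rw [map_mul, map_mul, map_inv, mul_inv_cancel_comm]))
  refine ⟨⟨⟨⟨ρ, h3 1 (one_mem N)⟩, fun g h => hext _ _ (m h * m g) (mul_pos (hm0 h) (hm0 g))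
    fun x hx => ?_⟩, vec, χ.ker.map N.subtype, hmul, hρ, h3, Subgroup.map_subtype_le _, ?_,
    fun r => finCos_of_factor vec ?_ ?_, fun H hH => ?_⟩, rfl⟩
  · have h1 := hm h x hx
    have h2 := hm g _ h1
    have h4 := pow_mem h1 (m g)
    rw [conj_pow, ← pow_mul] at h2 h4
    show ρ (g * h) _ = ρ g (ρ h _)
    rw [hρ h _ (pow_mem hx _) h4, hρ g _ h4 h2, hρ (g * h) _ (pow_mem hx _)
      (by simpa only [mul_assoc, mul_inv_rev] using h2)]
    simp only [mul_assoc, mul_inv_rev]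
  · rintro _ ⟨x, hx, rfl⟩
    rw [N.subtype_apply, hv, show χ x = 1 from hx, toAdd_one, map_zero]
  · refine (((Finite.pi fun _ : Fin n => finite_Icc (-⌈r⌉) ⌈r⌉).image cst)).subset ?_
    rintro _ ⟨x, hx, rfl⟩
    refine ⟨_, fun i _ => ?_, (hv ⟨x, hx.1⟩).symm⟩
    have h4 := (norm_le_pi_norm _ i).trans (hx.2.trans (Int.le_ceil r))
    rw [hv ⟨x, hx.1⟩, Real.norm_eq_abs] at h4
    have h5 : |(((χ ⟨x, hx.1⟩).toAdd i : ℤ) : ℝ)| ≤ ⌈r⌉ := h4
    exact abs_le.1 (by exact_mod_cast h5)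
  · refine fun x hx y hy e => ⟨(⟨x, hx.1⟩ : N)⁻¹ * ⟨y, hy.1⟩, ?_, rfl⟩
    show χ _ = 1
    rw [map_mul, map_inv, (hvec ⟨x, hx.1⟩ ⟨y, hy.1⟩).1 e, inv_mul_cancel]
  · obtain ⟨k, hk0, hk⟩ := hH.exists_pow
    have hk' : (0 : ℝ) < k := Nat.cast_pos.2 hk0
    refine ⟨k, fun v => ⟨(s (Multiplicative.ofAdd fun i => -⌊v i / k⌋) : G) ^ k,
      pow_mem (s _).2 _, hk _ (s _).2, ?_⟩⟩
    rw [hpow _ (s _).2, hsv, pi_norm_le_iff_of_nonneg hk'.le]
    intro i
    have h4 := (le_div_iff₀ hk').1 (Int.floor_le (v i / k))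
    have h5 := (div_lt_iff₀ hk').1 (Int.lt_floor_add_one (v i / k))
    simp only [cst, AddMonoidHom.mk'_apply, Pi.add_apply, Pi.smul_apply, smul_eq_mul, Int.cast_neg,
      Real.norm_eq_abs]
    exact abs_le.2 ⟨by linarith, by linarith⟩

variable {V : Type} [NormedAddCommGroup V] [NormedSpace ℝ V]

/-- A continuous cocycle that is locally the lattice map on subgroups of finite index. -/
structure Aff (N : Subgroup G) (a : G →* (T ≃ₜ T)) (V : Type) [NormedAddCommGroup V]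
    [NormedSpace ℝ V] extends Lat N V where
  β : G → T → V
  cont : ∀ g, Continuous (β g)
  cocycle : ∀ g h y, β (g * h) y = ρ g (β h y) + β g (a h y)
  loc : ∀ K, IsCompact K → ∃ H ≤ N, FinCos H N ∧ ∀ x ∈ H, ∀ y ∈ K, β x y = vec x

theorem Lat.exists_aff (L : Lat N V) {a : G →* (T ≃ₜ T)} (hN : Cms N)
    (h1 : H ≤ N) (h2 : FinCos H N) (P : Part H a) : ∃ A : Aff N a V, A.ker = L.ker := by
  have hk : ∀ (g : G) (q : G ⧸ H), (g • q).out⁻¹ * (g * q.out) ∈ N := fun g q =>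
    h1 (QuotientGroup.eq.1 ((QuotientGroup.out_eq' _).trans
      (MulAction.Quotient.mk_smul_out H g q).symm))
  refine ⟨⟨L, fun g => P.av fun q => L.ρ (g • q).out (L.vec ((g • q).out⁻¹ * (g * q.out))),
    fun g => P.continuous_av _, fun g h y => ?_, fun K hK => ?_⟩, rfl⟩
  · rw [P.av_act, ← P.av_map, ← P.av_add]
    refine congrArg (P.av · y) (funext fun q => ?_)
    have e : L.ρ g * L.ρ (h • q).out = L.ρ (g • h • q).out := by
      rw [← mul_one (L.ρ (g • h • q).out), ← L.ρ_eq _ (hk g (h • q)), ← map_mul, ← map_mul,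
        mul_inv_cancel_left]
    rw [← mul_apply_eq_comp (L.ρ g), e, ← map_add, add_comm, ← L.vec_mul _ (hk _ _) _ (hk _ _),
      mul_smul]
    simp only [mul_assoc, mul_inv_cancel_left]
  · refine ⟨N ⊓ ⨅ q ∈ {q | ((Function.support (P.w q)) ∩ K).Nonempty},
      MulAction.stabilizer G q, inf_le_left, (finCos_self N).inf
        (FinCos.biInf (P.lf.finite_nonempty_inter_compact hK) fun q _ => hN.orbit h2 q),
      fun x hx y hy => (P.av_congr fun q hq => ?_).trans (P.av_const _ y)⟩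
    have e : x • q = q := Subgroup.mem_iInf.1 (Subgroup.mem_iInf.1 hx.2 q) ⟨y, hq, hy⟩
    have h3 := hk x q
    rw [e] at h3 ⊢
    rw [L.ρ_vec _ _ h3 (by simpa using hx.1)]
    simp

namespace Aff

variable {a : G →* (T ≃ₜ T)} (A : Aff N a V)

theorem β_one (y : T) : A.β 1 y = 0 := by
  have := A.cocycle 1 1 y
  rw [mul_one, map_one, act_one] at this
  exact left_eq_add.1 this

/-- The action on `V × T`. -/
def act : G →* (V × T ≃ₜ V × T) :=
  homOf (fun g t => (A.ρ g t.1 + A.β g t.2, a g t.2))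
    (fun g => by have := A.cont g; fun_prop)
    (fun t => by simp only [map_one, A.β_one, add_zero]; rfl)
    fun g h t => by
      simp only [map_mul, A.cocycle, map_add, add_assoc]
      rfl

theorem act_apply (g : G) (t : V × T) : A.act g t = (A.ρ g t.1 + A.β g t.2, a g t.2) := rfl

theorem loc' {K : Set T} (hK : IsCompact K) : ∃ H ≤ N, FinCos H N ∧
    ∀ x ∈ H, ∀ t : V × T, t.2 ∈ K → A.act x t = (t.1 + A.vec x, a x t.2) := by
  obtain ⟨H, h1, h2, h3⟩ := A.loc K hK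
  refine ⟨H, h1, h2, fun x hx t ht => ?_⟩
  rw [A.act_apply, A.ρ_eq x (h1 hx), h3 x hx _ ht]
  rfl

theorem ccp [ProperSpace V] (hf : Fix N a) (hc : Ccp a) : Ccp A.act := by
  obtain ⟨K, hK, hc⟩ := hc
  obtain ⟨H, -, h2, h3⟩ := A.loc' hK
  obtain ⟨H', L, h4, hL, h5⟩ := hf.bdd hK
  obtain ⟨r, hr⟩ := A.cocompact _ (h2.inf h4)
  refine ⟨closedBall 0 r ×ˢ L, (isCompact_closedBall _ _).prod hL, fun t => ?_⟩
  obtain ⟨g, hg⟩ := hc t.2
  obtain ⟨x, -, hx, h⟩ := hr (A.act g t).1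
  refine ⟨x * g, ?_⟩
  rw [act_mul, h3 x hx.1 _ hg]
  exact ⟨mem_closedBall_zero_iff.2 h, h5 x hx.2 _ hg⟩

theorem prp (hp : Prp N a) : Prp A.ker A.act := by
  intro K L hK hL
  obtain ⟨H, h1, h2, h3⟩ := A.loc' (hK.image continuous_snd)
  obtain ⟨F, hF, h4⟩ := h2.trans (hp _ _ (hK.image continuous_snd) (hL.image continuous_snd))
  obtain ⟨r, hr⟩ := hK.exists_bound_of_continuousOn continuous_fst.continuousOn
  obtain ⟨r', hr'⟩ := (hF.isCompact_biUnion fun f _ =>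
    hL.image (A.act f⁻¹).continuous).exists_bound_of_continuousOn continuous_fst.continuousOn
  refine (A.discrete (r' + r)).smul hF ?_
  rintro g ⟨_, ⟨t, ht, rfl⟩, hl⟩
  obtain ⟨f, hf, h5⟩ := h4 g ⟨_, ⟨t.2, ⟨t, ht, rfl⟩, rfl⟩, _, hl, rfl⟩
  refine ⟨f, hf, h1 h5, ?_⟩
  have h6 := hr' _ (mem_biUnion hf ⟨_, hl, rfl⟩)
  rw [← act_mul, h3 _ h5 t ⟨t, ht, rfl⟩] at h6
  have h7 := norm_sub_le (t.1 + A.vec (f⁻¹ * g)) t.1
  rw [add_sub_cancel_left] at h7
  exact h7.trans (add_le_add h6 (hr t ht))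

theorem fix [ProperSpace V] (hf : Fix N a) : Fix A.ker A.act := by
  intro K hK
  obtain ⟨H', ψ, h4, h5, h6, h7, h8⟩ := hf _ (hK.image continuous_snd)
  obtain ⟨φ, h9, -, h10, -⟩ := exists_continuous_one_zero_of_isCompact
    (hK.image continuous_fst) isClosed_empty (disjoint_empty _)
  obtain ⟨H, -, h2, h3⟩ := A.loc' h6
  refine ⟨_, fun t => φ t.1 * ψ t.2, ((h2.inf h4).mono A.ker_le).inf (finCos_self _), by fun_prop,
    .intro' (h10.prod h6) ((isClosed_tsupport _).prod (isClosed_tsupport _)) fun t ht => ?_,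
    fun t ht => mul_ne_zero ((h9 ⟨t, ht, rfl⟩).trans_ne one_ne_zero) (h7 _ ⟨t, ht, rfl⟩),
    fun x hx t => ?_⟩
  · by_contra hn
    exact ht ⟨subset_tsupport _ (left_ne_zero_of_mul hn), subset_tsupport _ (right_ne_zero_of_mul hn)⟩
  · have e : ψ (A.act x t).2 = ψ t.2 := h8 x hx.1.2 t.2
    by_cases ht : t.2 ∈ tsupport ψ
    · simp only [e]
      rw [h3 x hx.1.1 t ht, A.vec_ker x hx.2, add_zero]
    · simp only [e, image_eq_zero_of_notMem_tsupport ht, mul_zero]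

end Aff

end Pool.Agent.P.MP_f05dbc_gt
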