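import Pool.Agent.P.MP_f05dbc_gt.Join

/-!
The join of a Euclidean retract with a sphere is a Euclidean retract.
-/

namespace Pool.Agent.P.MP_f05dbc_gt

open Set Filter Topology Metric unitInterval

theorem null_of {X : Type} [TopologicalSpace X] {V U : Set X} (h : V ⊆ U) (H : I × V → X)
    (hH : Continuous H) (h0 : ∀ x, H (0, x) = x) {c : X} (hc : c ∈ U) (h1 : ∀ x, H (1, x) = c)
    (hU : ∀ p, H p ∈ U) : (ContinuousMap.inclusion h).Nullhomotopic :=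
  ⟨⟨c, hc⟩, ⟨⟨⟨fun p => ⟨H p, hU p⟩, hH.subtype_mk _⟩, fun x => Subtype.ext (h0 x),
    fun x => Subtype.ext (h1 x)⟩⟩⟩

theorem of_null {X : Type} [TopologicalSpace X] {V U : Set X} {h : V ⊆ U}
    (hn : (ContinuousMap.inclusion h).Nullhomotopic) :
    ∃ (H : I × V → X) (c : X), Continuous H ∧ (∀ x, H (0, x) = x) ∧ c ∈ U ∧
      (∀ x, H (1, x) = c) ∧ ∀ p, H p ∈ U := by
  obtain ⟨c, ⟨H⟩⟩ := hn
  exact ⟨fun p => H p, c, continuous_subtype_val.comp H.continuous,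
    fun x => congrArg Subtype.val (H.apply_zero x), c.2,
    fun x => congrArg Subtype.val (H.apply_one x), fun p => (H p).2⟩

/-- A contraction that leaves `Z` at once. -/
theorem exists_push {Y : Type} [TopologicalSpace Y] [ContractibleSpace Y] {Z : Set Y}
    (hZ : IsZSet Z) : ∃ (h : Y × ℝ → Y) (y₁ : Y), Continuous h ∧ (∀ y, h (y, 0) = y) ∧
      (∀ y t, 0 < t → h (y, t) ∉ Z) ∧ ∀ y t, 1 ≤ t → h (y, t) = y₁ := by
  obtain ⟨-, α, h0, h1⟩ := hZ
  obtain ⟨c, ⟨H⟩⟩ := id_nullhomotopic Y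
  refine ⟨fun p => α (H (projIcc 0 1 zero_le_one p.2, p.1), projIcc 0 1 zero_le_one p.2),
    α (c, 1), by fun_prop, fun y => ?_, fun y t ht => h1 _ _ ?_, fun y t ht => ?_⟩
  · simp only [projIcc_left]
    exact (h0 _).trans (H.apply_zero y)
  · exact Subtype.coe_lt_coe.1 (lt_max_of_lt_right (lt_min one_pos ht))
  · simp only [projIcc_of_right_le _ ht]
    exact congrArg (fun z => α (z, 1)) (H.apply_one y)

theorem norm_seg_sub {V : Type} [NormedAddCommGroup V] [NormedSpace ℝ V] (w w₀ : V) {s : ℝ}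
    (h0 : 0 ≤ s) (h1 : s ≤ 1) : ‖w + s • (w₀ - w) - w₀‖ ≤ ‖w - w₀‖ := by
  have : w + s • (w₀ - w) - w₀ = (1 - s) • (w - w₀) := by module
  rw [this, norm_smul, Real.norm_of_nonneg (sub_nonneg.2 h1)]
  exact mul_le_of_le_one_left (norm_nonneg _) (by linarith)

theorem norm_seg_le {V : Type} [NormedAddCommGroup V] [NormedSpace ℝ V] {w w₀ : V} {s : ℝ}
    (h0 : 0 ≤ s) (h1 : s ≤ 1) (hw : ‖w‖ ≤ 1) (hw₀ : ‖w₀‖ ≤ 1) : ‖w + s • (w₀ - w)‖ ≤ 1 := by
  have : w + s • (w₀ - w) = (1 - s) • w + s • w₀ := by module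
  rw [this]
  refine (norm_add_le _ _).trans ?_
  rw [norm_smul, norm_smul, Real.norm_of_nonneg (sub_nonneg.2 h1), Real.norm_of_nonneg h0]
  nlinarith

namespace JoinData

variable {Y V X : Type} [MetricSpace Y] [NormedAddCommGroup V] [NormedSpace ℝ V] [MetricSpace X]
  (J : JoinData Y V X)

theorem exists_contr [ContractibleSpace Y] {w₀ : V} (hw₀ : ‖w₀‖ ≤ 1) :
    ∃ (H : I × X → X) (y₁ : Y), Continuous H ∧ (∀ x, H (0, x) = x) ∧
      (∀ x, H (1, x) = J.π y₁ w₀) ∧ ∀ p, ‖J.ω (H p) - w₀‖ ≤ ‖J.ω p.2 - w₀‖ := by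
  obtain ⟨h, y₁, hc, h0, -, h1⟩ := exists_push (Y := Y) (Z := ∅)
    ⟨isClosed_empty, ContinuousMap.fst, fun _ => rfl, fun _ _ _ => notMem_empty _⟩
  have s0 : ∀ t : I, 0 ≤ max 0 (2 * (t : ℝ) - 1) := fun t => le_max_left _ _
  have s1 : ∀ t : I, max 0 (2 * (t : ℝ) - 1) ≤ 1 := fun t =>
    max_le zero_le_one (by linarith [t.2.2])
  have hn : ∀ p : I × X, ‖J.ω p.2 + max 0 (2 * (p.1 : ℝ) - 1) • (w₀ - J.ω p.2)‖ ≤ 1 := fun p =>
    norm_seg_le (s0 _) (s1 _) (J.norm_ω _) hw₀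
  have hω := J.cont_ω
  refine ⟨fun p => J.π (h (J.η p.2, 2 * p.1)) (J.ω p.2 + max 0 (2 * (p.1 : ℝ) - 1) • (w₀ - J.ω p.2)),
    y₁, continuous_iff_continuousAt.2 fun p => J.contAt (by fun_prop) hn fun hp => ?_,
    fun x => ?_, fun x => ?_, fun p => ?_⟩
  · rcases (J.norm_ω p.2).lt_or_eq with hl | hl
    · exact hc.continuousAt.comp (((J.contAt_η hl).comp continuousAt_snd).prodMk (by fun_prop))
    · have ht : 1 < 2 * (p.1 : ℝ) := by
        by_contra hh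
        rw [max_eq_left (by linarith), zero_smul, add_zero] at hp
        exact hp.ne hl
      refine (continuousAt_const (y := y₁)).congr ?_
      filter_upwards [(show ContinuousAt (fun p : I × X => 2 * (p.1 : ℝ)) p by
        fun_prop).eventually (lt_mem_nhds ht)] with q hq
      exact (h1 _ _ hq.le).symm
  · simp [h0, J.π_η]
  · simp only [Icc.coe_one]
    rw [h1 _ _ (by norm_num), max_eq_right (by norm_num)]
    norm_num
  · rw [J.ω_π _ _ (hn p)]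
    exact norm_seg_sub _ _ (s0 _) (s1 _)

include J in
theorem contractible [ContractibleSpace Y] : ContractibleSpace X := by
  obtain ⟨H, y₁, hc, h0, h1, -⟩ := J.exists_contr (w₀ := 0) (by simp)
  exact (contractible_iff_id_nullhomotopic X).2 ⟨_, ⟨⟨⟨H, hc⟩, h0, h1⟩⟩⟩

theorem dist_le' (x x' : X) : dist x x' ≤
    J.B * ‖J.ω x - J.ω x'‖ + (1 - ‖J.ω x'‖) * dist (J.η x) (J.η x') := by
  have := J.dist_le (J.η x) (J.η x') _ _ (J.norm_ω x) (J.norm_ω x')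
  rwa [J.π_η, J.π_η] at this

include J in
theorem locContr [ContractibleSpace Y] (hY : LocallyContractibleSpace Y) :
    LocallyContractibleSpace X := by
  intro x U hU
  obtain ⟨ε, hε, hb⟩ := Metric.mem_nhds_iff.1 hU
  have hB := J.B_pos
  have hω := J.cont_ω
  rcases (J.norm_ω x).lt_or_eq with hl | hl
  · obtain ⟨δ, hδ, h1, h2⟩ : ∃ δ : ℝ, 0 < δ ∧ δ ≤ 1 - ‖J.ω x‖ ∧ (J.B + 1) * δ ≤ ε :=
      ⟨min (1 - ‖J.ω x‖) (ε / (J.B + 1)), lt_min (sub_pos.2 hl) (by positivity), min_le_left _ _,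
        (le_div_iff₀' (by positivity)).1 (min_le_right _ _)⟩
    obtain ⟨W, hW, hWn, hn⟩ := hY (J.η x) _ (ball_mem_nhds _ hδ)
    obtain ⟨k, c, hk, k0, hc, k1, kU⟩ := of_null hn
    have hlt : ∀ w, ‖w - J.ω x‖ < δ → ‖w‖ < 1 := fun w hw => by
      linarith [norm_sub_norm_le w (J.ω x)]
    have hin : ∀ y w, y ∈ ball (J.η x) δ → ‖w - J.ω x‖ < δ → J.π y w ∈ U := fun y w hy hw => by
      have := J.dist_le y (J.η x) w (J.ω x) (hlt w hw).le hl.le
      rw [J.π_η] at this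
      refine hb (lt_of_le_of_lt this ?_)
      have h3 : dist y (J.η x) < δ := hy
      nlinarith [norm_nonneg (J.ω x), dist_nonneg (x := y) (y := J.η x)]
    have hs : ∀ p : I × {z | ‖J.ω z - J.ω x‖ < δ ∧ J.η z ∈ W},
        ‖J.ω p.2 + (p.1 : ℝ) • (J.ω x - J.ω p.2) - J.ω x‖ < δ := fun p =>
      (norm_seg_sub _ _ p.1.2.1 p.1.2.2).trans_lt p.2.2.1
    refine ⟨{z | ‖J.ω z - J.ω x‖ < δ ∧ J.η z ∈ W}, fun z hz => ?_, ?_, null_of _
      (fun p => J.π (k (p.1, ⟨J.η p.2, p.2.2.2⟩)) (J.ω p.2 + (p.1 : ℝ) • (J.ω x - J.ω p.2)))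
      (continuous_iff_continuousAt.2 fun p => J.contAt (by fun_prop) (fun s => (hlt _ (hs s)).le)
        fun _ => hk.continuousAt.comp (continuousAt_fst.prodMk ?_)) (fun z => ?_)
      (hin c (J.ω x) hc (by simpa using hδ)) (fun z => ?_) fun p => hin _ _ (kU _) (hs p)⟩
    · rw [← J.π_η z]
      exact hin _ _ (hW hz.2) hz.1
    · exact inter_mem ((isOpen_lt (f := fun z => ‖J.ω z - J.ω x‖) (by fun_prop)
        continuous_const).mem_nhds (by simpa using hδ)) ((J.contAt_η hl).preimage_mem_nhds hWn)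
    · exact ContinuousAt.codRestrict _ ((J.contAt_η (hlt _ p.2.2.1)).comp
        (f := fun p : I × {z | ‖J.ω z - J.ω x‖ < δ ∧ J.η z ∈ W} => (p.2 : X)) (by fun_prop))
    · simp [k0, J.π_η]
    · simp [k1]
  · obtain ⟨H, y₁, hc, h0, h1, h2⟩ := J.exists_contr (J.norm_ω x)
    have hin : ∀ z, ‖J.ω z - J.ω x‖ < ε / J.B → z ∈ U := fun z hz => by
      refine hb (lt_of_le_of_lt (J.dist_le' z x) ?_)
      rw [hl, sub_self, zero_mul, add_zero]
      exact (lt_div_iff₀' hB).1 hz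
    refine ⟨{z | ‖J.ω z - J.ω x‖ < ε / J.B}, hin,
      (isOpen_lt (by fun_prop) continuous_const).mem_nhds (by simp; positivity),
      null_of _ (fun p => H (p.1, p.2)) (by fun_prop) (fun z => h0 z) (hin _ ?_) (fun z => h1 z)
        fun p => hin _ ((h2 _).trans_lt p.2.2)⟩
    rw [J.ω_π _ _ (J.norm_ω x), sub_self, norm_zero]
    positivity

theorem isZSet_bd [ContractibleSpace Y] {Z : Set Y} (hZ : IsZSet Z) : IsZSet (J.bd Z) := by
  obtain ⟨h, y₁, hc, h0, hz, h1⟩ := exists_push hZ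
  have hω := J.cont_ω
  have hn : ∀ p : X × I, ‖(1 - (p.2 : ℝ) / 2) • J.ω p.1‖ = (1 - (p.2 : ℝ) / 2) * ‖J.ω p.1‖ :=
    fun p => by rw [norm_smul, Real.norm_of_nonneg (by linarith [p.2.2.2])]
  have hn1 : ∀ p : X × I, ‖(1 - (p.2 : ℝ) / 2) • J.ω p.1‖ ≤ 1 - (p.2 : ℝ) / 2 := fun p => by
    rw [hn]
    exact mul_le_of_le_one_right (by linarith [p.2.2.2]) (J.norm_ω _)
  refine ⟨J.isClosed_bd hZ.1, ⟨fun p => J.π (h (J.η p.1, 2 * p.2 / (1 - ‖J.ω p.1‖ + p.2)))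
    ((1 - (p.2 : ℝ) / 2) • J.ω p.1), continuous_iff_continuousAt.2 fun p => J.contAt (by fun_prop)
      (fun s => (hn1 s).trans (by linarith [s.2.2.1])) fun hp => ?_⟩, fun x => ?_,
    fun x t ht => J.π_notMem (hz _ _ ?_) ((hn1 (x, t)).trans_lt ?_)⟩
  · have hd : ∀ (hd : 0 < 1 - ‖J.ω p.1‖ + p.2), ContinuousAt
        (fun p : X × I => 2 * (p.2 : ℝ) / (1 - ‖J.ω p.1‖ + p.2)) p := fun hd =>
      ContinuousAt.div (by fun_prop) (by fun_prop) hd.ne'
    rcases (J.norm_ω p.1).lt_or_eq with hl | hl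
    · exact hc.continuousAt.comp (((J.contAt_η hl).comp continuousAt_fst).prodMk
        (hd (by linarith [p.2.2.1])))
    · have ht : 0 < (p.2 : ℝ) := by
        rw [hn, hl] at hp
        linarith
      refine (continuousAt_const (y := y₁)).congr ?_
      have h2 : 1 < 2 * (p.2 : ℝ) / (1 - ‖J.ω p.1‖ + p.2) := by
        rw [hl, lt_div_iff₀ (by linarith)]
        linarith
      filter_upwards [(hd (by linarith)).eventually (lt_mem_nhds h2)] with q hq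
      exact (h1 _ _ hq.le).symm
  · simp [h0, J.π_η]
  · have : 0 < (t : ℝ) := ht
    have := J.norm_ω x
    exact div_pos (by linarith) (by linarith)
  · have : 0 < (t : ℝ) := ht
    linarith

end JoinData

theorem encard_cubes {n : ℕ} {ε : ℝ} (hε : 0 < ε) (w : Fin n → ℝ) :
    {k : Fin n → ℤ | w ∈ ball (fun i => ε * k i) ε}.encard ≤ (2 ^ n : ℕ) := by
  classical
  have h : {k : Fin n → ℤ | w ∈ ball (fun i => ε * k i) ε} ⊆
      (Fintype.piFinset fun i => ({⌊w i / ε⌋, ⌊w i / ε⌋ + 1} : Finset ℤ) : Finset (Fin n → ℤ)) := by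
    intro k hk
    rw [Finset.mem_coe, Fintype.mem_piFinset]
    intro i
    have h1 := abs_lt.1 ((dist_pi_lt_iff hε).1 hk i)
    have h2 : w i / ε < k i + 1 := by rw [div_lt_iff₀ hε]; linarith [h1.2]
    have h3 : (k i : ℝ) - 1 < w i / ε := by rw [lt_div_iff₀ hε]; linarith [h1.1]
    have h4 : ⌊w i / ε⌋ < k i + 1 := Int.floor_lt.2 (by exact_mod_cast h2)
    have h5 : k i - 1 ≤ ⌊w i / ε⌋ := Int.le_floor.2 (by exact_mod_cast h3.le)
    rw [Finset.mem_insert, Finset.mem_singleton]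
    omega
  refine (encard_le_encard h).trans ?_
  rw [encard_coe_eq_coe_finsetCard, Fintype.card_piFinset, Nat.cast_le]
  refine (Finset.prod_le_pow_card _ _ 2 fun i _ => Finset.card_le_two).trans ?_
  simp

theorem JoinData.finDim {Y X : Type} {n : ℕ} [MetricSpace Y] [CompactSpace Y] [MetricSpace X]
    (J : JoinData Y (Fin n → ℝ) X) (hY : FinDim Y) : FinDim X := by
  obtain ⟨m, hm⟩ := hY
  have := J.compactSpace
  refine ⟨2 ^ n * m, fun 𝒰 ho hc => ?_⟩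
  obtain ⟨δ, hδ, hL⟩ := lebesgue_number_lemma_of_metric_sUnion isCompact_univ ho hc.ge
  obtain ⟨D, hD⟩ := Metric.isBounded_iff.1 (isCompact_univ (X := Y)).isBounded
  have hB := J.B_pos
  obtain ⟨ε, hε, h1⟩ : ∃ ε : ℝ, 0 < ε ∧ (J.B + |D| + 1) * (2 * ε) < δ :=
    ⟨δ / (4 * (J.B + |D| + 1)), by positivity, by field_simp; linarith⟩
  obtain ⟨𝒱, hV, hVc, hVm⟩ := hm (range fun y => ball y ε) (by rintro _ ⟨y, rfl⟩; exact isOpen_ball)
    (eq_univ_of_forall fun y => ⟨_, mem_range_self y, mem_ball_self hε⟩)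
  let Q : (Fin n → ℤ) → Set (Fin n → ℝ) := fun k => ball (fun i => ε * k i) ε
  let S : (Fin n → ℤ) × Set Y → Set X := fun p =>
    {x | J.ω x ∈ Q p.1 ∧ ((∀ w ∈ Q p.1, ‖w‖ < 1) → J.η x ∈ p.2)}
  have hη : ∀ x, ∃ U ∈ 𝒱, J.η x ∈ U := fun x => mem_sUnion.1 (hVc.ge (mem_univ _))
  refine ⟨{T ∈ S '' univ ×ˢ 𝒱 | T.Nonempty}, ?_, eq_univ_of_forall fun x => ?_, fun x => ?_⟩
  · rintro _ ⟨⟨⟨k, U⟩, hU, rfl⟩, x, hx⟩
    refine ⟨isOpen_iff_mem_nhds.2 fun z hz => inter_mem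
      ((isOpen_ball.preimage J.cont_ω).mem_nhds hz.1) ?_, ?_⟩
    · by_cases hq : ∀ w ∈ Q k, ‖w‖ < 1
      · exact mem_of_superset ((J.contAt_η (hq _ hz.1)).preimage_mem_nhds
          ((hV U hU.2).1.mem_nhds (hz.2 hq))) fun z hz _ => hz
      · exact Eventually.of_forall fun z h => absurd h hq
    · obtain ⟨T, hT, hs⟩ := hL x (mem_univ x)
      refine ⟨T, hT, fun z hz => hs (lt_of_le_of_lt (J.dist_le' z x) (lt_of_le_of_lt ?_ h1))⟩
      have hq2 : ∀ w ∈ Q k, ∀ w' ∈ Q k, ‖w - w'‖ ≤ 2 * ε := fun w hw w' hw' => by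
        rw [← dist_eq_norm]
        linarith [dist_triangle_right w w' fun i => ε * k i, mem_ball.1 hw, mem_ball.1 hw']
      have e1 := mul_le_mul_of_nonneg_left (hq2 _ hz.1 _ hx.1) hB.le
      have e2 := dist_nonneg (x := J.η z) (y := J.η x)
      by_cases hq : ∀ w ∈ Q k, ‖w‖ < 1
      · obtain ⟨_, ⟨y, rfl⟩, hy⟩ := (hV U hU.2).2
        have e3 := dist_triangle_right (J.η z) (J.η x) y
        have e4 := mem_ball.1 (hy (hz.2 hq))
        have e5 := mem_ball.1 (hy (hx.2 hq))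
        nlinarith [norm_nonneg (J.ω x), abs_nonneg D]
      · push Not at hq
        obtain ⟨w, hw, hw1⟩ := hq
        have e3 := (norm_sub_norm_le _ _).trans (hq2 _ hw _ hx.1)
        have e4 := (hD (mem_univ (J.η z)) (mem_univ (J.η x))).trans (le_abs_self D)
        have e5 : (1 - ‖J.ω x‖) * dist (J.η z) (J.η x) ≤ 2 * ε * |D| :=
          mul_le_mul (by linarith) e4 e2 (by positivity)
        nlinarith
  · obtain ⟨U, hU, hx⟩ := hη x
    have hx' : x ∈ S (fun i => ⌊J.ω x i / ε⌋, U) := by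
      refine ⟨(dist_pi_lt_iff hε).2 fun i => abs_lt.2 ⟨?_, ?_⟩, fun _ => hx⟩
      · have := (le_div_iff₀ hε).1 (Int.floor_le (J.ω x i / ε))
        linarith
      · have := (div_lt_iff₀ hε).1 (Int.lt_floor_add_one (J.ω x i / ε))
        linarith
    exact ⟨_, ⟨⟨_, ⟨mem_univ _, hU⟩, rfl⟩, x, hx'⟩, hx'⟩
  · have h : {T ∈ {T ∈ S '' univ ×ˢ 𝒱 | T.Nonempty} | x ∈ T} ⊆
        S '' {k | J.ω x ∈ Q k} ×ˢ {U ∈ 𝒱 | J.η x ∈ U} := by
      rintro _ ⟨⟨⟨⟨k, U⟩, hU, rfl⟩, -⟩, hx⟩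
      by_cases hq : ∀ w ∈ Q k, ‖w‖ < 1
      · exact ⟨(k, U), ⟨hx.1, hU.2, hx.2 hq⟩, rfl⟩
      · obtain ⟨U', hU', hx'⟩ := hη x
        exact ⟨(k, U'), ⟨hx.1, hU', hx'⟩, Set.ext fun z => and_congr_right fun _ =>
          ⟨fun _ h => absurd h hq, fun _ h => absurd h hq⟩⟩
    refine (encard_le_encard h).trans ((encard_image_le _ _).trans ?_)
    rw [encard_prod, Nat.cast_mul]
    exact mul_le_mul' (encard_cubes hε _) (hVm _)

theorem JoinData.isER {Y X : Type} {n : ℕ} [MetricSpace Y] [MetricSpace X]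
    (J : JoinData Y (Fin n → ℝ) X) (hY : IsER Y) : IsER X := by
  obtain ⟨h1, -, h3, h4, h5⟩ := hY
  exact ⟨J.compactSpace, inferInstance, J.finDim h3, J.contractible, J.locContr h5⟩

end Pool.Agent.P.MP_f05dbc_gt
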