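import Pool.Agent.P.MP_f05dbc_gt.Defs

/-!
Coloured covers and controlled extension of maps.
-/

namespace Pool.Agent.P.MP_f05dbc_gt

open Set Filter Topology Metric unitInterval

universe u

variable {P P' T : Type} [TopologicalSpace T] {ι ι' : Type*}

/-- `O` has an open refining cover that splits into `m` families of disjoint sets. -/
def Col [TopologicalSpace P] (m : ℕ) (O : ι → Set P) : Prop :=
  ∃ 𝒱 : ℕ → Set (Set P), (∀ j, ∀ V ∈ 𝒱 j, IsOpen V ∧ ∃ i, V ⊆ O i) ∧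
    (∀ j, ∀ V ∈ 𝒱 j, ∀ V' ∈ 𝒱 j, ∀ x ∈ V, x ∈ V' → V = V') ∧ ∀ x, ∃ j < m, ∃ V ∈ 𝒱 j, x ∈ V

theorem Col.comap [TopologicalSpace P] [TopologicalSpace P'] {m : ℕ} {O : ι → Set P}
    (h : Col m O) {π : P' → P} (hπ : Continuous π) {O' : ι' → Set P'}
    (hO : ∀ i, ∃ i', π ⁻¹' O i ⊆ O' i') : Col m O' := by
  obtain ⟨𝒱, h1, h2, h3⟩ := h
  refine ⟨fun j => preimage π '' 𝒱 j, ?_, ?_, fun x => ?_⟩
  · rintro j _ ⟨V, hV, rfl⟩
    obtain ⟨h4, i, h5⟩ := h1 j V hV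
    exact ⟨h4.preimage hπ, (hO i).imp fun _ h => (preimage_mono h5).trans h⟩
  · rintro j _ ⟨V, hV, rfl⟩ _ ⟨V', hV', rfl⟩ x hx hx'
    rw [h2 j V hV V' hV' _ hx hx']
  · obtain ⟨j, hj, V, hV, hx⟩ := h3 (π x)
    exact ⟨j, hj, _, ⟨V, hV, rfl⟩, hx⟩

theorem Col.prod [TopologicalSpace P] [TopologicalSpace P'] {m m' : ℕ} {O : ι → Set P}
    {O' : ι' → Set P'} (h : Col m O) (h' : Col m' O') :
    Col (m * m') fun i : ι × ι' => O i.1 ×ˢ O' i.2 := by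
  obtain ⟨𝒱, h1, h2, h3⟩ := h
  obtain ⟨𝒱', h1', h2', h3'⟩ := h'
  refine ⟨fun j => image2 (· ×ˢ ·) (𝒱 (j / m')) (𝒱' (j % m')), ?_, ?_, fun x => ?_⟩
  · rintro j _ ⟨V, hV, V', hV', rfl⟩
    obtain ⟨h4, i, h5⟩ := h1 _ V hV
    obtain ⟨h4', i', h5'⟩ := h1' _ V' hV'
    exact ⟨h4.prod h4', (i, i'), prod_mono h5 h5'⟩
  · rintro j _ ⟨V, hV, V', hV', rfl⟩ _ ⟨U, hU, U', hU', rfl⟩ x hx hx'
    rw [h2 _ V hV U hU _ hx.1 hx'.1, h2' _ V' hV' U' hU' _ hx.2 hx'.2]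
  · obtain ⟨j, hj, V, hV, hx⟩ := h3 x.1
    obtain ⟨j', hj', V', hV', hx'⟩ := h3' x.2
    refine ⟨j' + m' * j, by nlinarith, _, ⟨V, ?_, V', ?_, rfl⟩, hx, hx'⟩
    · rwa [Nat.add_mul_div_left _ _ (by omega), Nat.div_eq_of_lt hj', zero_add]
    · rwa [Nat.add_mul_mod_self_left, Nat.mod_eq_of_lt hj']

theorem FinDim.col [MetricSpace P] (h : FinDim P) : ∃ m, ∀ (ι : Type u) (O : ι → Set P),
    (∀ i, IsOpen (O i)) → (∀ x, ∃ i, x ∈ O i) → Col m O := by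
  obtain ⟨m, h⟩ := h
  refine ⟨m + 1, fun ι O ho hc => ?_⟩
  obtain ⟨𝒱, h1, h2, h3⟩ := h (range O) (by rintro _ ⟨i, rfl⟩; exact ho i)
    (eq_univ_of_forall fun x => (hc x).elim fun i hi => ⟨_, ⟨i, rfl⟩, hi⟩)
  by_cases hu : univ ∈ 𝒱
  · obtain ⟨-, _, ⟨i, rfl⟩, hi⟩ := h1 _ hu
    exact ⟨fun _ => {univ}, fun _ V hV => hV ▸ ⟨isOpen_univ, i, hi⟩,
      fun _ V hV V' hV' _ _ _ => hV.trans hV'.symm, fun x => ⟨0, m.succ_pos, _, rfl, trivial⟩⟩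
  have hp : ∀ V ∈ 𝒱, ∀ x, x ∈ V ↔ 0 < infDist x Vᶜ := fun V hV x => not_not.symm.trans
    ((h1 V hV).1.isClosed_compl.notMem_iff_infDist_pos (nonempty_compl.2 fun e => hu (e ▸ hV)))
  let U : Set (Set P) → Set P := fun S => {x | ∃ δ : ℝ, 0 < δ ∧ ∀ V ∈ S, δ ≤ infDist x Vᶜ ∧
    ∀ V' ∈ 𝒱, V' ∉ S → infDist x V'ᶜ + δ ≤ infDist x Vᶜ}
  refine ⟨fun j => U '' {S | S ⊆ 𝒱 ∧ S.Finite ∧ S.Nonempty ∧ S.ncard = j}, ?_, ?_, fun x => ?_⟩
  · rintro j _ ⟨S, ⟨hS, -, ⟨V, hV⟩, -⟩, rfl⟩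
    obtain ⟨-, _, ⟨i, rfl⟩, hi⟩ := h1 _ (hS hV)
    refine ⟨Metric.isOpen_iff.2 fun x ⟨δ, hδ, hx⟩ => ⟨δ / 3, by positivity, fun y hy =>
      ⟨δ / 3, by positivity, fun V hV => ⟨?_, fun V' hV' hn => ?_⟩⟩⟩, i,
      fun x ⟨δ, hδ, hx⟩ => hi ((hp V (hS hV) x).2 (hδ.trans_le (hx V hV).1))⟩
    · linarith [infDist_le_infDist_add_dist (x := x) (y := y) (s := Vᶜ), mem_ball'.1 hy,
        (hx V hV).1]
    · linarith [infDist_le_infDist_add_dist (x := x) (y := y) (s := Vᶜ), mem_ball'.1 hy,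
        infDist_le_infDist_add_dist (x := y) (y := x) (s := V'ᶜ), mem_ball.1 hy,
        (hx V hV).2 V' hV' hn]
  · rintro j _ ⟨S, ⟨hS, f1, -, c1⟩, rfl⟩ _ ⟨S', ⟨hS', f2, -, c2⟩, rfl⟩ x ⟨δ, hδ, hx⟩ ⟨δ', hδ', hx'⟩
    by_cases e1 : S ⊆ S'
    · rw [eq_of_subset_of_ncard_le e1 (c2.trans c1.symm).le f2]
    by_cases e2 : S' ⊆ S
    · rw [eq_of_subset_of_ncard_le e2 (c1.trans c2.symm).le f1]
    obtain ⟨V, hV, hn⟩ := not_subset.1 e1
    obtain ⟨V', hV', hn'⟩ := not_subset.1 e2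
    linarith [(hx V hV).2 V' (hS' hV') hn', (hx' V' hV').2 V (hS hV) hn]
  · have hf : {V ∈ 𝒱 | x ∈ V}.Finite := finite_of_encard_le_coe (h3 x)
    obtain ⟨V₀, h4, h5⟩ := exists_max_image _ (fun V => infDist x Vᶜ) hf (h2.ge (mem_univ x))
    have h6 := (hp _ h4.1 x).1 h4.2
    let S := {V ∈ {V ∈ 𝒱 | x ∈ V} | infDist x Vᶜ = infDist x V₀ᶜ}
    have h7 : ∀ᶠ δ in 𝓝 (0 : ℝ), ∀ V ∈ {V ∈ 𝒱 | x ∈ V}, V ∉ S → δ < infDist x V₀ᶜ - infDist x Vᶜ :=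
      (eventually_all_finite hf).2 fun V hV => by
        by_cases hn : V ∈ S
        · exact Eventually.of_forall fun _ h => absurd hn h
        · exact (gt_mem_nhds (sub_pos.2 ((h5 V hV).lt_of_ne fun e => hn ⟨hV, e⟩))).mono
            fun _ h _ => h
    obtain ⟨δ, ⟨h8, h9⟩, hδ⟩ := (((h7.and (gt_mem_nhds h6)).filter_mono
      (nhdsWithin_le_nhds (s := Ioi 0))).and self_mem_nhdsWithin).exists
    refine ⟨_, Nat.lt_succ_of_le ?_, _, ⟨S, ⟨fun V hV => hV.1.1, hf.subset (sep_subset _ _),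
      ⟨V₀, h4, rfl⟩, rfl⟩, rfl⟩, δ, hδ, fun V hV => ⟨hV.2 ▸ h9.le, fun V' hV' hn => ?_⟩⟩
    · exact (ncard_le_ncard (sep_subset _ _) hf).trans (ENat.toNat_le_of_le_coe (h3 x))
    · rw [hV.2]
      by_cases hx : x ∈ V'
      · linarith [h8 V' ⟨hV', hx⟩ hn]
      · rw [infDist_zero_of_mem hx]
        linarith

theorem FinDim.col_compl [MetricSpace P] [CompactSpace P] (h : FinDim P) {Z : Set P}
    {p : ↥Zᶜ → ℝ} (hp : Continuous p) (hK : ∀ t, IsCompact {y | p y ≤ t}) (O : ι → Set ↥Zᶜ)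
    (ho : ∀ i, IsOpen (O i)) (hc : ∀ x, ∃ i, x ∈ O i) : ∃ m, Col m O := by
  obtain ⟨m, h⟩ := h.col
  choose O' h1 h2 using fun i => isOpen_induced_iff.1 (ho i)
  have h3 := fun k : ℤ => h (Option ι)
    (fun i => i.elim (Subtype.val '' {y | p y ≤ k + 1})ᶜ O') (fun i => by
      cases i with
      | none => exact ((hK _).image continuous_subtype_val).isClosed.isOpen_compl
      | some i => exact h1 i) fun x => by
      by_cases hx : x ∈ Subtype.val '' {y | p y ≤ k + 1}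
      · obtain ⟨y, -, rfl⟩ := hx
        obtain ⟨i, hi⟩ := hc y
        exact ⟨some i, (h2 i).ge hi⟩
      · exact ⟨none, hx⟩
  choose 𝒱 h4 h5 h6 using h3
  refine ⟨m * 2, fun j => {U | U.Nonempty ∧ ∃ k : ℤ, k % 2 = (j % 2 : ℕ) ∧ ∃ V ∈ 𝒱 k (j / 2),
    U = Subtype.val ⁻¹' V ∩ p ⁻¹' Ioo (k - 1 : ℝ) (k + 1)}, ?_, ?_, fun x => ?_⟩
  · rintro j _ ⟨⟨x, hx⟩, k, -, V, hV, rfl⟩
    obtain ⟨h7, i, h8⟩ := h4 k _ V hV
    refine ⟨(h7.preimage continuous_subtype_val).inter (isOpen_Ioo.preimage hp), ?_⟩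
    cases i with
    | none => exact absurd ⟨x, hx.2.2.le, rfl⟩ (h8 hx.1)
    | some i => exact ⟨i, fun y hy => (h2 i).le (h8 hy.1)⟩
  · rintro j _ ⟨-, k, e, V, hV, rfl⟩ _ ⟨-, k', e', V', hV', rfl⟩ x hx hx'
    have h7 : k - 1 < k' + 1 := by exact_mod_cast hx.2.1.trans hx'.2.2
    have h8 : k' - 1 < k + 1 := by exact_mod_cast hx'.2.1.trans hx.2.2
    obtain rfl : k = k' := by omega
    rw [h5 k _ V hV V' hV' _ hx.1 hx'.1]
  · obtain ⟨j, hj, V, hV, hx⟩ := h6 ⌊p x⌋ x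
    have h7 : x ∈ Subtype.val ⁻¹' V ∩ p ⁻¹' Ioo (⌊p x⌋ - 1 : ℝ) (⌊p x⌋ + 1) :=
      ⟨hx, by linarith [Int.floor_le (p x)], Int.lt_floor_add_one _⟩
    refine ⟨2 * j + (⌊p x⌋ % 2).toNat, by omega, _, ⟨⟨x, h7⟩, _, by omega, V, ?_, rfl⟩, h7⟩
    rwa [show (2 * j + (⌊p x⌋ % 2).toNat) / 2 = j by omega]

/-- `S` contracts to a point inside `S'`. -/
def Con (S S' : Set T) : Prop :=
  ∃ (H : I × T → T) (c : T), ContinuousOn H (univ ×ˢ S) ∧ c ∈ S' ∧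
    ∀ x ∈ S, H (0, x) = x ∧ H (1, x) = c ∧ ∀ t, H (t, x) ∈ S'

theorem Con.subset {S S' : Set T} (h : Con S S') : S ⊆ S' := fun x hx =>
  h.elim fun _ ⟨_, _, _, h⟩ => (h x hx).1 ▸ (h x hx).2.2 0

theorem Con.mono {S S' R R' : Set T} (h : Con S S') (h1 : R ⊆ S) (h2 : S' ⊆ R') : Con R R' := by
  obtain ⟨H, c, h3, h4, h5⟩ := h
  exact ⟨H, c, h3.mono (prod_mono_right h1), h2 h4, fun x hx =>
    ⟨(h5 x (h1 hx)).1, (h5 x (h1 hx)).2.1, fun t => h2 ((h5 x (h1 hx)).2.2 t)⟩⟩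

/-- A class of families of subsets of `T` along which maps defined on the space covered by `O` can
be extended. -/
structure Ctl (O : ι → Set P) (𝓑 : (ι → Set T) → Prop) : Prop where
  adj : ∀ S, 𝓑 S → ∃ S', 𝓑 S' ∧ ∀ a b, (O a ∩ O b).Nonempty → S b ⊆ S' a
  con : ∀ S, 𝓑 S → ∃ S', 𝓑 S' ∧ ∀ a, Con (S a) (S' a)

variable [TopologicalSpace P] [NormalSpace P] {O : ι → Set P} {𝓑 : (ι → Set T) → Prop}

theorem Ctl.step (h : Ctl O 𝓑) {𝒱 : Set (Set P)} (h1 : ∀ V ∈ 𝒱, IsOpen V ∧ ∃ i, V ⊆ O i)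
    (h2 : ∀ V ∈ 𝒱, ∀ V' ∈ 𝒱, ∀ x ∈ V, x ∈ V' → V = V') {A W : Set P} (hA : IsClosed A)
    (hW : IsOpen W) (hAW : A ⊆ W) {f : P → T} (hf : ContinuousOn f W) {S : ι → Set T} (hS : 𝓑 S)
    (h0 : ∀ a, MapsTo f (W ∩ O a) (S a)) : ∃ (W' : Set P) (F : P → T) (S' : ι → Set T),
      IsOpen W' ∧ A ∪ ⋃₀ 𝒱 ⊆ W' ∧ ContinuousOn F W' ∧ EqOn F f A ∧ 𝓑 S' ∧
      ∀ a, MapsTo F (W' ∩ O a) (S' a) := by
  classical
  obtain ⟨S₁, hS₁, h3⟩ := h.con S hS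
  obtain ⟨S₂, hS₂, h4⟩ := h.adj S₁ hS₁
  have h3' := fun a => (h3 a).subset
  choose H c hH hc h3 using h3
  choose ho idx hi using h1
  obtain ⟨θ, t0, t1, -⟩ := exists_continuous_zero_one_of_isClosed hA hW.isClosed_compl
    (disjoint_compl_right_iff_subset.2 hAW)
  have hθ := θ.continuous
  have tW : ∀ x, θ x < 1 → x ∈ W := fun x hx => not_not.1 fun h => hx.ne (t1 h)
  let G : ι → P → T := fun a x =>
    if θ x < 1 then H a (projIcc 0 1 zero_le_one (3 * θ x - 1), f x) else c a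
  let F : P → T := fun x =>
    if h : ∃ V ∈ 𝒱, x ∈ V then G (idx _ h.choose_spec.1) x else f x
  have e1 : ∀ V hV, ∀ x ∈ V, F x = G (idx V hV) x := fun V hV x hx => by
    have h : ∃ V ∈ 𝒱, x ∈ V := ⟨V, hV, hx⟩
    obtain rfl := h2 V hV _ h.choose_spec.1 x hx h.choose_spec.2
    exact dif_pos h
  have m1 : ∀ V hV, ∀ x ∈ V, θ x < 1 → f x ∈ S (idx V hV) := fun V hV x hx ht =>
    h0 _ ⟨tW x ht, hi V hV hx⟩
  have e2 : ∀ x, θ x < 1 / 3 → F x = f x := fun x hx => by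
    by_cases h : ∃ V ∈ 𝒱, x ∈ V
    · obtain ⟨V, hV, h⟩ := h
      have : θ x < 1 := by linarith
      rw [e1 V hV x h]
      refine (if_pos this).trans ?_
      rw [projIcc_of_le_left _ (by linarith)]
      exact (h3 _ _ (m1 V hV x h this)).1
    · exact dif_neg h
  have o1 : ∀ r, IsOpen {x | θ x < r} := fun r => isOpen_lt hθ continuous_const
  refine ⟨{x | θ x < 1 / 3} ∪ ⋃₀ 𝒱, F, S₂, (o1 _).union (isOpen_sUnion ho),
    union_subset_union_left _ fun x hx => ?_, fun x hx => ContinuousAt.continuousWithinAt ?_,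
    fun x hx => e2 x (by rw [t0 hx]; norm_num), hS₂, fun a x hx => ?_⟩
  · rw [mem_ofPred_eq, t0 hx]
    norm_num
  · rcases hx with hx | ⟨V, hV, hx⟩
    · refine (hf.continuousAt (hW.mem_nhds (tW x (hx.trans (by norm_num))))).congr ?_
      exact mem_of_superset ((o1 _).mem_nhds hx) fun y hy => (e2 y hy).symm
    rcases lt_or_ge (θ x) 1 with ht | ht
    · refine ContinuousOn.continuousAt (s := V ∩ {x | θ x < 1}) (((hH (idx V hV)).comp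
        (f := fun x => (projIcc 0 1 zero_le_one (3 * θ x - 1), f x))
        (ContinuousOn.prodMk (by fun_prop) (hf.mono fun y hy => tW y hy.2))
        fun y hy => ⟨trivial, m1 V hV y hy.1 hy.2⟩).congr fun y hy => ?_)
        (((ho V hV).inter (o1 _)).mem_nhds ⟨hx, ht⟩)
      exact (e1 V hV y hy.1).trans (if_pos hy.2)
    · refine (continuousAt_const (y := c (idx V hV))).congr ?_
      filter_upwards [(ho V hV).mem_nhds hx, hθ.continuousAt.eventually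
        (lt_mem_nhds (show 2 / 3 < θ x by linarith))] with y hy hy'
      rw [e1 V hV y hy]
      by_cases h : θ y < 1
      · refine ((if_pos h).trans ?_).symm
        rw [projIcc_of_right_le _ (by linarith)]
        exact (h3 _ _ (m1 V hV y hy h)).2.1
      · exact (if_neg h).symm
  · rcases hx.1 with h | ⟨V, hV, h⟩
    · rw [e2 x h]
      exact h4 a a ⟨x, hx.2, hx.2⟩ (h3' a (h0 a ⟨tW x (h.trans (by norm_num)), hx.2⟩))
    · rw [e1 V hV x h]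
      refine h4 a _ ⟨x, hx.2, hi V hV h⟩ ?_
      by_cases ht : θ x < 1
      · exact mem_of_eq_of_mem (if_pos ht) ((h3 _ _ (m1 V hV x h ht)).2.2 _)
      · exact mem_of_eq_of_mem (if_neg ht) (hc _)

theorem Ctl.ext (h : Ctl O 𝓑) {m : ℕ} (hO : Col m O) {A W : Set P} (hA : IsClosed A)
    (hW : IsOpen W) (hAW : A ⊆ W) {f : P → T} (hf : ContinuousOn f W) {S : ι → Set T} (hS : 𝓑 S)
    (h0 : ∀ a, MapsTo f (W ∩ O a) (S a)) :
    ∃ F : P → T, Continuous F ∧ EqOn F f A ∧ ∃ S, 𝓑 S ∧ ∀ a, MapsTo F (O a) (S a) := by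
  obtain ⟨𝒱, h1, h2, h3⟩ := hO
  obtain ⟨v, v1, v2, v3⟩ := exists_iUnion_eq_closed_subset (u := fun j : Fin m => ⋃₀ 𝒱 j)
    (fun j => isOpen_sUnion fun V hV => (h1 _ V hV).1) (fun _ => toFinite _)
    (eq_univ_of_forall fun x => (h3 x).elim fun j hj => mem_iUnion.2 ⟨⟨j, hj.1⟩, hj.2⟩)
  have key : ∀ k : ℕ, ∃ (W' : Set P) (F : P → T) (S' : ι → Set T), IsOpen W' ∧
      A ∪ ⋃ j ∈ {j : Fin m | j < k}, v j ⊆ W' ∧ ContinuousOn F W' ∧ EqOn F f A ∧ 𝓑 S' ∧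
      ∀ a, MapsTo F (W' ∩ O a) (S' a) := fun k => by
    induction k with
    | zero => exact ⟨W, f, S, hW, by simpa using hAW, hf, fun _ _ => rfl, hS, h0⟩
    | succ k ih =>
      obtain ⟨W', F, S', i1, i2, i3, i4, i5, i6⟩ := ih
      obtain ⟨W'', F', S'', j1, j2, j3, j4, j5, j6⟩ := h.step (h1 k) (h2 k)
        (hA.union ((toFinite _).isClosed_biUnion fun j _ => v2 j)) i1 i2 i3 i5 i6
      refine ⟨W'', F', S'', j1, Subset.trans ?_ j2, j3,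
        (j4.mono subset_union_left).trans i4, j5, j6⟩
      rintro x (hx | hx)
      · exact Or.inl (Or.inl hx)
      · obtain ⟨j, hj, hy⟩ := mem_iUnion₂.1 hx
        rcases Nat.lt_succ_iff_lt_or_eq.1 hj with hj' | hj'
        · exact Or.inl (Or.inr (mem_biUnion hj' hy))
        · exact Or.inr (hj' ▸ v3 j hy)
  obtain ⟨W', F, S', -, i2, i3, i4, i5, i6⟩ := key m
  have e : ∀ x, x ∈ W' := fun x => (mem_iUnion.1 (v1.ge (mem_univ x))).elim fun j hj =>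
    i2 (Or.inr (mem_biUnion j.2 hj))
  exact ⟨F, continuousOn_univ.1 (i3.mono fun x _ => e x), i4, S', i5, fun a x hx => i6 a ⟨e x, hx⟩⟩

theorem Ctl.map [Nonempty T] (h : Ctl O 𝓑) {m : ℕ} (hO : Col m O) {S : ι → Set T} (hS : 𝓑 S) :
    ∃ F : P → T, Continuous F ∧ ∃ S, 𝓑 S ∧ ∀ a, MapsTo F (O a) (S a) :=
  (h.ext hO isClosed_empty isOpen_empty subset_rfl (continuousOn_empty fun _ =>
    Classical.arbitrary T) hS fun _ _ hx => absurd hx.1 (notMem_empty _)).imp fun _ h => ⟨h.1, h.2.2⟩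

omit [NormalSpace P] in
theorem Ctl.htpy [TopologicalSpace.MetrizableSpace P] (h : Ctl O 𝓑) {m : ℕ} (hO : Col m O)
    {f g : P → T} (hf : Continuous f) (hg : Continuous g) {S : ι → Set T} (hS : 𝓑 S)
    (h0 : ∀ a, ∀ x ∈ O a, f x ∈ S a ∧ g x ∈ S a) :
    ∃ H : I × P → T, Continuous H ∧ (∀ x, H (0, x) = f x ∧ H (1, x) = g x) ∧
      ∃ S, 𝓑 S ∧ ∀ a t, ∀ x ∈ O a, H (t, x) ∈ S a := by
  classical
  have o1 : IsOpen {p : I × P | (p.1 : ℝ) < 1 / 2} := isOpen_lt (by fun_prop) continuous_const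
  have o2 : IsOpen {p : I × P | 1 / 2 < (p.1 : ℝ)} := isOpen_lt continuous_const (by fun_prop)
  obtain ⟨F, h1, h2, S', h3, h4⟩ := Ctl.ext (O := fun a => Prod.snd ⁻¹' O a) (P := I × P)
    ⟨fun S hS => (h.adj S hS).imp fun _ h => ⟨h.1, fun a b ⟨x, hx⟩ => h.2 a b ⟨x.2, hx⟩⟩, h.con⟩
    (hO.comap continuous_snd fun i => ⟨i, subset_rfl⟩) (A := {p | p.1 = 0} ∪ {p | p.1 = 1})
    (W := {p | (p.1 : ℝ) < 1 / 2} ∪ {p | 1 / 2 < (p.1 : ℝ)})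
    ((isClosed_eq continuous_fst continuous_const).union
      (isClosed_eq continuous_fst continuous_const))
    (o1.union o2)
    (union_subset_union (fun p hp => by simp [show p.1 = 0 from hp])
      fun p hp => by norm_num [show p.1 = 1 from hp])
    (f := fun p => if (p.1 : ℝ) < 1 / 2 then f p.2 else g p.2)
    (ContinuousOn.union_of_isOpen
      ((hf.comp continuous_snd).continuousOn.congr fun p hp => if_pos hp)
      ((hg.comp continuous_snd).continuousOn.congr fun p hp =>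
        if_neg (lt_asymm (a := (1 / 2 : ℝ)) hp)) o1 o2)
    hS fun a p hp => by
      dsimp only
      split_ifs
      exacts [(h0 a _ hp.2).1, (h0 a _ hp.2).2]
  exact ⟨F, h1, fun x => ⟨(h2 (Or.inl rfl)).trans (if_pos (by simp)),
    (h2 (Or.inr rfl)).trans (if_neg (by norm_num))⟩, S', h3, fun a t x hx => h4 a hx⟩

end Pool.Agent.P.MP_f05dbc_gt
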