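import Pool.Agent.P.MP_f05dbc_gt.Crs
import Pool.Agent.P.MP_f05dbc_gt.Ext
import Pool.Agent.P.MP_f05dbc_gt.ER

/-!
A controlled homotopy equivalence between the model of the group and the product.
-/

namespace Pool.Agent.P.MP_f05dbc_gt

open Set Filter Topology unitInterval

universe u

section

variable {T T' P : Type} [TopologicalSpace T] [TopologicalSpace T'] {S S' C : Set T}

theorem con_of_null {h : S ⊆ S'} (hn : (ContinuousMap.inclusion h).Nullhomotopic) : Con S S' := by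
  classical
  obtain ⟨H, c, h1, h2, h3, h4, h5⟩ := of_null hn
  refine ⟨fun p => if h : p.2 ∈ S then H (p.1, ⟨p.2, h⟩) else c, c,
    continuousOn_iff_continuous_domRestrict.2 ((h1.comp (f := fun q : univ ×ˢ S =>
      (q.1.1, ⟨q.1.2, q.2.2⟩)) (by fun_prop)).congr fun q => ?_), h3,
    fun x hx => ?_⟩
  · simp only [domRestrict_apply, dif_pos q.2.2, Function.comp_apply]
  simp only [dif_pos hx]
  exact ⟨h2 _, h4 _, fun t => h5 _⟩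

theorem Con.compact (h : Con S S') (hC : IsCompact C) (h' : C ⊆ S) :
    ∃ C', IsCompact C' ∧ C' ⊆ S' ∧ Con C C' := by
  obtain ⟨H, c, h1, h2, h3⟩ := h
  have h4 := h1.mono (prod_mono_right h')
  refine ⟨_, ((isCompact_univ.prod hC).image_of_continuousOn h4).insert c, insert_subset h2 ?_,
    H, c, h4, .inl rfl, fun x hx => ⟨(h3 x (h' hx)).1, (h3 x (h' hx)).2.1,
      fun t => .inr ⟨_, ⟨trivial, hx⟩, rfl⟩⟩⟩
  rintro _ ⟨p, hp, rfl⟩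
  exact (h3 _ (h' hp.2)).2.2 _

theorem IsCompact.con [ContractibleSpace T] (hC : IsCompact C) : ∃ C', IsCompact C' ∧ Con C C' := by
  obtain ⟨c, ⟨H⟩⟩ := id_nullhomotopic T
  obtain ⟨C', h1, -, h2⟩ := Con.compact (S := univ) (S' := univ) ⟨H, c, H.continuous.continuousOn,
    trivial, fun x _ => ⟨H.apply_zero x, H.apply_one x, fun _ => trivial⟩⟩ hC (subset_univ _)
  exact ⟨C', h1, h2⟩

theorem Con.preimage (h : Con S S') (e : T' ≃ₜ T) : Con (e ⁻¹' S) (e ⁻¹' S') := by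
  obtain ⟨H, c, h1, h2, h3⟩ := h
  refine ⟨fun p => e.symm (H (p.1, e p.2)), e.symm c, e.symm.continuous.comp_continuousOn
    (h1.comp (by fun_prop) fun p hp => ⟨trivial, hp.2⟩), by simpa using h2, fun x hx => ?_⟩
  simpa [(h3 _ hx).1, (h3 _ hx).2.1] using (h3 _ hx).2.2

theorem Con.prod (h : Con S S') {R R' : Set T'} (h' : Con R R') : Con (S ×ˢ R) (S' ×ˢ R') := by
  obtain ⟨H, c, h1, h2, h3⟩ := h
  obtain ⟨H', c', h4, h5, h6⟩ := h'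
  exact ⟨fun p => (H (p.1, p.2.1), H' (p.1, p.2.2)), (c, c'),
    (h1.comp (by fun_prop) fun p hp => ⟨trivial, hp.2.1⟩).prodMk
      (h4.comp (by fun_prop) fun p hp => ⟨trivial, hp.2.2⟩), ⟨h2, h5⟩, fun x hx =>
    ⟨Prod.ext (h3 _ hx.1).1 (h6 _ hx.2).1, Prod.ext (h3 _ hx.1).2.1 (h6 _ hx.2).2.1,
      fun t => ⟨(h3 _ hx.1).2.2 t, (h6 _ hx.2).2.2 t⟩⟩⟩

variable {Γ ι : Type*} [Group Γ]

/-- Uniformly bounded families. -/
def BU (a : Γ →* (T ≃ₜ T)) (γ : ι → Γ) (S : ι → Set T) : Prop :=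
  ∃ D, IsCompact D ∧ ∀ i, ∀ x ∈ S i, a (γ i)⁻¹ x ∈ D

theorem ctl_BU [ContractibleSpace T] (a : Γ →* (T ≃ₜ T)) {γ : ι → Γ} {O : ι → Set P}
    (h : {r | ∃ i j, (O i ∩ O j).Nonempty ∧ r = (γ i)⁻¹ * γ j}.Finite) : Ctl O (BU a γ) := by
  refine ⟨fun S ⟨D, h1, h2⟩ => ?_, fun S ⟨D, h1, h2⟩ => ?_⟩
  · obtain ⟨L, h3, h4⟩ := exists_orb a h h1
    refine ⟨fun i => a (γ i)⁻¹ ⁻¹' L, ⟨L, h3, fun _ _ h => h⟩, fun i j hij x hx => ?_⟩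
    simpa only [mem_preimage, ← act_mul, mul_inv_cancel_right] using
      h4 _ ⟨i, j, hij, rfl⟩ _ (h2 j x hx)
  · obtain ⟨L, h3, h4⟩ := IsCompact.con h1
    exact ⟨fun i => a (γ i)⁻¹ ⁻¹' L, ⟨L, h3, fun _ _ h => h⟩,
      fun i => (h4.preimage _).mono (h2 i) subset_rfl⟩

theorem Ccp.cover [LocallyCompactSpace T] {a : Γ →* (T ≃ₜ T)} (h : Ccp a) :
    ∃ K, IsCompact K ∧ ∀ x, ∃ g, a g⁻¹ x ∈ interior K := by
  obtain ⟨K, h1, h2⟩ := h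
  obtain ⟨K', h3, h4⟩ := exists_compact_superset h1
  exact ⟨K', h3, fun x => (h2 x).elim fun g hg => ⟨g⁻¹, by simpa using h4 hg⟩⟩

variable {G : Type*} [Group G] {N : Subgroup G} {𝓑 : (G → Set P) → Prop} {Q : Type}
  {𝓑' : (G → Set Q) → Prop}

omit [TopologicalSpace T'] in
theorem Crs.ctl {𝓑 : (G → Set T) → Prop} (h : Crs N 𝓑)
    (hc : ∀ S, 𝓑 S → ∃ S', 𝓑 S' ∧ ∀ g, Con (S g) (S' g)) {O : G → Set P}
    (hO : Rel N fun g g' => (O g ∩ O g').Nonempty) : Ctl O 𝓑 :=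
  ⟨fun _ hS => ⟨_, h.star hS hO, fun _ g' hg _ hx => ⟨g', hg, hx⟩⟩, hc⟩

theorem Crs.image (h : Crs N 𝓑) (h' : Crs N 𝓑') {O : G → Set P} (hO : 𝓑 O)
    (hc : ∀ x, ∃ g, x ∈ O g) {R : G → Set Q} (hR : 𝓑' R) {Φ : P → Q → Prop}
    (hΦ : ∀ g, ∀ x ∈ O g, ∀ y, Φ x y → y ∈ R g) {S : G → Set P} (hS : 𝓑 S) :
    𝓑' fun g => {y | ∃ x ∈ S g, Φ x y} :=
  h'.mono (h'.star hR (h.meet hS hO)) fun _ y ⟨x, hx, hy⟩ =>
    (hc x).elim fun g' hg => ⟨g', ⟨x, hx, hg⟩, hΦ g' x hg y hy⟩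

end

/-- Every open cover has a coloured refinement. -/
def HasCol (T : Type) [TopologicalSpace T] : Prop :=
  ∀ (ι : Type u) (O : ι → Set T), (∀ i, IsOpen (O i)) → (∀ x, ∃ i, x ∈ O i) → ∃ m, Col m O

variable {G : Type u} [Group G] {N : Subgroup G} {E X Y : Type} [MetricSpace E] [MetricSpace X]
  [MetricSpace Y] {a : G →* (E ≃ₜ E)} {c : N →* (X ≃ₜ X)} {b : G →* (Y ≃ₜ Y)} {ν : G → N}

theorem BE.orbit {K : Set E} (hK : IsCompact K) : BE N a fun g => a g⁻¹ ⁻¹' K :=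
  ⟨⟨K, hK, fun g x hx => ⟨1, N.one_mem, by rwa [mul_one]⟩⟩,
    (pb_const hK.compl_mem_cocompact).mono fun g x hx => by rwa [mem_preimage, act_inv] at hx⟩

theorem BP.con [ContractibleSpace X] [ContractibleSpace Y] {S : G → Set (X × Y)}
    (h : BP ν c b S) : ∃ S', BP ν c b S' ∧ ∀ g, Con (S g) (S' g) := by
  obtain ⟨⟨L, h1, h2⟩, h3⟩ := h
  obtain ⟨C, h4, h5⟩ := h3.compact
  obtain ⟨L', h6, h7⟩ := IsCompact.con h1
  choose C' h8 h9 using fun q => IsCompact.con (h4 q)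
  refine ⟨fun g => (c (ν g)⁻¹ ⁻¹' C' g) ×ˢ (b g⁻¹ ⁻¹' L'), ⟨⟨L', h6, fun _ _ h => h.2⟩,
    (pb_of_compact h8).mono fun g x ⟨y, hy⟩ => by simpa only [mem_preimage, act_inv] using hy.1⟩,
    fun g => (((h9 g).preimage _).prod (h7.preimage _)).mono
      (fun w hw => ⟨h5 g _ ⟨w.2, by rwa [act_inv']⟩, h2 g w hw⟩) subset_rfl⟩

theorem exists_section [LocallyCompactSpace X] [ContractibleSpace E] (hX : HasCol.{u} X)
    (hc : Prp₀ c) (hc' : Ccp c) : ∃ v : X → E, Continuous v ∧ ∀ C, IsCompact C →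
      ∃ D, IsCompact D ∧ ∀ (n : N) x, c n⁻¹ x ∈ C → a (n : G)⁻¹ (v x) ∈ D := by
  obtain ⟨K, h1, h2⟩ := hc'.cover
  obtain ⟨m, hm⟩ := hX N (fun n => c n⁻¹ ⁻¹' interior K)
    (fun n => isOpen_interior.preimage (c _).continuous) h2
  have h3 : ∀ C, IsCompact C → {r : G | ∃ n n' : N, (∃ x, c n⁻¹ x ∈ C ∧ c n'⁻¹ x ∈ interior K) ∧
      r = (n : G)⁻¹ * n'}.Finite := fun C hC => ((hc _ _ h1 hC).image Subtype.val).subset (by
    rintro _ ⟨n, n', ⟨x, h4, h5⟩, rfl⟩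
    exact ⟨n⁻¹ * n', ⟨_, ⟨_, interior_subset h5, rfl⟩,
      by rwa [← act_mul, mul_inv_cancel_right]⟩, rfl⟩)
  obtain ⟨v, h4, S, ⟨D, h5, h6⟩, h7⟩ := (ctl_BU a (γ := Subtype.val) ((h3 K h1).subset
    fun _ ⟨n, n', ⟨x, h⟩, e⟩ => ⟨n, n', ⟨x, interior_subset h.1, h.2⟩, e⟩)).map hm
    (S := fun _ => ∅) ⟨∅, isCompact_empty, fun _ _ h => h⟩
  refine ⟨v, h4, fun C hC => ?_⟩
  obtain ⟨L, h8, h9⟩ := exists_orb a (h3 C hC) h5
  refine ⟨L, h8, fun n x hx => ?_⟩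
  obtain ⟨n', hn⟩ := h2 x
  simpa only [← act_mul, mul_inv_cancel_right] using
    h9 _ ⟨n, n', ⟨x, hx, hn⟩, rfl⟩ _ (h6 n' _ (h7 n' hn))

theorem exists_tube [ContractibleSpace E] [ContractibleSpace X] (hN : Cms N)
    (hν : Pb N cofinite fun g r => r = (ν g : G)⁻¹ * g) (ha : Prp₀ a) {K₀ : Set E}
    (h0 : IsCompact K₀) {m : ℕ} (hm : Col m fun g => a g⁻¹ ⁻¹' interior K₀) {f : E → X}
    (hf : Continuous f) {C : G ⧸ N → Set X} (hC : ∀ q, IsCompact (C q))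
    (hf' : ∀ g x, a g⁻¹ x ∈ interior K₀ → c (ν g)⁻¹ (f x) ∈ C g) {v : X → E} (hv : Continuous v)
    (hv' : ∀ C, IsCompact C →
      ∃ D, IsCompact D ∧ ∀ (n : N) x, c n⁻¹ x ∈ C → a (n : G)⁻¹ (v x) ∈ D) (hc' : Ccp c)
    {K : Set E} (hK : IsCompact K) : ∃ K', IsCompact K' ∧
      Con {x | ∃ n ∈ N, a n⁻¹ x ∈ K} {x | ∃ n ∈ N, a n⁻¹ x ∈ K'} := by
  let T := {x | ∃ n ∈ N, a n⁻¹ x ∈ K}
  have h1 : FinCos N {g | ∃ x ∈ T, a g⁻¹ x ∈ interior K₀} := by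
    refine ((finCos_self N).mul hN (finCos_of_finite N (ha _ _ h0 hK))).mono ?_
    rintro g ⟨x, ⟨n, hn, h2⟩, h3⟩
    exact ⟨n, hn, _, ⟨_, interior_subset h3, rfl⟩, by rwa [← act_mul, mul_inv_cancel_right]⟩
  have h2 : {r | ∃ g, (∃ x ∈ T, a g⁻¹ x ∈ interior K₀) ∧ r = (ν g : G)⁻¹ * g}.Finite :=
    (hν.fin h1).subset fun r ⟨g, hg, e⟩ h => h g hg e
  obtain ⟨C₀, h3, h4⟩ := mem_cocompact.1 ((pb_of_compact hC).fin h1)
  obtain ⟨D, h5, h6⟩ := hv' _ h3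
  obtain ⟨D', h7, h8⟩ := exists_orb a h2 h0
  obtain ⟨H, i1, i2, S, ⟨D₁, i3, i4⟩, i5⟩ := (ctl_BU a (γ := fun g => (ν g : G))
    (O := fun g => (Subtype.val : T → E) ⁻¹' (a g⁻¹ ⁻¹' interior K₀))
    (((h2.mul (ha _ _ h0 h0)).mul h2.inv).subset (by
      rintro _ ⟨g, g', ⟨x, j1, j2⟩, rfl⟩
      refine ⟨_, ⟨_, ⟨g, ⟨x, x.2, j1⟩, rfl⟩, g⁻¹ * g', ⟨_, ⟨_, interior_subset j2, rfl⟩, ?_⟩, rfl⟩,
        g'⁻¹ * ν g', ⟨g', ⟨x, x.2, j2⟩, by simp⟩, by simp [mul_assoc]⟩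
      rw [← act_mul, mul_inv_cancel_right]
      exact interior_subset j1))).htpy (hm.comap continuous_subtype_val fun g => ⟨g, subset_rfl⟩)
    continuous_subtype_val (g := fun x => v (f x)) (by fun_prop)
    (S := fun g => a (ν g : G)⁻¹ ⁻¹' (D ∪ D')) ⟨_, h5.union h7, fun _ _ h => h⟩ fun g x hx =>
      ⟨.inr (by
          simpa only [← act_mul, mul_inv_cancel_right] using
            h8 _ ⟨g, ⟨x, x.2, hx⟩, rfl⟩ _ (interior_subset hx)),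
        .inl (h6 _ _ (not_not.1 fun hn => h4 hn g ⟨x, x.2, hx⟩ (hf' g x hx)))⟩
  obtain ⟨K₁, j1, j2⟩ := hc'
  obtain ⟨D₂, j3, j4⟩ := hv' _ j1
  obtain ⟨𝒱, k1, -, k2⟩ := hm
  have k3 : ∀ p, H p ∈ {x | ∃ n ∈ N, a n⁻¹ x ∈ D₁ ∪ D₂} := fun p => by
    obtain ⟨j, -, V, hV, hx⟩ := k2 p.2
    obtain ⟨g, hg⟩ := (k1 j V hV).2
    exact ⟨_, (ν g).2, .inl (i4 g _ (i5 g p.1 p.2 (hg hx)))⟩
  have k4 : ∀ x, v x ∈ {x | ∃ n ∈ N, a n⁻¹ x ∈ D₁ ∪ D₂} := fun x => (j2 x).elim fun n hn =>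
    ⟨_, (n⁻¹).2, .inr (j4 n⁻¹ x (by rwa [inv_inv]))⟩
  obtain ⟨z, hz⟩ := ((id_nullhomotopic X).comp_left
    (⟨fun x : T => f x, by fun_prop⟩ : C(T, X))).comp_right
    (⟨fun x => ⟨v x, k4 x⟩, hv.subtype_mk _⟩ : C(X, {x | ∃ n ∈ N, a n⁻¹ x ∈ D₁ ∪ D₂}))
  refine ⟨_, i3.union j3, con_of_null (h := fun x hx =>
    mem_of_eq_of_mem (i2 ⟨x, hx⟩).1.symm (k3 (0, ⟨x, hx⟩)))
    ⟨z, ContinuousMap.Homotopic.trans ⟨⟨⟨fun p => ⟨H p, k3 p⟩, i1.subtype_mk _⟩,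
      fun x => Subtype.ext (i2 x).1, fun x => Subtype.ext (i2 x).2⟩⟩ hz⟩⟩

theorem BE.con (ha : Prp₀ a) (ht : ∀ K, IsCompact K → ∃ K', IsCompact K' ∧
      Con {x | ∃ n ∈ N, a n⁻¹ x ∈ K} {x | ∃ n ∈ N, a n⁻¹ x ∈ K'}) {S : G → Set E}
    (h : BE N a S) : ∃ S', BE N a S' ∧ ∀ g, Con (S g) (S' g) := by
  obtain ⟨⟨K, h1, h2⟩, h3⟩ := h
  obtain ⟨C, h4, h5⟩ := h3.compact
  obtain ⟨K', h6, h7⟩ := ht K h1
  choose C' h8 h9 h10 using fun q => h7.compact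
    (((ha _ _ h1 (h4 q)).inter_of_left N).isCompact_biUnion fun n _ => h1.image (a n).continuous)
    (iUnion₂_subset fun n hn => image_subset_iff.2 fun x hx => ⟨n, hn.2, by rwa [act_inv]⟩)
  refine ⟨fun g => a g⁻¹ ⁻¹' C' g, ⟨⟨K', h6, fun g x hx => (h9 _ hx).imp fun n hn =>
    ⟨hn.1, by rw [mul_inv_rev, act_mul]; exact hn.2⟩⟩, (pb_of_compact h8).mono fun g x hx => by
      rwa [mem_preimage, act_inv] at hx⟩,
    fun g => ((h10 g).preimage _).mono (fun x hx => ?_) subset_rfl⟩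
  obtain ⟨n, hn, h⟩ := h2 g x hx
  have e : a n (a (g * n)⁻¹ x) = a g⁻¹ x := by rw [← act_mul, mul_inv_rev, mul_inv_cancel_left]
  exact mem_biUnion (show n ∈ _ from ⟨⟨_, ⟨_, h, e⟩, h5 g _ (by rwa [act_inv'])⟩, hn⟩) ⟨_, h, e⟩

theorem exists_cover [LocallyCompactSpace X] [LocallyCompactSpace Y] (hN : Cms N)
    (hν : Pb N cofinite fun g r => r = (ν g : G)⁻¹ * g) (hX : HasCol.{u} X) (hY : HasCol.{u} Y)
    (hc : Ccp c) (hb : Ccp b) (hb' : Bdd N b) :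
    ∃ (O : G → Set (X × Y)) (m : ℕ), BP ν c b O ∧ Col m O := by
  obtain ⟨K, h1, h2⟩ := hc.cover
  obtain ⟨L, h3, h4⟩ := hb.cover
  obtain ⟨m, hm⟩ := hX N (fun n => c n⁻¹ ⁻¹' interior K)
    (fun n => isOpen_interior.preimage (c _).continuous) h2
  obtain ⟨m', hm'⟩ := hY G (fun g => b g⁻¹ ⁻¹' interior L)
    (fun n => isOpen_interior.preimage (b _).continuous) h4
  obtain ⟨s, h5, h6⟩ := exists_sigma hN
  obtain ⟨L', h7, h8⟩ := hb' L h3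
  have h9 : Pb N cofinite fun g r => ∃ (n : N) (g' : G), s n g' = g ∧ r = (n : G)⁻¹ * g :=
    fun q => (h6 q).mono fun r hr g hg ⟨n, g', e, e'⟩ =>
      hr g' ((h5 n g').symm.trans (e ▸ hg)) ⟨n, e ▸ e'⟩
  refine ⟨fun g => {w | ∃ n g', s n g' = g ∧ c n⁻¹ w.1 ∈ K ∧ b g'⁻¹ w.2 ∈ L}, _, ⟨⟨L', h7, ?_⟩,
    (((h9.mul hν.inv).comap (Subtype.val_injective (p := (· ∈ N))).tendsto_cofinite).image2
      (pb_const h1.compl_mem_cocompact) fun r => tendsto_act c r).mono ?_⟩,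
    (hm.prod hm').comap continuous_id fun i => ⟨s i.1 i.2, fun w hw =>
      ⟨i.1, i.2, rfl, interior_subset hw.1, interior_subset hw.2⟩⟩⟩
  · rintro _ w ⟨n, g', rfl, -, h⟩
    simpa only [← act_mul, mul_inv_cancel_right] using h8 _ (QuotientGroup.eq.1 (h5 n g')) _ h
  · rintro g x ⟨y, n, g', e, h, -⟩
    exact ⟨n⁻¹ * ν g, ⟨_, ⟨n, g', e, rfl⟩, by simp [mul_assoc]⟩, by rwa [act_mul]⟩

theorem Col.cover {P ι : Type*} [TopologicalSpace P] {m : ℕ} {O : ι → Set P}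
    {𝒱 : ℕ → Set (Set P)} (h1 : ∀ j, ∀ V ∈ 𝒱 j, IsOpen V ∧ ∃ i, V ⊆ O i)
    (h2 : ∀ x, ∃ j < m, ∃ V ∈ 𝒱 j, x ∈ V) (x : P) : ∃ i, x ∈ O i := by
  obtain ⟨j, -, V, hV, hx⟩ := h2 x
  exact (h1 j V hV).2.imp fun _ h => h hx

theorem exists_maps [LocallyCompactSpace E] [LocallyCompactSpace X] [LocallyCompactSpace Y]
    [ContractibleSpace E] [ContractibleSpace X] [ContractibleSpace Y] (hN : Cms N)
    (hν : Pb N cofinite fun g r => r = (ν g : G)⁻¹ * g) (hE : HasCol.{u} E) (hX : HasCol.{u} X)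
    (hY : HasCol.{u} Y) (ha : Prp₀ a) (ha' : Ccp a) (hc : Prp₀ c) (hc' : Ccp c) (hb : Prp N b)
    (hb' : Ccp b) (hb'' : Bdd N b) : ∃ (f : E → X × Y) (h : X × Y → E) (H : I × E → E)
      (O : G → Set (X × Y)), Continuous f ∧ Continuous h ∧ Continuous H ∧
      (∀ x, H (0, x) = x ∧ H (1, x) = h (f x)) ∧ BP ν c b O ∧ (∀ w, ∃ g, w ∈ O g) ∧
      (∀ S, BE N a S → BP ν c b fun g => f '' S g) ∧
      (∀ S, BP ν c b S → BE N a fun g => h '' S g) ∧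
      ∀ S, BE N a S → BE N a fun g => {y | ∃ x ∈ S g, ∃ t, H (t, x) = y} := by
  have c1 := crs_BE hN ha
  have c2 := crs_BP hN hν hc hb hb''
  obtain ⟨K, h1, h2⟩ := ha'.cover
  obtain ⟨m, hm⟩ := hE G (fun g => a g⁻¹ ⁻¹' interior K)
    (fun n => isOpen_interior.preimage (a _).continuous) h2
  have h3 : BE N a fun g => a g⁻¹ ⁻¹' interior K :=
    c1.mono (BE.orbit h1) fun g => preimage_mono interior_subset
  obtain ⟨O, m', h4, hm'⟩ := exists_cover hN hν hX hY hc' hb' hb''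
  have h5 := hm'.elim fun _ h => Col.cover h.1 h.2.2
  obtain ⟨f, f1, S, f2, f3⟩ := (c2.ctl (fun _ => BP.con) (c1.meet h3 h3)).map hm h4
  obtain ⟨C, f4, f5⟩ := f2.2.compact
  obtain ⟨v, v1, v2⟩ := exists_section (a := a) hX hc hc'
  have h6 := fun S => BE.con (S := S) ha fun K => exists_tube hN hν ha h1 hm f1.fst f4
    (fun g x hx => f5 g _ ⟨(f x).2, by rw [act_inv']; exact f3 g hx⟩) v1 v2 hc'
  obtain ⟨h, g1, S', g2, g3⟩ := (c1.ctl h6 (c2.meet h4 h4)).map hm' h3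
  have f6 := fun S => c1.image (S := S) c2 h3 h2 f2 (Φ := fun x y => f x = y)
    fun g x hx y e => e ▸ f3 g hx
  have g4 := fun S => c2.image (S := S) c1 h4 h5 g2 (Φ := fun x y => h x = y)
    fun g x hx y e => e ▸ g3 g hx
  obtain ⟨H, i1, i2, S'', i3, i4⟩ := (c1.ctl h6 (c1.meet h3 h3)).htpy hm continuous_id
    (g1.comp f1) (c1.union h3 (g4 _ (f6 _ h3))) fun g x hx =>
      ⟨.inl hx, .inr ⟨_, ⟨x, hx, rfl⟩, rfl⟩⟩
  exact ⟨f, h, H, O, f1, g1, i1, i2, h4, h5, f6, g4, fun S => c1.image c1 h3 h2 i3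
    fun g x hx y ⟨t, e⟩ => e ▸ i4 g t x hx⟩

end Pool.Agent.P.MP_f05dbc_gt
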