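import Pool.Agent.P.MP_f05dbc_gt.Exh

/-!
The join compactification of a product.
-/

namespace Pool.Agent.P.MP_f05dbc_gt

open Set Filter Topology Metric unitInterval

variable {X Y : Type} [MetricSpace X] [CompactSpace X] [MetricSpace Y] [CompactSpace Y]
  {Z : Set X} {Z' : Set Y}

open Classical in
/-- The inverse of the level. -/
noncomputable def Lev.r (L : Lev Z) (x : X) : ℝ := if h : x ∈ Z then 0 else (L.l ⟨x, h⟩)⁻¹

namespace Lev

variable (L : Lev Z)

omit [CompactSpace X]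

theorem pos (x : ↥Zᶜ) : 0 < L.l x := one_pos.trans_le (L.one_le x)

theorem r_coe (x : ↥Zᶜ) : L.r x = (L.l x)⁻¹ := dif_neg x.2

theorem r_pos {x : X} (h : x ∉ Z) : 0 < L.r x := (L.r_coe ⟨x, h⟩).symm ▸ inv_pos.2 (L.pos _)

theorem r_mem {x : X} (h : x ∈ Z) : L.r x = 0 := dif_pos h

theorem r_nonneg (x : X) : 0 ≤ L.r x :=
  (em (x ∈ Z)).elim (fun h => (L.r_mem h).ge) fun h => (L.r_pos h).le

theorem cont_r (hZ : IsClosed Z) : Continuous L.r := continuous_iff_continuousAt.2 fun x => by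
  by_cases hx : x ∈ Z
  · refine Metric.tendsto_nhds.2 fun ε hε => ?_
    filter_upwards [((L.compact ε⁻¹).image continuous_subtype_val).isClosed.isOpen_compl.mem_nhds
      fun ⟨y, _, e⟩ => y.2 (e ▸ hx)] with y hy
    rw [L.r_mem hx, Real.dist_eq, sub_zero, abs_of_nonneg (L.r_nonneg y)]
    by_cases h : y ∈ Z
    · rwa [L.r_mem h]
    · rw [L.r_coe ⟨y, h⟩]
      exact inv_lt_of_inv_lt₀ hε (not_le.1 fun h' => hy ⟨⟨y, h⟩, h', rfl⟩)
  · refine ContinuousOn.continuousAt ?_ (hZ.isOpen_compl.mem_nhds hx)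
    exact continuousOn_iff_continuous_domRestrict.2
      ((L.cont_l.inv₀ fun x => (L.pos x).ne').congr fun x => (L.r_coe x).symm)

theorem est {x : X} {t s : ℝ} (t0 : 0 ≤ t) (s0 : 0 < s) {y : ↥Zᶜ}
    (e : L.k (x, s / max t s) = y) : |L.l y - t / max s (t * L.r x)| ≤ 4 := by
  have h0 := lt_max_of_lt_right (b := t) s0
  obtain ⟨h1, h2, h3⟩ := L.up x _ y (div_pos s0 h0) ((div_le_one h0).2 (le_max_right _ _)) e
  rw [one_div_div] at h1 h3
  have h4 : ∀ x' : ↥Zᶜ, x' = x → 0 < t → t / (t * L.r x) = L.l x' := by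
    rintro x rfl ht
    rw [L.r_coe, div_mul_cancel_left₀ ht.ne', inv_inv]
  refine abs_le.2 ⟨?_, ?_⟩
  · have := h3 (t / max s (t * L.r x)) (div_le_div₀ h0.le (le_max_left _ _) s0 (le_max_left _ _))
      fun x' hx => by
        rcases t0.eq_or_lt with rfl | ht
        · simpa using (L.pos x').le
        · rw [← h4 x' hx ht]
          exact div_le_div_of_nonneg_left t0 (mul_pos ht (L.r_pos (hx ▸ x'.2))) (le_max_right _ _)
    linarith
  · rcases le_or_gt (t * L.r x) s with h | h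
    · rw [max_eq_left h]
      have : max t s / s ≤ t / s + 1 := by
        rw [div_add_one s0.ne']
        exact div_le_div_of_nonneg_right (max_le (by linarith) (by linarith)) s0.le
      linarith
    · have hx : x ∉ Z := fun hx => by
        rw [L.r_mem hx, mul_zero] at h
        exact lt_asymm h s0
      rw [max_eq_right h.le, h4 ⟨x, hx⟩ rfl (pos_of_mul_pos_left (s0.trans h) (L.r_nonneg x))]
      linarith [h2 ⟨x, hx⟩ rfl]

end Lev

/-- The ambient space of the join. -/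
abbrev Amb : Type := ℝ × lp (fun _ : ℕ => ℝ) ⊤ × lp (fun _ : ℕ => ℝ) ⊤

/-- The projection to the join. -/
noncomputable def pj (p : X × Y × ℝ) : Amb :=
  (p.2.2, p.2.2 • kuratowskiEmbedding X p.1, (1 - p.2.2) • kuratowskiEmbedding Y p.2.1)

theorem cont_pj : Continuous (pj : X × Y × ℝ → Amb) := by
  have := (kuratowskiEmbedding.isometry X).continuous
  have := (kuratowskiEmbedding.isometry Y).continuous
  unfold pj
  fun_prop

section

variable {α : Type*} {F : Filter α}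

theorem tendsto_mul_dist {t : α → ℝ} {x x' : α → X} (h : Tendsto t F (𝓝 0)) :
    Tendsto (fun a => t a * dist (x a) (x' a)) F (𝓝 0) := by
  obtain ⟨D, hD⟩ := Metric.isBounded_iff.1 (isCompact_univ (X := X)).isBounded
  exact h.zero_mul_isBoundedUnder_le (isBoundedUnder_of ⟨D, fun a =>
    (Real.norm_of_nonneg dist_nonneg).trans_le (hD trivial trivial)⟩)

theorem smul_near {t t' : α → ℝ} {x x' : α → X} (h : Tendsto (fun a => t a - t' a) F (𝓝 0))
    (h' : Tendsto (fun a => t a * dist (x a) (x' a)) F (𝓝 0)) : Tendsto (fun a =>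
      t a • kuratowskiEmbedding X (x a) - t' a • kuratowskiEmbedding X (x' a)) F (𝓝 0) := by
  have hj := kuratowskiEmbedding.isometry X
  obtain ⟨C, -, hC⟩ := (isCompact_range hj.continuous).isBounded.exists_pos_norm_le
  have h1 := h.zero_smul_isBoundedUnder_le (g := fun a => kuratowskiEmbedding X (x' a))
    (isBoundedUnder_of ⟨C, fun a => hC _ (mem_range_self _)⟩)
  have h2 : Tendsto (fun a => t a • (kuratowskiEmbedding X (x a) - kuratowskiEmbedding X (x' a)))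
      F (𝓝 0) := tendsto_zero_iff_norm_tendsto_zero.2
    ((tendsto_zero_iff_norm_tendsto_zero.1 h').congr fun a => by
      rw [norm_mul, norm_smul, ← dist_eq_norm, hj.dist_eq, Real.norm_of_nonneg dist_nonneg])
  simpa using (h1.add h2).congr fun a => by module

theorem pj_near {p q : α → X × Y × ℝ} (h : Tendsto (fun a => (p a).2.2 - (q a).2.2) F (𝓝 0))
    (h1 : Tendsto (fun a => (p a).2.2 * dist (p a).1 (q a).1) F (𝓝 0))
    (h2 : Tendsto (fun a => (1 - (p a).2.2) * dist (p a).2.1 (q a).2.1) F (𝓝 0)) :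
    Tendsto (fun a => dist (pj (p a)) (pj (q a))) F (𝓝 0) := by
  simp only [dist_eq_norm]
  exact tendsto_zero_iff_norm_tendsto_zero.1 (h.prodMk_nhds ((smul_near h h1).prodMk_nhds
    (smul_near (by simpa using h.neg) h2)))

theorem smul_tendsto {t : α → ℝ} {x : α → X} {t₀ : ℝ} {x₀ : X} (h : Tendsto t F (𝓝 t₀)) :
    Tendsto (fun a => t a • kuratowskiEmbedding X (x a)) F (𝓝 (t₀ • kuratowskiEmbedding X x₀)) ↔
      (t₀ ≠ 0 → Tendsto x F (𝓝 x₀)) := by
  have hj := kuratowskiEmbedding.isometry X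
  refine ⟨fun h1 h0 => hj.isEmbedding.tendsto_nhds_iff.2 ?_, fun h1 => ?_⟩
  · have := (h.inv₀ h0).smul h1
    rw [inv_smul_smul₀ h0] at this
    exact this.congr' ((h.eventually_ne h0).mono fun a ha => inv_smul_smul₀ ha _)
  · rcases eq_or_ne t₀ 0 with rfl | h0
    · simpa using smul_near (t' := fun _ => 0) (x' := x) (by simpa using h) (tendsto_mul_dist h)
    · exact h.smul ((hj.continuous.tendsto _).comp (h1 h0))

theorem pj_tendsto {p : α → X × Y × ℝ} {q : X × Y × ℝ} :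
    Tendsto (fun a => pj (p a)) F (𝓝 (pj q)) ↔ Tendsto (fun a => (p a).2.2) F (𝓝 q.2.2) ∧
      (q.2.2 ≠ 0 → Tendsto (fun a => (p a).1) F (𝓝 q.1)) ∧
      (q.2.2 ≠ 1 → Tendsto (fun a => (p a).2.1) F (𝓝 q.2.1)) := by
  rw [pj, Prod.tendsto_iff, Prod.tendsto_iff]
  exact and_congr_right fun h => (smul_tendsto h).and
    ((smul_tendsto (h.const_sub 1)).trans (by rw [sub_ne_zero, ne_comm]))

end

theorem pj_eq {p q : X × Y × ℝ} (h : pj p = pj q) :
    p.2.2 = q.2.2 ∧ (q.2.2 ≠ 0 → p.1 = q.1) ∧ (q.2.2 ≠ 1 → p.2.1 = q.2.1) := by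
  simpa using (pj_tendsto (F := pure ()) (p := fun _ => p)).1 (h ▸ tendsto_const_nhds)

variable (L : Lev Z) (L' : Lev Z')

/-- The closure of the graph of the slope. -/
def Pz : Set (X × Y × ℝ) := {p | p.2.2 ∈ Icc 0 1 ∧ p.2.2 * L.r p.1 = (1 - p.2.2) * L'.r p.2.1}

/-- The slope. -/
noncomputable def sl (w : X × Y) : ℝ := L'.r w.2 / (L.r w.1 + L'.r w.2)

/-- The compactification of the product. -/
abbrev Jn : Type := pj '' Pz L L'

/-- Its boundary. -/
def bdy : Set (Jn L L') := {w | ∃ p ∈ Pz L L', pj p = w ∧ p.2.2 * L.r p.1 = 0}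

omit [CompactSpace X] [CompactSpace Y] in
theorem sl_mem (w : X × Y) : (w.1, w.2, sl L L' w) ∈ Pz L L' := by
  have h1 := L.r_nonneg w.1
  have h2 := L'.r_nonneg w.2
  refine ⟨⟨div_nonneg h2 (by linarith), div_le_one_of_le₀ (by linarith) (by linarith)⟩, ?_⟩
  rcases eq_or_ne (L.r w.1 + L'.r w.2) 0 with h | h
  · simp [show L.r w.1 = 0 by linarith, show L'.r w.2 = 0 by linarith]
  · simp only [sl]
    field_simp
    ring

omit [CompactSpace X] [CompactSpace Y] in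
theorem sl_coe (x : ↥Zᶜ) (y : ↥Z'ᶜ) : sl L L' (x, y) = L.l x / (L.l x + L'.l y) := by
  have := L.pos x
  have := L'.pos y
  simp only [sl, Lev.r_coe]
  field_simp
  ring

/-- The map to the compactification. -/
noncomputable def jn (w : X × Y) : Jn L L' := ⟨pj (w.1, w.2, sl L L' w), _, sl_mem L L' w, rfl⟩

variable {L L'}

omit [CompactSpace X] [CompactSpace Y] in
theorem Pz.int {p : X × Y × ℝ} (hp : p ∈ Pz L L') (h : p.2.2 * L.r p.1 ≠ 0) :
    0 < p.2.2 ∧ p.2.2 < 1 ∧ p.1 ∉ Z ∧ p.2.1 ∉ Z' ∧ sl L L' (p.1, p.2.1) = p.2.2 := by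
  have h' := hp.2 ▸ h
  have h1 : p.1 ∉ Z := fun hx => h (by rw [L.r_mem hx, mul_zero])
  have h2 := L.r_pos h1
  have h3 := L'.r_nonneg p.2.1
  refine ⟨hp.1.1.lt_of_ne' (left_ne_zero_of_mul h), hp.1.2.lt_of_ne
    (sub_ne_zero.1 (left_ne_zero_of_mul h')).symm, h1,
    fun hx => h' (by rw [L'.r_mem hx, mul_zero]), ?_⟩
  rw [sl, div_eq_iff (by linarith)]
  linarith [hp.2]

theorem mem_bdy {p : X × Y × ℝ} {w : Jn L L'} (e : pj p = w) :
    w ∈ bdy L L' ↔ p.2.2 * L.r p.1 = 0 ∧ (1 - p.2.2) * L'.r p.2.1 = 0 := by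
  obtain ⟨_, q, hq, rfl⟩ := w
  have k : ∀ {p q : X × Y × ℝ}, pj p = pj q → p.2.2 * L.r p.1 = q.2.2 * L.r q.1 ∧
      (1 - p.2.2) * L'.r p.2.1 = (1 - q.2.2) * L'.r q.2.1 := fun e => by
    obtain ⟨h1, h2, h3⟩ := pj_eq e
    grind
  refine ⟨fun ⟨r, hr, e', h⟩ => ?_, fun h => ⟨q, hq, rfl, (k e).1 ▸ h.1⟩⟩
  obtain ⟨h1, h2⟩ := k (e.trans e'.symm)
  exact ⟨h1.trans h, h2.trans (hr.2 ▸ h)⟩

variable (hZ : IsClosed Z) (hZ' : IsClosed Z')
include hZ hZ'

theorem isCompact_pz : IsCompact (Pz L L') := by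
  have := L.cont_r hZ
  have := L'.cont_r hZ'
  exact ((isCompact_univ.prod (isCompact_univ.prod isCompact_Icc)).inter_right
    (isClosed_eq (by fun_prop) (by fun_prop))).of_isClosed_subset
    ((isClosed_Icc.preimage (by fun_prop)).inter (isClosed_eq (by fun_prop) (by fun_prop)))
    fun p hp => ⟨⟨trivial, trivial, hp.1⟩, hp.2⟩

theorem compact_jn : CompactSpace (Jn L L') :=
  isCompact_iff_compactSpace.1 ((isCompact_pz hZ hZ').image cont_pj)

theorem contAt_jn {x : X} {y : Y} (h : x ∉ Z) : ContinuousAt (jn L L') (x, y) := by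
  have h1 := L.cont_r hZ
  have h2 := L'.cont_r hZ'
  exact (cont_pj.continuousAt.comp (continuousAt_fst.prodMk (continuousAt_snd.prodMk
    (ContinuousAt.div (by fun_prop) (by fun_prop)
      (add_pos_of_pos_of_nonneg (L.r_pos h) (L'.r_nonneg _)).ne')))).codRestrict _

omit hZ hZ' in
theorem jn_notMem {x : X} {y : Y} (h : x ∉ Z) (h' : y ∉ Z') : jn L L' (x, y) ∉ bdy L L' := fun hb =>
  (mul_pos (div_pos (L'.r_pos h') (add_pos (L.r_pos h) (L'.r_pos h'))) (L.r_pos h)).ne'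
    ((mem_bdy rfl).1 hb).1

theorem exists_emb : ∃ e : ↥Zᶜ × ↥Z'ᶜ ≃ₜ ↥(bdy L L')ᶜ, ∀ w, (e w : Jn L L') = jn L L' (w.1, w.2) := by
  have h0 : ∀ w : ↥Zᶜ × ↥Z'ᶜ, sl L L' (w.1, w.2) ≠ 0 ∧ sl L L' (w.1, w.2) ≠ 1 := fun w => by
    obtain ⟨h1, h2, -⟩ := Pz.int (sl_mem L L' (w.1, w.2)) fun h =>
      jn_notMem w.1.2 w.2.2 ⟨_, sl_mem L L' _, rfl, h⟩
    exact ⟨h1.ne', h2.ne⟩
  refine ⟨IsEmbedding.toHomeomorphOfSurjective (f := fun w => ⟨_, jn_notMem w.1.2 w.2.2⟩)
    (IsInducing.isEmbedding (isInducing_iff_nhds.2 fun w => le_antisymm (tendsto_iff_comap.1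
      (tendsto_subtype_rng.2 ((contAt_jn hZ hZ' w.1.2).comp
        (f := fun w : ↥Zᶜ × ↥Z'ᶜ => ((w.1 : X), (w.2 : Y))) (by fun_prop)))) ?_)) ?_, fun _ => rfl⟩
  · obtain ⟨-, h1, h2⟩ := pj_tendsto.1 (tendsto_subtype_rng.1 (tendsto_subtype_rng.1
      (tendsto_comap (f := fun w : ↥Zᶜ × ↥Z'ᶜ => (⟨_, jn_notMem w.1.2 w.2.2⟩ : ↥(bdy L L')ᶜ))
        (x := 𝓝 ⟨_, jn_notMem w.1.2 w.2.2⟩))))
    exact (tendsto_subtype_rng.2 (h1 (h0 w).1)).prodMk_nhds (tendsto_subtype_rng.2 (h2 (h0 w).2))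
  · rintro ⟨⟨_, p, hp, rfl⟩, h⟩
    obtain ⟨-, -, h1, h2, h3⟩ := Pz.int hp fun e => h ⟨p, hp, rfl, e⟩
    exact ⟨(⟨_, h1⟩, ⟨_, h2⟩), Subtype.ext (Subtype.ext (congrArg (fun t => pj (_, _, t)) h3))⟩

omit [CompactSpace Y] hZ hZ' in
theorem Lev.near {α : Type*} {F : Filter α} {t s : α → ℝ} {x : α → X} {t₀ : ℝ} {x₀ : X}
    (h0 : 0 ≤ t₀) (ht : Tendsto t F (𝓝 t₀)) (hs : Tendsto s F (𝓝 0)) (hx : Tendsto x F (𝓝 x₀)) :
    Tendsto (fun a => t a * dist (x a) (L.k (x a, s a / max (t a) (s a)))) F (𝓝 0) := by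
  rcases h0.eq_or_lt with rfl | h0
  · exact tendsto_mul_dist ht
  simpa [L.zero] using ht.mul (hx.dist ((L.cont_k.tendsto _).comp (hx.prodMk_nhds
    (hs.div (ht.max hs) (lt_max_of_lt_left h0).ne'))))

omit hZ hZ' in
theorem slope_est {a b t R : ℝ} (t0 : 0 ≤ t) (t1 : t ≤ 1) (ha : 0 < a) (hb : 0 < b)
    (h1 : |a - t / R| ≤ 4) (h2 : |b - (1 - t) / R| ≤ 4) (h3 : 0 < R) (h4 : R ≤ 1 / 16) :
    |t - a / (a + b)| ≤ 8 * R := by
  rw [abs_le] at h1 h2
  have e : t / R + (1 - t) / R = 1 / R := by ring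
  have h5 : 1 ≤ 2 * R * (a + b) := by
    have : 1 / R * R = 1 := by field_simp
    nlinarith
  have h6 : t - a / (a + b) = (t * (b - (1 - t) / R) - (1 - t) * (a - t / R)) / (a + b) := by
    field_simp
    ring
  rw [h6, abs_div, abs_of_pos (add_pos ha hb), div_le_iff₀ (add_pos ha hb), abs_le]
  constructor <;> nlinarith

theorem isZSet_bdy : IsZSet (bdy L L') := by
  classical
  have := isCompact_iff_compactSpace.1 (isCompact_pz (L := L) (L' := L') hZ hZ')
  have c1 := L.cont_r hZ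
  have c2 := L.cont_k
  have c3 := L'.cont_k
  let π : Pz L L' → Jn L L' := fun p => ⟨pj p.1, _, p.2, rfl⟩
  have hπ : Continuous π := (cont_pj.comp continuous_subtype_val).subtype_mk _
  let N : (X × Y × ℝ) → ℝ → X × Y := fun p s =>
    (L.k (p.1, s / max p.2.2 s), L'.k (p.2.1, s / max (1 - p.2.2) s))
  have n1 : ∀ p s, 0 < s → (N p s).1 ∉ Z ∧ (N p s).2 ∉ Z' := fun p s h =>
    ⟨L.notMem _ _ (div_pos h (lt_max_of_lt_right h)),
      L'.notMem _ _ (div_pos h (lt_max_of_lt_right h))⟩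
  let Φ : Pz L L' × I → Jn L L' := fun q => if q.2 = 0 then π q.1 else jn L L' (N q.1 q.2)
  have s0 : ∀ s : I, s ≠ 0 → 0 < (s : ℝ) := fun s h => s.2.1.lt_of_ne' fun e => h (Subtype.ext e)
  have hΦ : Continuous Φ := continuous_iff_continuousAt.2 fun q => by
    by_cases h : q.2 = 0 ∧ q.1.1.2.2 * L.r q.1.1.1 = 0
    · have h1 : Tendsto (fun a : Pz L L' × I => (a.2 : ℝ)) (𝓝 q) (𝓝 0) :=
        (show Continuous _ by fun_prop).tendsto' _ _ (congrArg Subtype.val h.1)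
      have h2 : Tendsto (fun a : Pz L L' × I => 8 * max (a.2 : ℝ) (a.1.1.2.2 * L.r a.1.1.1))
          (𝓝 q) (𝓝 0) := (show Continuous _ by fun_prop).tendsto' _ _ (by simp [h.1, h.2])
      rw [ContinuousAt, show Φ q = π q.1 from if_pos h.1]
      refine ((hπ.comp continuous_fst).tendsto q).congr_dist (squeeze_zero' (g := fun a =>
        dist (pj a.1.1) (pj ((N a.1 a.2).1, (N a.1 a.2).2,
          if a.2 = 0 then a.1.1.2.2 else sl L L' (N a.1 a.2))))
        (Eventually.of_forall fun _ => dist_nonneg) (Eventually.of_forall fun a => ?_)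
        (pj_near (p := fun a : Pz L L' × I => a.1.1) (squeeze_zero_norm' ?_ h2)
          (Lev.near q.1.2.1.1 (Continuous.tendsto (by fun_prop) q) h1
            (Continuous.tendsto (by fun_prop) q))
          (Lev.near (sub_nonneg.2 q.1.2.1.2) (Continuous.tendsto (by fun_prop) q) h1
            (Continuous.tendsto (by fun_prop) q))))
      · by_cases ha : a.2 = 0
        · simp [Φ, ha]
        · simp only [Φ, if_neg ha]
          exact le_rfl
      · filter_upwards [h2.eventually (gt_mem_nhds (show (0 : ℝ) < 1 / 2 by norm_num))] with a ha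
        by_cases h0 : a.2 = 0
        · simpa [h0] using Or.inr (mul_nonneg a.1.2.1.1 (L.r_nonneg _))
        have h3 := s0 _ h0
        obtain ⟨m1, m2⟩ := n1 a.1 _ h3
        have h4 := L'.est (sub_nonneg.2 a.1.2.1.2) h3 (y := ⟨_, m2⟩) rfl
        rw [← a.1.2.2] at h4
        rw [if_neg h0]
        exact (congrArg (fun t => |_ - t|) (sl_coe L L' ⟨_, m1⟩ ⟨_, m2⟩)).trans_le
          (slope_est a.1.2.1.1 a.1.2.1.2 (L.pos _) (L'.pos _)
            (L.est a.1.2.1.1 h3 (y := ⟨_, m1⟩) rfl) h4 (lt_max_of_lt_left h3) (by linarith))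
    · have h1 : 0 < max q.1.1.2.2 q.2 ∧ 0 < max (1 - q.1.1.2.2) q.2 ∧ (N q.1 q.2).1 ∉ Z := by
        by_cases h0 : q.2 = 0
        · obtain ⟨h1, h2, h3, -⟩ := Pz.int q.1.2 fun e => h ⟨h0, e⟩
          exact ⟨lt_max_of_lt_left h1, lt_max_of_lt_left (sub_pos.2 h2), by simpa [N, h0, L.zero]⟩
        · exact ⟨lt_max_of_lt_right (s0 _ h0), lt_max_of_lt_right (s0 _ h0), (n1 _ _ (s0 _ h0)).1⟩
      refine ((contAt_jn hZ hZ' h1.2.2).comp (f := fun a : Pz L L' × I => N a.1 a.2)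
        (by have := h1.1.ne'; have := h1.2.1.ne'; fun_prop (disch := assumption))).congr ?_
      filter_upwards [((isClosed_eq continuous_snd continuous_const).inter (isClosed_eq
        (f := fun a : Pz L L' × I => a.1.1.2.2 * L.r a.1.1.1) (by fun_prop)
          continuous_const)).isOpen_compl.mem_nhds h] with a ha
      by_cases h0 : a.2 = 0
      · obtain ⟨-, -, -, -, h2⟩ := Pz.int a.1.2 fun e => ha ⟨h0, e⟩
        simp only [Φ, if_pos h0, Function.comp, N, h0, Icc.coe_zero, zero_div, Lev.zero]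
        exact Subtype.ext (congrArg (fun t => pj (_, _, t)) h2)
      · exact (if_neg h0).symm
  have hs : Function.Surjective π := by
    rintro ⟨_, p, hp, rfl⟩
    exact ⟨⟨p, hp⟩, rfl⟩
  choose τ hτ using hs
  have e1 : ∀ p s, Φ (τ (π p), s) = Φ (p, s) := fun p s => by
    by_cases h0 : s = 0
    · simp only [Φ, if_pos h0, hτ]
    obtain ⟨h1, h2, h3⟩ := pj_eq (congrArg Subtype.val (hτ (π p)))
    have h4 := s0 s h0
    simp only [Φ, if_neg h0, N, h1]
    congr 2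
    · rcases eq_or_ne p.1.2.2 0 with h | h
      · rw [h, max_eq_right h4.le, div_self h4.ne', L.one]
      · rw [h2 h]
    · rcases eq_or_ne p.1.2.2 1 with h | h
      · rw [h, sub_self, max_eq_right h4.le, div_self h4.ne', L'.one]
      · rw [h3 h]
  refine ⟨?_, ⟨fun w => Φ (τ w.1, w.2), (IsQuotientMap.of_surjective_continuous
    (f := Prod.map π id) (Function.Surjective.prodMap (fun w => ⟨_, hτ w⟩) Function.surjective_id)
    (hπ.prodMap continuous_id)).continuous_iff.2 (hΦ.congr fun q => (e1 _ _).symm)⟩,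
    fun w => (if_pos rfl).trans (hτ w), fun w t ht => ?_⟩
  · rw [show bdy L L' = Subtype.val ⁻¹' (pj '' (Pz L L' ∩ {p | p.2.2 * L.r p.1 = 0})) from
      Set.ext fun w => ⟨fun ⟨p, h, e, h'⟩ => ⟨p, ⟨h, h'⟩, e⟩, fun ⟨p, h, e⟩ => ⟨p, h.1, e, h.2⟩⟩]
    exact (((isCompact_pz hZ hZ').inter_right (isClosed_eq (by fun_prop) continuous_const)).image
      cont_pj).isClosed.preimage continuous_subtype_val
  · exact fun h => jn_notMem (n1 _ _ ht).1 (n1 _ _ ht).2 (mem_of_eq_of_mem (if_neg ht.ne').symm h)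

end Pool.Agent.P.MP_f05dbc_gt
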