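import Pool.Agent.P.MP_f05dbc_gt.Crs
import Pool.Agent.P.MP_f05dbc_gt.Jn

/-!
Choice of the level functions.
-/

namespace Pool.Agent.P.MP_f05dbc_gt

open Set Filter Topology Metric

section

variable {α : Type*} {F : Filter α} {s t d l l' p p' : α → ℝ}

theorem tendsto_sqrt_div (C : ℝ) : Tendsto (fun s : ℝ => (C + √s) / s) atTop (𝓝 0) := by
  have h := (tendsto_const_nhds (x := C)).div_atTop tendsto_id |>.add
    Real.tendsto_sqrt_atTop.inv_tendsto_atTop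
  rw [add_zero] at h
  exact h.congr fun s => by rw [add_div, Real.sqrt_div_self']; simp

theorem small_mul (hs : Tendsto s F atTop) {D : ℝ} (t0 : ∀ a, 0 ≤ t a) (t1 : ∀ a, t a ≤ 1)
    (d0 : ∀ a, 0 ≤ d a) (d1 : ∀ a, d a ≤ D)
    (h : ∀ ε : ℝ, 0 < ε → ∃ C : ℝ, ∀ᶠ a in F, d a < ε ∨ t a ≤ (C + √(s a)) / s a) :
    Tendsto (fun a => t a * d a) F (𝓝 0) := by
  refine Metric.tendsto_nhds.2 fun ε hε => ?_
  obtain ⟨C, hC⟩ := h ε hε
  have h1 := (((tendsto_sqrt_div C).comp hs).mul_const D).eventually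
    (gt_mem_nhds (by simpa using hε))
  filter_upwards [hC, h1] with a ha h1
  rw [Real.dist_eq, sub_zero, abs_of_nonneg (mul_nonneg (t0 a) (d0 a))]
  rcases ha with ha | ha
  · exact (mul_le_of_le_one_left (d0 a) (t1 a)).trans_lt ha
  · exact (mul_le_mul ha (d1 a) (d0 a) ((t0 a).trans ha)).trans_lt h1

theorem slope_near (hs : Tendsto (fun a => l a + p a) F atTop) (l0 : ∀ a, 0 < l' a)
    (p0 : ∀ a, 0 < p' a) {C : ℝ} (h1 : ∀ᶠ a in F, |l' a - l a| ≤ C + √(l a + p a))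
    (h2 : ∀ᶠ a in F, |p' a - p a| ≤ C) : Tendsto (fun a => l' a + p' a) F atTop ∧
      Tendsto (fun a => l a / (l a + p a) - l' a / (l' a + p' a)) F (𝓝 0) := by
  have h0 := hs.eventually_gt_atTop 0
  have h3 : ∀ {u : α → ℝ}, (∀ᶠ a in F, |u a| ≤ C + √(l a + p a)) →
      Tendsto (fun a => u a / (l a + p a)) F (𝓝 0) := fun h =>
    squeeze_zero_norm' ((h.and h0).mono fun a ha => by
      rw [norm_div, Real.norm_of_nonneg ha.2.le]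
      exact div_le_div_of_nonneg_right ha.1 ha.2.le) ((tendsto_sqrt_div C).comp hs)
  have h4 := h3 h1
  have h5 := h4.add (h3 (h2.mono fun a ha => ha.trans (le_add_of_nonneg_right (Real.sqrt_nonneg _))))
  refine ⟨(hs.atTop_mul_pos (show (0 : ℝ) < 0 + 0 + 1 by norm_num) (h5.add_const 1)).congr'
    (h0.mono fun a ha => by field_simp; ring), ?_⟩
  rw [add_zero] at h5
  have h6 := (h5.zero_mul_isBoundedUnder_le (g := fun a => l' a / (l' a + p' a))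
    (isBoundedUnder_of ⟨1, fun a => ?_⟩)).sub h4
  · rw [sub_zero] at h6
    refine h6.congr' (h0.mono fun a ha => ?_)
    have := add_pos (l0 a) (p0 a)
    field_simp
    ring
  · have := add_pos (l0 a) (p0 a)
    exact (Real.norm_of_nonneg (div_pos (l0 a) this).le).trans_le
      ((div_le_one this).2 (by linarith [p0 a]))

end

variable {X Y : Type} [MetricSpace X] [CompactSpace X] [MetricSpace Y] [CompactSpace Y]
  {Z : Set X} {Z' : Set Y}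

theorem exists_lev_cf [ContractibleSpace X] (hZ : IsZSet Z) {ι : Type*} [Countable ι]
    {κ : Type*} (i : κ → ι) (x x' : κ → ↥Zᶜ) (w δ : κ → ℝ) (w0 : ∀ c, 0 ≤ w c)
    (h : ∀ (n : ι) (r ε : ℝ) (K : Set ↥Zᶜ), 0 < ε → IsCompact K → ∃ K', IsCompact K' ∧
      ∀ c, i c = n → w c ≤ r → x c ∈ K ∨ x' c ∈ K ∨ ε ≤ δ c → x c ∈ K' ∧ x' c ∈ K') :
    ∃ L : Lev Z, ∀ n, ∃ M : ℝ, ∀ c, i c = n → |L.l (x' c) - L.l (x c)| ≤ M + w c ∧
      ∀ j : ℕ, δ c < 1 / (j + 1) ∨ L.l (x c) ≤ M + j + w c := by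
  obtain ⟨e, he⟩ := Countable.exists_injective_nat ι
  obtain ⟨L, K, h1, h2⟩ := exists_lev hZ (P := fun j K K' => ∀ c, e (i c) ≤ j → w c ≤ j →
      x c ∈ K ∨ x' c ∈ K ∨ 1 / (j + 1 : ℝ) ≤ δ c → x c ∈ K' ∧ x' c ∈ K') fun j K hK => by
    choose K' h1 h2 using fun n => h n j (1 / (j + 1)) K (by positivity) hK
    exact ⟨_, ((finite_le_nat j).preimage he.injOn).isCompact_biUnion fun n _ => h1 n,
      fun K'' hK'' c h3 h4 h5 => (h2 _ c rfl h4 h5).imp (fun h => hK'' (mem_biUnion h3 h))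
        fun h => hK'' (mem_biUnion h3 h)⟩
  refine ⟨L, fun n => ⟨e n + 3, ?_⟩⟩
  rintro c rfl
  have h3 : ∀ (j : ℕ), x c ∈ K (j + e (i c) + ⌈w c⌉₊) ∨ x' c ∈ K (j + e (i c) + ⌈w c⌉₊) ∨
      1 / (j + 1 : ℝ) ≤ δ c → L.l (x c) ≤ e (i c) + 3 + j + w c ∧
        L.l (x' c) ≤ e (i c) + 3 + j + w c := fun j hj => by
    have h4 := Nat.le_ceil (w c)
    have h5 := Nat.ceil_lt_add_one (w0 c)
    have h6 : (0 : ℝ) ≤ e (i c) := Nat.cast_nonneg _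
    have h7 : (0 : ℝ) ≤ j := Nat.cast_nonneg _
    obtain ⟨h8, h9⟩ := h1 (j + e (i c) + ⌈w c⌉₊) c (by omega) (by push_cast; linarith)
      (hj.imp_right fun h => h.imp_right fun h => le_trans (one_div_le_one_div_of_le
        (by linarith) (by push_cast; linarith [w0 c])) h)
    have h10 := (h2 _ _).1 h8
    have h11 := (h2 _ _).1 h9
    push_cast at h10 h11
    constructor <;> linarith
  have h4 : ∀ y, y ∈ K (⌊L.l y⌋₊ + e (i c) + ⌈w c⌉₊) := fun y => not_not.1 fun hn => by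
    have := (h2 _ _).2 hn
    push_cast at this
    linarith [Nat.lt_floor_add_one (L.l y), Nat.cast_nonneg (α := ℝ) (e (i c)),
      Nat.cast_nonneg (α := ℝ) ⌈w c⌉₊]
  refine ⟨abs_le.2 ⟨?_, ?_⟩, fun j => (lt_or_ge _ _).imp_right fun h => (h3 j (.inr (.inr h))).1⟩
  · linarith [(h3 _ (.inr (.inl (h4 _)))).1, Nat.floor_le (L.pos (x' c)).le]
  · linarith [(h3 _ (.inl (h4 _))).2, Nat.floor_le (L.pos (x c)).le]

variable {G : Type*} [Group G] {N : Subgroup G} {c : N →* (↥Zᶜ ≃ₜ ↥Zᶜ)}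
  {b : G →* (↥Z'ᶜ ≃ₜ ↥Z'ᶜ)} {ν : G → N}

/-- The metric form of nullity. -/
def Nul {Γ : Type*} [Group Γ] (𝓘 : Set Γ → Prop) (c : Γ →* (↥Zᶜ ≃ₜ ↥Zᶜ)) : Prop :=
  ∀ C : Set ↥Zᶜ, IsCompact C → ∀ ε : ℝ, 0 < ε →
    𝓘 {g | ∃ x ∈ C, ∃ x' ∈ C, ε ≤ dist (c g x : X) (c g x')}

theorem exists_lev_base [Countable G] [ContractibleSpace Y] (hZ' : IsZSet Z') (hb : Prp N b)
    (hb' : Bdd N b) (K : ℕ → Set ↥Z'ᶜ) (hK : ∀ k, IsCompact (K k)) : ∃ L : Lev Z', ∀ k g₀,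
      ∃ M : ℝ, ∀ g y y', b g⁻¹ y ∈ K k → b (g₀ * g)⁻¹ y' ∈ K k → |L.l y' - L.l y| ≤ M := by
  obtain ⟨L, h⟩ := exists_lev_cf hZ' (κ := {q : (ℕ × G) × G × ↥Z'ᶜ × ↥Z'ᶜ //
      b q.2.1⁻¹ q.2.2.1 ∈ K q.1.1 ∧ b (q.1.2 * q.2.1)⁻¹ q.2.2.2 ∈ K q.1.1}) (fun q => q.1.1)
    (fun q => q.1.2.2.1) (fun q => q.1.2.2.2) (fun _ => 0) (fun _ => 0) (fun _ => le_rfl)
    fun n _ ε C hε hC => by
      obtain ⟨C', h1, h2⟩ := hb'.orb (hb _ _ (hK n.1) (hC.union (hC.image (b n.2⁻¹).continuous)))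
        (hK n.1)
      refine ⟨_, h1.union (h1.image (b n.2).continuous), ?_⟩
      rintro ⟨⟨_, g, y, y'⟩, h3, h4⟩ rfl - h5
      have e : ∀ g₀, b g (b (g₀ * g)⁻¹ y') = b g₀⁻¹ y' := fun g₀ => by
        rw [← act_mul, mul_inv_rev, mul_inv_cancel_left]
      have h6 := h2 g (h5.elim (fun h => ⟨y, ⟨_, h3, act_inv' _ _ _⟩, .inl h⟩) fun h =>
        ⟨_, ⟨_, h4, e _⟩, .inr ⟨_, h.resolve_right hε.not_ge, rfl⟩⟩)
      exact ⟨.inl (mem_of_eq_of_mem (act_inv' b g y).symm (h6 _ h3)),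
        .inr ⟨_, mem_of_eq_of_mem (e _).symm (h6 _ h4), act_inv' _ _ _⟩⟩
  exact ⟨L, fun k g₀ => (h (k, g₀)).imp fun M hM g y y' h1 h2 => by
    simpa using (hM ⟨((k, g₀), g, y, y'), h1, h2⟩ rfl).1⟩

/-- The filter of configurations going to infinity. -/
def cfg (S : G → Set (↥Zᶜ × ↥Z'ᶜ)) (g₀ : G) : Filter (G × (↥Zᶜ × ↥Z'ᶜ) × ↥Zᶜ × ↥Z'ᶜ) :=
  comap (fun q => q.2.1) (cocompact _) ⊓ 𝓟 {q | q.2.1 ∈ S q.1 ∧ q.2.2 ∈ S (g₀ * q.1)}

/-- The estimates provided by a good choice of the levels. -/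
def Key (L : Lev Z) (L' : Lev Z') (c : N →* (↥Zᶜ ≃ₜ ↥Zᶜ)) (b : G →* (↥Z'ᶜ ≃ₜ ↥Z'ᶜ)) (x₀ : ↥Zᶜ)
    (S : G → Set (↥Zᶜ × ↥Z'ᶜ)) : Prop :=
  ∀ g₀ : G, ∃ m m' : G → N, (∀ g, g₀ * m g = m' g * g₀) ∧
    Tendsto (fun q => sl L L' (q.2.1.1, q.2.1.2) - sl L L' (q.2.2.1, q.2.2.2)) (cfg S g₀) (𝓝 0) ∧
    Tendsto (fun q => sl L L' (q.2.1.1, q.2.1.2) * max (dist (q.2.1.1 : X) (c (m q.1) x₀))
      (dist (q.2.2.1 : X) (c (m' q.1) x₀))) (cfg S g₀) (𝓝 0) ∧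
    Tendsto (fun q => (1 - sl L L' (q.2.1.1, q.2.1.2)) * dist (q.2.1.2 : Y) (b g₀⁻¹ q.2.2.2))
      (cfg S g₀) (𝓝 0)

omit [CompactSpace X] [CompactSpace Y] in
theorem tendsto_lev (L : Lev Z) (L' : Lev Z') :
    Tendsto (fun w : ↥Zᶜ × ↥Z'ᶜ => L.l w.1 + L'.l w.2) (cocompact _) atTop :=
  tendsto_atTop.2 fun t => mem_of_superset ((L.compact t).prod (L'.compact t)).compl_mem_cocompact
    fun w hw => not_lt.1 fun h : L.l w.1 + L'.l w.2 < t =>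
      hw ⟨show L.l w.1 ≤ t by linarith [L'.pos w.2], show L'.l w.2 ≤ t by linarith [L.pos w.1]⟩

theorem exists_key [Countable G] [ContractibleSpace X] [ContractibleSpace Y] (hZ : IsZSet Z)
    (hZ' : IsZSet Z') (hN : Cms N) (hν : Pb N cofinite fun g r => r = (ν g : G)⁻¹ * g)
    (hc : Prp₀ c) (hc' : Nul Set.Finite c) (hb : Prp N b) (hb' : Bdd N b)
    (hb'' : Nul (FinCos N) b) (x₀ : ↥Zᶜ) (S : ℕ → G → Set (↥Zᶜ × ↥Z'ᶜ))
    (hS : ∀ k, BP ν c b (S k)) : ∃ L L', ∀ k, Key L L' c b x₀ (S k) := by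
  choose K k1 k2 using fun k => (hS k).1
  obtain ⟨L', hL'⟩ := exists_lev_base hZ' hb hb' K k1
  choose F f1 m m' f2 f3 using exists_mu hN
  have hv := (Subtype.val_injective (p := (· ∈ N))).tendsto_cofinite
  obtain ⟨L, hL⟩ := exists_lev_cf hZ (κ := {q : (ℕ × G) × G × (↥Zᶜ × ↥Z'ᶜ) × ↥Zᶜ × ↥Z'ᶜ //
      q.2.2.1 ∈ S q.1.1 q.2.1 ∧ q.2.2.2 ∈ S q.1.1 (q.1.2 * q.2.1)}) (fun q => q.1.1)
    (fun q => q.1.2.2.1.1) (fun q => q.1.2.2.2.1) (fun q => √(L'.l q.1.2.2.1.2))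
    (fun q => max (dist (q.1.2.2.1.1 : X) (c (m q.1.1.2 (ν q.1.2.1)) x₀))
      (dist (q.1.2.2.2.1 : X) (c (m' q.1.1.2 (ν q.1.2.1)) x₀))) (fun _ => Real.sqrt_nonneg _)
    fun ⟨k, g₀⟩ r ε C hε hC => by
      have h1 := ((pb_const (f1 g₀).compl_mem_cofinite).inv.comap hv).image2 (hS k).2
        fun s => tendsto_act c s
      have h2 := (((hν.left g₀).mul ((hν.inv.mul (pb_const (f1 g₀).compl_mem_cofinite).inv).comap
        (mul_left_injective g₀).tendsto_cofinite)).comap hv).image2 ((hS k).2.left g₀)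
        fun s => tendsto_act c s
      obtain ⟨C₁, h3, h4⟩ := mem_cocompact.1 ((h1.or h2).fin (hb _ _ (k1 k) (L'.compact (r ^ 2))))
      have h5 := (hc _ _ (h3.insert x₀) hC).union (hc' _ (h3.insert x₀) ε hε)
      obtain ⟨C₂, h6, h7⟩ := exists_orb c ((h5.union ((h5.image fun n : N => g₀⁻¹ * n * g₀).preimage
        Subtype.val_injective.injOn)).union ((h5.image fun n : N => g₀ * n * g₀⁻¹).preimage
        Subtype.val_injective.injOn)) h3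
      refine ⟨C₂, h6, ?_⟩
      rintro ⟨⟨_, g, w, w'⟩, i1, i2⟩ ⟨⟩ i3 i4
      have i5 := fun x hx => not_not.1 fun hn => h4 (a := x) hn g ⟨w.2, ⟨_, k2 k g w i1,
        act_inv' _ _ _⟩, (Real.sqrt_le_iff.1 i3).2⟩ hx
      have i6 := i5 (c (m g₀ (ν g))⁻¹ w.1) (.inl ⟨(ν g)⁻¹ * m g₀ (ν g), by simpa using f3 g₀ (ν g),
        w.2, by rwa [act_mul, act_inv', act_inv']⟩)
      have i7 := i5 (c (m' g₀ (ν g))⁻¹ w'.1) (.inr ⟨(ν (g₀ * g))⁻¹ * m' g₀ (ν g),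
        ⟨_, rfl, g⁻¹ * ν g, by simp, by simpa [mul_assoc, ← f2] using f3 g₀ (ν g)⟩,
        w'.2, by rwa [act_mul, act_inv', act_inv']⟩)
      have i8 : ∀ (n : N) (x : ↥Zᶜ), c n⁻¹ x ∈ C₁ → x ∈ C ∨ ε ≤ dist (x : X) (c n x₀) →
          n ∈ {g | (c g '' insert x₀ C₁ ∩ C).Nonempty} ∪ {g | ∃ x ∈ insert x₀ C₁,
            ∃ x' ∈ insert x₀ C₁, ε ≤ dist (c g x : X) (c g x')} := fun n x h h' =>
        h'.imp (fun h' => ⟨x, ⟨_, .inr h, act_inv' _ _ _⟩, h'⟩)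
          fun h' => ⟨_, .inr h, x₀, .inl rfl, by rwa [act_inv']⟩
      have i9 := (show (w.1 ∈ C ∨ _) ∨ w'.1 ∈ C ∨ _ from i4.elim (fun h => .inl (.inl h))
        fun h => h.elim (fun h => .inr (.inl h)) fun h => (le_max_iff.1 h).imp .inr .inr).imp
        (i8 _ _ i6) (i8 _ _ i7)
      exact ⟨act_inv' c _ w.1 ▸ h7 _ (i9.elim (fun h => .inl (.inl h)) fun h => .inl (.inr
        ⟨_, h, by simp [mul_assoc, ← f2]⟩)) _ i6, act_inv' c _ w'.1 ▸ h7 _ (i9.elim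
          (fun h => .inr ⟨_, h, by simp [f2]⟩) fun h => .inl (.inl h)) _ i7⟩
  refine ⟨L, L', fun k g₀ => ⟨_, _, fun g => f2 g₀ (ν g), ?_⟩⟩
  obtain ⟨M, hM⟩ := hL (k, g₀)
  obtain ⟨M', hM'⟩ := hL' k g₀
  obtain ⟨D, hD⟩ := Metric.isBounded_iff.1 (isCompact_univ (X := X)).isBounded
  obtain ⟨D', hD'⟩ := Metric.isBounded_iff.1 (isCompact_univ (X := Y)).isBounded
  have hs : Tendsto (fun q => L.l q.2.1.1 + L'.l q.2.1.2) (cfg (S k) g₀) atTop :=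
    (tendsto_lev L L').comp (tendsto_comap.mono_left inf_le_left)
  have he : ∀ᶠ q in cfg (S k) g₀, q.2.1 ∈ S k q.1 ∧ q.2.2 ∈ S k (g₀ * q.1) :=
    mem_inf_of_right (mem_principal_self _)
  have s0 : ∀ w : ↥Zᶜ × ↥Z'ᶜ, √(L'.l w.2) ≤ √(L.l w.1 + L'.l w.2) := fun w =>
    Real.sqrt_le_sqrt (by linarith [L.pos w.1])
  have s1 := fun w : ↥Zᶜ × ↥Z'ᶜ => (add_pos (L.pos w.1) (L'.pos w.2)).le
  refine ⟨?_, small_mul hs (fun q => (sl_mem L L' _).1.1) (fun q => (sl_mem L L' _).1.2)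
    (fun q => le_max_of_le_left dist_nonneg)
    (fun q => max_le (hD trivial trivial) (hD trivial trivial)) fun ε hε => ?_,
    small_mul hs (fun q => sub_nonneg.2 (sl_mem L L' _).1.2)
    (fun q => sub_le_self _ (sl_mem L L' _).1.1) (fun q => dist_nonneg)
    (fun q => hD' trivial trivial) fun ε hε => ?_⟩
  · simp only [sl_coe]
    exact (slope_near hs (fun q => L.pos _) (fun q => L'.pos _) (C := max M M')
      (he.mono fun q hq => (hM ⟨((k, g₀), q), hq⟩ rfl).1.trans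
        (add_le_add (le_max_left _ _) (s0 _)))
      (he.mono fun q hq => (hM' _ _ _ (k2 k _ _ hq.1) (k2 k _ _ hq.2)).trans (le_max_right _ _))).2
  · obtain ⟨j, hj⟩ := exists_nat_one_div_lt hε
    refine ⟨M + j, he.mono fun q hq => ((hM ⟨((k, g₀), q), hq⟩ rfl).2 j).imp (·.trans hj)
      fun h => (sl_coe L L' _ _).trans_le (div_le_div_of_nonneg_right
        (h.trans (add_le_add le_rfl (s0 _))) (s1 _))⟩
  · obtain ⟨C, h1, h2⟩ := hb'.orb (hb'' _ (k1 k) ε hε) (k1 k)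
    obtain ⟨B, hB⟩ := h1.bddAbove_image L'.cont_l.continuousOn
    refine ⟨B, he.mono fun q hq => (lt_or_ge _ _).imp_right fun h => ?_⟩
    have h3 := hB ⟨_, h2 q.1 ⟨_, k2 k _ _ hq.1, _, k2 k _ _ hq.2, by
      rwa [act_inv', ← act_mul, mul_inv_rev, mul_inv_cancel_left]⟩ _ (k2 k _ _ hq.1), rfl⟩
    rw [act_inv'] at h3
    rw [sl_coe, one_sub_div (add_pos (L.pos _) (L'.pos _)).ne', add_sub_cancel_left]
    exact div_le_div_of_nonneg_right (h3.trans (le_add_of_nonneg_right (Real.sqrt_nonneg _))) (s1 _)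

end Pool.Agent.P.MP_f05dbc_gt
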