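import Pool.Agent.P.MP_f05dbc_gt.Bic

/-!
Boundary swapping.
-/

namespace Pool.Agent.P.MP_f05dbc_gt

open Set Filter Topology Metric unitInterval

variable {E X : Type} [TopologicalSpace E] [MetricSpace X] [CompactSpace X] {Z : Set X}

theorem IsZSet.isER (hZ : IsZSet Z) (e : E ≃ₜ ↥Zᶜ) (h1 : FinDim E) [ContractibleSpace E]
    (h2 : LocallyContractibleSpace E) : IsER X := by
  obtain ⟨-, α, a0, a1⟩ := hZ
  have hα := α.continuous
  let g : ∀ s : I, 0 < s → X → E := fun s hs x => e.symm ⟨α (x, s), a1 x s hs⟩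
  have g1 : ∀ s hs, Continuous (g s hs) := fun s hs =>
    e.symm.continuous.comp (Continuous.subtype_mk (by fun_prop) _)
  have g2 : ∀ s hs x, (e (g s hs x) : X) = α (x, s) := fun s hs x =>
    congrArg Subtype.val (e.apply_symm_apply _)
  have := nhdsGT_neBot_of_exists_gt (a := (0 : I)) ⟨1, zero_lt_one⟩
  refine ⟨inferInstance, inferInstance, finDim_of h1 (j := fun x => e x) (by fun_prop)
    fun ε hε => ?_, ?_, fun q U hU => ?_⟩
  · have h3 : ∀ᶠ t : I in 𝓝 0, ∀ x ∈ univ, dist (α (x, t)) x < ε :=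
      isCompact_univ.eventually_forall_of_forall_eventually fun x _ =>
        ((hα.comp continuous_swap).dist continuous_snd).continuousAt.eventually
          (gt_mem_nhds (by simpa [a0] using hε))
    obtain ⟨t, ht, h4⟩ := ((h3.filter_mono (nhdsWithin_le_nhds (s := Ioi 0))).and
      self_mem_nhdsWithin).exists
    exact ⟨_, g1 t h4, fun x => (g2 t h4 x).symm ▸ ht x trivial⟩
  · obtain ⟨c, hc⟩ := ((id_nullhomotopic E).comp_left ⟨_, g1 1 zero_lt_one⟩).comp_right
      (⟨fun x => e x, by fun_prop⟩ : C(E, X))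
    refine (contractible_iff_id_nullhomotopic X).2 ⟨c, ContinuousMap.Homotopic.trans ?_ hc⟩
    exact ⟨⟨⟨fun p => α p.swap, by fun_prop⟩, a0, fun x => (g2 1 zero_lt_one x).symm⟩⟩
  · obtain ⟨V, hV, W, hW, h3⟩ := mem_nhds_prod_iff.1
      ((hα.tendsto' (q, 0) q (a0 q)).eventually (eventually_mem_nhds_iff.2 hU))
    obtain ⟨s, s0, s1⟩ := (nhdsGT_basis_of_exists_gt ⟨1, zero_lt_one⟩ |>.mem_iff.1
      (mem_nhdsWithin_of_mem_nhds hW : W ∈ 𝓝[>] 0))
    obtain ⟨s, s0, s2⟩ := exists_between s0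
    have h4 : ∀ x ∈ V, ∀ t : I, U ∈ 𝓝 (α (x, t * s)) := fun x hx t =>
      h3 (mk_mem_prod hx ((unitInterval.nonneg' (t := t * s)).eq_or_lt.elim
        (fun e => e ▸ mem_of_mem_nhds hW) fun h => s1 ⟨h, unitInterval.mul_le_right.trans_lt s2⟩))
    obtain ⟨V', h5, hV', hn⟩ := h2 (g s s0 q) {x | (e x : X) ∈ U}
      ((show Continuous fun x => (e x : X) by fun_prop).continuousAt.preimage_mem_nhds
        (by simpa [g2] using h4 q (mem_of_mem_nhds hV) 1))
    obtain ⟨k, c, k1, k2, k3, k4, k5⟩ := of_null hn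
    refine ⟨V ∩ g s s0 ⁻¹' V', fun x hx => by simpa [a0] using mem_of_mem_nhds (h4 x hx.1 0),
      inter_mem hV ((g1 s s0).continuousAt.preimage_mem_nhds hV'), null_of _
      (fun p => if (p.1 : ℝ) ≤ 1 / 2 then α (p.2, projIcc 0 1 zero_le_one (2 * p.1 : ℝ) * s) else
        e (k (projIcc 0 1 zero_le_one (2 * p.1 - 1 : ℝ), ⟨g s s0 p.2, p.2.2.2⟩)))
      (Continuous.if_le (by fun_prop) (continuous_subtype_val.comp (e.continuous.comp (k1.comp
        (Continuous.prodMk (by fun_prop) (((g1 s s0).comp (by fun_prop)).subtype_mk _)))))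
        (by fun_prop) continuous_const fun p hp => ?_) (fun x => by simp [a0]) k3
      (fun x => ?_) fun p => ?_⟩
    · rw [hp, projIcc_of_right_le _ (by norm_num), projIcc_of_le_left _ (by norm_num)]
      exact (congrArg (fun t => α (_, t)) (one_mul s)).trans
        ((g2 s s0 _).symm.trans (congrArg (fun x => (e x : X)) (k2 ⟨_, p.2.2.2⟩).symm))
    · rw [if_neg (by norm_num), projIcc_of_right_le _ (by norm_num)]
      exact congrArg (fun x => (e x : X)) (k4 _)
    · split_ifs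
      exacts [mem_of_mem_nhds (h4 _ p.2.2.1 _), k5 _]

theorem exists_cpt [T3Space E] [SecondCountableTopology E] {m : E → ℝ} (hm : Continuous m)
    (m0 : ∀ x, 0 ≤ m x) (m1 : Tendsto m (cocompact E) atTop) {f : E → X} (hf : Continuous f)
    (hZ : IsClosed Z) (f0 : ∀ x, f x ∉ Z) (f1 : Tendsto f (cocompact E) (𝓝ˢ Z)) :
    ∃ (Y : Type) (_ : MetricSpace Y) (_ : CompactSpace Y) (φ : Y → X) (τ : Y → ℝ)
      (e : E ≃ₜ ↥(φ ⁻¹' Z)ᶜ), Continuous φ ∧ Continuous τ ∧
      (∀ y, 0 < τ y ∧ φ y ∉ Z ∨ τ y = 0 ∧ φ y ∈ Z) ∧ InjOn φ (φ ⁻¹' Z) ∧ ∀ x, φ (e x) = f x := by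
  obtain ⟨κ, hκ⟩ := TopologicalSpace.exists_embedding_l_infty E
  have k1 := hκ.continuous
  let μ : E → ℝ := fun x => ((1 + m x) * (1 + ‖κ x‖))⁻¹
  have μ0 : ∀ x, 0 < μ x := fun x => by have := m0 x; positivity
  have μ1 : Continuous μ := Continuous.inv₀ (by fun_prop) fun x => by have := m0 x; positivity
  have h0 : Tendsto (fun x => (1 + m x)⁻¹) (cocompact E) (𝓝 0) :=
    (tendsto_atTop_add_const_left _ _ m1).inv_tendsto_atTop
  have h1 : Tendsto (fun x => (μ x, μ x • κ x)) (cocompact E) (𝓝 0) :=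
    squeeze_zero_norm (fun x => by
      have := m0 x
      have := norm_nonneg (κ x)
      rw [Prod.norm_def, norm_smul, Real.norm_of_nonneg (μ0 x).le]
      simp only [μ, mul_inv, mul_assoc]
      refine max_le (mul_le_of_le_one_right (by positivity) (inv_le_one_of_one_le₀ (by linarith)))
        (mul_le_of_le_one_right (by positivity) (inv_mul_le_one_of_le₀ (by linarith)
          (by positivity)))) h0
  let i : E → _ := fun x => ((μ x, μ x • κ x), f x)
  have i1 : Continuous i := by fun_prop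
  have i2 : IsEmbedding i := IsInducing.isEmbedding (isInducing_iff_nhds.2 fun x =>
    le_antisymm (tendsto_iff_comap.1 (i1.tendsto x)) (hκ.tendsto_nhds_iff.2 (by
      have h := (continuous_fst.tendsto _).comp (tendsto_comap (f := i) (x := 𝓝 (i x)))
      have := (((continuous_fst.tendsto _).comp h).inv₀ (μ0 x).ne').smul
        ((continuous_snd.tendsto _).comp h)
      simpa [i, Function.comp_def, (μ0 _).ne'] using this) :
        Tendsto id (comap i (𝓝 (i x))) (𝓝 x)))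
  have key : ∀ p ∈ closure (range i), p ∈ range i ∨ p.1 = 0 ∧ p.2 ∈ Z := fun p hp => by
    refine or_iff_not_imp_left.2 fun hn => ?_
    have h2 : (comap i (𝓝 p)).NeBot := comap_neBot fun U hU =>
      (mem_closure_iff_nhds.1 hp U hU).elim fun _ ⟨h, x, e⟩ => ⟨x, e ▸ h⟩
    have h3 : comap i (𝓝 p) ≤ cocompact E := hasBasis_cocompact.ge_iff.2 fun K hK =>
      mem_comap.2 ⟨_, (hK.image i1).isClosed.isOpen_compl.mem_nhds
        fun h => hn (image_subset_range _ _ h), fun x hx h => hx ⟨x, h, rfl⟩⟩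
    refine ⟨tendsto_nhds_unique ((continuous_fst.tendsto _).comp tendsto_comap) (h1.mono_left h3),
      not_not.1 fun h => ?_⟩
    exact (f1.mono_left h3).not_tendsto (disjoint_nhdsSet_nhds.2 (by rwa [hZ.closure_eq]))
      ((continuous_snd.tendsto _).comp (tendsto_comap (f := i)))
  have h4 : IsCompact (closure (range i)) :=
    ((h1.isCompact_insert_range_of_cocompact (by fun_prop)).prod isCompact_univ).closure_of_subset
      (range_subset_iff.2 fun x => ⟨Or.inr ⟨x, rfl⟩, trivial⟩)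
  refine ⟨closure (range i), inferInstance, isCompact_iff_compactSpace.1 h4, fun y => y.1.2,
    fun y => y.1.1.1, IsEmbedding.toHomeomorphOfSurjective
      (f := fun x => ⟨⟨i x, subset_closure ⟨x, rfl⟩⟩, f0 x⟩) (IsEmbedding.subtypeVal.of_comp_iff.1
        (IsEmbedding.subtypeVal.of_comp_iff.1 i2))
      fun y => ?_, by fun_prop, by fun_prop, fun y => ?_, fun y hy y' hy' e => ?_, fun _ => rfl⟩
  · obtain ⟨x, hx⟩ := (key _ y.1.2).resolve_right fun h => y.2 h.2
    exact ⟨x, Subtype.ext (Subtype.ext hx)⟩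
  · rcases key _ y.2 with ⟨x, hx⟩ | h
    · simp only [← hx]
      exact Or.inl ⟨μ0 x, f0 x⟩
    · exact Or.inr ⟨congrArg Prod.fst h.1, h.2⟩
  · have h : ∀ y : closure (range i), y.1.2 ∈ Z → y.1.1 = 0 := fun y hy =>
      ((key _ y.2).resolve_left fun ⟨x, hx⟩ => f0 x (hx ▸ hy :)).1
    exact Subtype.ext (Prod.ext ((h y hy).trans (h y' hy').symm) e)

section

variable {Y : Type} [MetricSpace Y] [CompactSpace Y] {φ : Y → X} (hφ : Continuous φ)
  (hZ : IsClosed Z) (hi : InjOn φ (φ ⁻¹' Z)) {α : Type*} {F : Filter α} {y y' : α → Y}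
include hφ hZ hi
omit [CompactSpace X]

theorem near_of (h : Tendsto (fun a => φ (y a)) F (𝓝ˢ Z))
    (h' : Tendsto (fun a => dist (φ (y a)) (φ (y' a))) F (𝓝 0)) :
    Tendsto (fun a => dist (y a) (y' a)) F (𝓝 0) := by
  refine (tendsto_iff_ultrafilter _ _ _).2 fun U hU => ?_
  obtain ⟨q, -, h1⟩ := isCompact_univ.ultrafilter_le_nhds (U.map y) (by simp)
  obtain ⟨q', -, h2⟩ := isCompact_univ.ultrafilter_le_nhds (U.map y') (by simp)
  have h3 := (hφ.tendsto _).comp h1
  have h4 := dist_eq_zero.1 (tendsto_nhds_unique (h3.dist ((hφ.tendsto _).comp h2))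
    (h'.mono_left hU))
  have h5 : φ q ∈ Z := not_not.1 fun hn => (h.mono_left hU).not_tendsto
    (disjoint_nhdsSet_nhds.2 (by rwa [hZ.closure_eq])) h3
  simpa [hi h5 (show φ q' ∈ Z from h4 ▸ h5) h4] using Tendsto.dist h1 h2

theorem tendsto_of {q : Y} (hq : φ q ∈ Z) (h : Tendsto (fun a => φ (y a)) F (𝓝 (φ q))) :
    Tendsto y F (𝓝 q) :=
  tendsto_iff_dist_tendsto_zero.2 (near_of hφ hZ hi (h.mono_right (nhds_le_nhdsSet hq))
    (tendsto_iff_dist_tendsto_zero.1 h))

theorem exists_tendsto [F.NeBot] {w : X} (hw : w ∈ Z) (h : Tendsto (fun a => φ (y a)) F (𝓝 w)) :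
    ∃ q, Tendsto y F (𝓝 q) := by
  obtain ⟨q, -, h1⟩ := isCompact_univ.ultrafilter_le_nhds ((Ultrafilter.of F).map y) (by simp)
  obtain rfl := tendsto_nhds_unique ((hφ.tendsto _).comp h1) (h.mono_left (Ultrafilter.of_le F))
  exact ⟨q, tendsto_of hφ hZ hi hw h⟩

end

theorem swap [T3Space E] [SecondCountableTopology E] [ContractibleSpace E] (h1 : FinDim E)
    (h2 : LocallyContractibleSpace E) {m : E → ℝ} (hm : Continuous m)
    (m0 : ∀ x, 0 ≤ m x) (m1 : Tendsto m (cocompact E) atTop) (hZ : IsZSet Z) {f : E → X}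
    (hf : Continuous f) (f0 : ∀ x, f x ∉ Z) (f1 : Tendsto f (cocompact E) (𝓝ˢ Z))
    {h : ↥Zᶜ → E} (hh : Continuous h) {H : I × E → E} (hH : Continuous H)
    (H0 : ∀ x, H (0, x) = x ∧ H (1, x) = h ⟨f x, f0 x⟩)
    (s1 : ∀ ε : ℝ, 0 < ε → ∀ᶠ x in cocompact E, ∀ t, dist (f (H (t, x))) (f x) < ε)
    (s2 : ∀ ε : ℝ, 0 < ε → ∀ᶠ w in cocompact ↥Zᶜ, dist (f (h w)) w < ε) :
    ∃ (Y : Type) (_ : MetricSpace Y) (_ : CompactSpace Y) (φ : Y → X) (e : E ≃ₜ ↥(φ ⁻¹' Z)ᶜ),
      IsER Y ∧ IsZSet (φ ⁻¹' Z) ∧ Continuous φ ∧ InjOn φ (φ ⁻¹' Z) ∧ ∀ x, φ (e x) = f x := by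
  classical
  obtain ⟨Y, _, _, φ, τ, e, hφ, hτ, t0, hi, he⟩ := exists_cpt hm m0 m1 hf hZ.1 f0 f1
  suffices h : IsZSet (φ ⁻¹' Z) from ⟨Y, _, ‹_›, φ, e, h.isER e h1 h2, h, hφ, hi, he⟩
  obtain ⟨hc, A, a0, a1⟩ := hZ
  have hA := A.continuous
  have ho := (hc.preimage hφ).isOpen_compl
  have t1 : ∀ x, 0 < τ (e x) := fun x => ((t0 _).resolve_right fun h => (e x).2 h.2).1
  have t2 : ∀ y, φ y ∈ Z → τ y = 0 := fun y hy => ((t0 _).resolve_left fun h => h.2 hy).1
  let B : Y × I → X := fun p => A (φ p.1, projIcc 0 1 zero_le_one (p.2 - τ p.1))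
  have hB : Continuous B := by fun_prop
  have b1 : ∀ p : Y × I, τ p.1 < p.2 → B p ∉ Z := fun p hp =>
    a1 _ _ (Subtype.coe_lt_coe.1 (lt_max_of_lt_right (lt_min one_pos (sub_pos.2 hp))))
  have b2 : ∀ x s, B (e x, s) ∉ Z := fun x s => by
    rcases lt_or_ge (τ (e x)) s with h | h
    · exact b1 _ h
    · simp only [B]
      rw [projIcc_of_le_left _ (sub_nonpos.2 h), he]
      exact (a0 _).symm ▸ f0 x
  let α : Y × I → Y := fun p => if hp : τ p.1 < p.2 then e (h ⟨B p, b1 p hp⟩) else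
    if hq : φ p.1 ∈ Z then p.1 else e (H (projIcc 0 1 zero_le_one (p.2 / τ p.1), e.symm ⟨_, hq⟩))
  have e1 : ∀ x (s : I), α (e x, s) = e (if (s : ℝ) ≤ τ (e x) then
      H (projIcc 0 1 zero_le_one (s / τ (e x)), x) else h ⟨_, b2 x s⟩) := fun x s => by
    by_cases hp : τ (e x) < s
    · rw [if_neg hp.not_ge]
      exact dif_pos hp
    · rw [if_pos (not_lt.1 hp)]
      exact (dif_neg hp).trans ((dif_neg (e x).2).trans (by simp))
  have sur : ∀ y, φ y ∉ Z → ∃ x, (e x : Y) = y := fun y hy =>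
    ⟨e.symm ⟨y, hy⟩, congrArg Subtype.val (e.apply_symm_apply _)⟩
  refine ⟨hc.preimage hφ, ⟨α, continuous_iff_continuousAt.2 fun ⟨y, s⟩ => ?_⟩, fun y => ?_,
    fun y s hs => ?_⟩
  · by_cases hy : φ y ∈ Z
    swap
    · obtain ⟨x, rfl⟩ := sur y hy
      refine (((ho.isOpenEmbedding_subtypeVal.comp e.isOpenEmbedding).prodMap
        (IsOpenEmbedding.id (X := I))).continuousAt_iff (x := (x, s))).1
        (Continuous.continuousAt (Continuous.congr ?_ fun p => (e1 p.1 p.2).symm))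
      refine continuous_subtype_val.comp (e.continuous.comp (Continuous.if_le (hH.comp
        ((continuous_projIcc.comp (Continuous.div (by fun_prop) (by fun_prop)
          fun p => (t1 _).ne')).prodMk continuous_fst))
        (hh.comp (Continuous.subtype_mk (by fun_prop) _)) (by fun_prop) (by fun_prop)
        fun p hp => ?_))
      rw [hp, div_self (t1 _).ne', projIcc_right]
      refine (H0 _).2.trans (congrArg h (Subtype.ext ?_))
      simp only [B]
      rw [hp, sub_self, projIcc_left, he]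
      exact (a0 _).symm
    by_cases hs : τ y < s
    · have hO : IsOpen {p : Y × I | τ p.1 < p.2} := isOpen_lt (by fun_prop) (by fun_prop)
      refine ContinuousOn.continuousAt (continuousOn_iff_continuous_domRestrict.2
        (Continuous.congr ?_ fun p => (dif_pos p.2).symm)) (hO.mem_nhds hs)
      exact continuous_subtype_val.comp (e.continuous.comp
        (hh.comp (Continuous.subtype_mk (by fun_prop) _)))
    have e2 : α (y, s) = y := (dif_neg hs).trans (dif_pos hy)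
    rw [ContinuousAt, e2]
    refine tendsto_of hφ hc hi hy (Metric.tendsto_nhds.2 fun ε hε => ?_)
    obtain ⟨C, c1, c2⟩ := mem_cocompact.1 (s1 _ (half_pos hε))
    obtain ⟨M, c3, c4⟩ := mem_cocompact.1 (s2 _ (half_pos hε))
    have h3 : Tendsto B (𝓝 (y, s)) (𝓝 (φ y)) := hB.tendsto' _ _ (by
      simp only [B]
      rw [projIcc_of_le_left _ (sub_nonpos.2 (not_lt.1 hs))]
      exact a0 _)
    filter_upwards [Metric.tendsto_nhds.1 h3 _ (half_pos hε), Metric.tendsto_nhds.1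
      ((hφ.comp continuous_fst).tendsto (y, s)) _ (half_pos hε),
      h3.eventually_mem ((c3.image continuous_subtype_val).isClosed.isOpen_compl.mem_nhds
        fun ⟨w, _, e⟩ => w.2 (e ▸ hy)),
      continuousAt_fst.eventually_mem ((c1.image (f := fun x => (e x : Y))
        (by fun_prop)).isClosed.isOpen_compl.mem_nhds fun ⟨x, _, e'⟩ =>
          (e x).2 (mem_of_eq_of_mem e' hy))]
      with p p1 p2 p3 p4
    by_cases hp : τ p.1 < p.2
    · rw [show α p = _ from dif_pos hp, he]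
      linarith [dist_triangle (f (h ⟨B p, b1 p hp⟩)) (B p) (φ y),
        (c4 (a := ⟨B p, b1 p hp⟩) fun h => p3 ⟨_, h, rfl⟩).out]
    by_cases hq : φ p.1 ∈ Z
    · rw [show α p = _ from (dif_neg hp).trans (dif_pos hq)]
      exact p2.trans (half_lt_self hε)
    · obtain ⟨y', t⟩ := p
      obtain ⟨x, rfl⟩ := sur y' hq
      rw [e1, if_pos (not_lt.1 hp), he]
      exact (dist_triangle _ (f x) _).trans_lt ((add_lt_add (c2 (fun h => p4 ⟨_, h, rfl⟩) _)
        ((congrArg (dist · _) (he x).symm).trans_lt p2)).trans_eq (add_halves ε))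
  · by_cases hy : φ y ∈ Z
    · exact (dif_neg (by simp [t2 y hy])).trans (dif_pos hy)
    · obtain ⟨x, rfl⟩ := sur y hy
      exact (e1 x 0).trans (by simp [(t1 x).le, (H0 x).1])
  · by_cases hy : φ y ∈ Z
    · have hp : τ y < s := (t2 y hy).trans_lt hs
      have e3 : α (y, s) = e (h ⟨B (y, s), b1 (y, s) hp⟩) := dif_pos hp
      exact fun h => (e _).2 (mem_of_eq_of_mem e3.symm h)
    · obtain ⟨x, rfl⟩ := sur y hy
      exact fun h => (e _).2 (mem_of_eq_of_mem (e1 x s).symm h)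

end Pool.Agent.P.MP_f05dbc_gt
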