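import Pool.Agent.P.MP_f05dbc_gt.ExtDef
import Pool.Agent.P.MP_f05dbc_gt.Maps
import Pool.Agent.P.MP_f05dbc_gt.Slow
import Pool.Agent.P.MP_f05dbc_gt.Swap

/-!
The closure theorem.
-/

namespace Pool.Agent.P.MP_f05dbc_gt

open Set Filter Topology Metric unitInterval

universe u

section

variable {Γ : Type*} [Group Γ] {X : Type} [MetricSpace X] [CompactSpace X] {Z : Set X}
  {c : Γ →* (↥Zᶜ ≃ₜ ↥Zᶜ)}

omit [CompactSpace X] in
theorem nul_of {𝓘 : Set Γ → Prop} (hm : ∀ A B, 𝓘 B → A ⊆ B → 𝓘 A)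
    (h : ∀ C : Set ↥Zᶜ, IsCompact C → ∀ 𝒰 : Set (Set X), (∀ U ∈ 𝒰, IsOpen U) → ⋃₀ 𝒰 = univ →
      𝓘 {g | ¬ ∃ U ∈ 𝒰, ∀ x ∈ C, (c g x : X) ∈ U}) : Nul 𝓘 c := fun C hC ε hε => by
  refine hm _ _ (h C hC (range fun y => ball y (ε / 2)) (by rintro _ ⟨y, rfl⟩; exact isOpen_ball)
    (eq_univ_of_forall fun y => ⟨_, mem_range_self y, mem_ball_self (half_pos hε)⟩)) ?_
  rintro g ⟨x, hx, x', hx', h1⟩ ⟨_, ⟨y, rfl⟩, h2⟩
  linarith [dist_triangle_right (c g x : X) (c g x') y, mem_ball.1 (h2 x hx), mem_ball.1 (h2 x' hx')]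

theorem Nul.null [Nonempty X] (h : Nul Set.Finite c) (C : Set ↥Zᶜ) (hC : IsCompact C)
    (𝒰 : Set (Set X)) (ho : ∀ U ∈ 𝒰, IsOpen U) (hc : ⋃₀ 𝒰 = univ) :
    {g | ¬ ∃ U ∈ 𝒰, ∀ x ∈ C, (c g x : X) ∈ U}.Finite := by
  obtain ⟨δ, hδ, hL⟩ := lebesgue_number_lemma_of_metric_sUnion isCompact_univ ho hc.ge
  refine (h C hC δ hδ).subset fun g hg => ?_
  by_contra hn
  simp only [mem_setOf_eq, not_exists, not_and, not_le] at hn
  rcases C.eq_empty_or_nonempty with rfl | ⟨x, hx⟩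
  · obtain ⟨U, hU, -⟩ := hL (Classical.arbitrary X) (mem_univ _)
    exact hg ⟨U, hU, fun _ h => absurd h (notMem_empty _)⟩
  · obtain ⟨U, hU, hs⟩ := hL (c g x) (mem_univ _)
    exact hg ⟨U, hU, fun z hz => hs (hn z hz x hx)⟩

omit [CompactSpace X] in
theorem extends_of_tendsto (hd : Dense Zᶜ) (h : ∀ g, ∀ w ∈ Z, ∃ w',
    Tendsto (fun x : ↥Zᶜ => (c g x : X)) (comap Subtype.val (𝓝 w)) (𝓝 w')) : Extends c := by
  have h0 : ∀ g, Continuous fun x : ↥Zᶜ => (c g x : X) := fun g => by fun_prop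
  have h1 := fun g => hd.extend_eq (h0 g)
  have h2 := fun g => hd.continuous_extend (f := fun x : ↥Zᶜ => (c g x : X)) fun w => by
    by_cases hw : w ∈ Z
    · exact h g w hw
    · exact ⟨_, ((h0 g).tendsto ⟨w, hw⟩).mono_left nhds_subtype_eq_comap.ge⟩
  refine ⟨homOf _ h2 (congrFun (Continuous.ext_on hd (h2 1) continuous_id fun x hx => ?_))
    fun g k => congrFun (Continuous.ext_on hd (h2 _) ((h2 g).comp (h2 k)) fun x hx => ?_), h1⟩
  · exact (h1 1 ⟨x, hx⟩).trans (by rw [act_one])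
  · exact (h1 _ ⟨x, hx⟩).trans (by rw [act_mul, ← h1, ← h1])

theorem tendsto_val_cocompact : Tendsto Subtype.val (cocompact ↥Zᶜ) (𝓝ˢ Z) := fun U hU => by
  obtain ⟨V, h1, h2, h3⟩ := mem_nhdsSet_iff_exists.1 hU
  exact mem_of_superset (IsInducing.subtypeVal.isCompact_preimage' h1.isClosed_compl.isCompact
    fun x hx => ⟨⟨x, fun h => hx (h2 h)⟩, rfl⟩).compl_mem_cocompact fun x hx => h3 (not_not.1 hx)

omit [CompactSpace X] in
theorem comap_le_cocompact {w : X} (hw : w ∈ Z) :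
    comap Subtype.val (𝓝 w) ≤ cocompact ↥Zᶜ := hasBasis_cocompact.ge_iff.2 fun _ hK =>
  mem_comap.2 ⟨_, (hK.image continuous_subtype_val).isClosed.isOpen_compl.mem_nhds
    fun ⟨y, _, e⟩ => y.2 (e ▸ hw), fun x hx h => hx ⟨x, h, rfl⟩⟩

omit [CompactSpace X] in
theorem IsZSet.contractible [ContractibleSpace X] (h : IsZSet Z) : ContractibleSpace ↥Zᶜ := by
  obtain ⟨k, x₁, h1, h2, h3, h4⟩ := exists_push h
  refine (contractible_iff_id_nullhomotopic _).2 ⟨⟨_, h3 x₁ 1 one_pos⟩, ⟨⟨⟨fun p =>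
    ⟨k (p.2, p.1), p.1.2.1.eq_or_lt.elim (fun e => e ▸ (h2 _).symm ▸ p.2.2) (h3 _ _)⟩,
    Continuous.subtype_mk (by fun_prop) _⟩, fun x => Subtype.ext (h2 _),
    fun x => Subtype.ext ((h4 _ _ le_rfl).trans (h4 _ _ le_rfl).symm)⟩⟩⟩

theorem IsZSet.hasCol [ContractibleSpace X] (h : IsZSet Z) (hd : FinDim X) : HasCol.{u} ↥Zᶜ := by
  obtain ⟨L, -⟩ := exists_lev h (P := fun _ _ _ => True)
    fun _ _ _ => ⟨∅, isCompact_empty, fun _ _ => trivial⟩
  exact fun _ => hd.col_compl L.cont_l L.compact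

end

variable {G : Type u} [Group G] {N : Subgroup G} {E X Y : Type} [MetricSpace E] [MetricSpace X]
  [CompactSpace X] [MetricSpace Y] [CompactSpace Y] {Z : Set X} {Z' : Set Y}
  {a : G →* (E ≃ₜ E)} {c : N →* (↥Zᶜ ≃ₜ ↥Zᶜ)} {b : G →* (↥Z'ᶜ ≃ₜ ↥Z'ᶜ)} {L : Lev Z} {L' : Lev Z'}
  {x₀ : ↥Zᶜ} {S : G → Set (↥Zᶜ × ↥Z'ᶜ)}

theorem Key.near (h : Key L L' c b x₀ S) {ε : ℝ} (hε : 0 < ε) :
    ∀ᶠ w in cocompact (↥Zᶜ × ↥Z'ᶜ), ∀ g w', w ∈ S g → w' ∈ S g →
      dist (jn L L' (w.1, w.2)) (jn L L' (w'.1, w'.2)) < ε := by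
  obtain ⟨m, m', h1, h2, h3, h4⟩ := h 1
  obtain rfl : m = m' := funext fun g => Subtype.ext (by simpa using h1 g)
  simp only [inv_one, act_one] at h4
  have h5 := h3.mul_const 2
  rw [zero_mul] at h5
  have h6 : Tendsto (fun q => sl L L' (q.2.1.1, q.2.1.2) * dist (q.2.1.1 : X) q.2.2.1) (cfg S 1)
      (𝓝 0) := squeeze_zero (fun q => mul_nonneg (sl_mem L L' _).1.1 dist_nonneg) (fun q => by
    rw [mul_assoc]
    refine mul_le_mul_of_nonneg_left ((dist_triangle_right _ _ (c (m q.1) x₀ : X)).trans ?_)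
      (sl_mem L L' _).1.1
    rw [mul_two]
    exact add_le_add (le_max_left _ _) (le_max_right _ _)) h5
  have h7 := (pj_near (F := cfg S 1)
    (p := fun q => ((q.2.1.1 : X), (q.2.1.2 : Y), sl L L' (q.2.1.1, q.2.1.2)))
    (q := fun q => ((q.2.2.1 : X), (q.2.2.2 : Y), sl L L' (q.2.2.1, q.2.2.2))) h2 h6
    h4).eventually (gt_mem_nhds hε)
  exact (eventually_comap.1 (eventually_inf_principal.1 h7)).mono fun w hw g w' h8 h9 =>
    (Subtype.dist_eq _ _).trans_lt (hw (g, w, w') rfl ⟨h8, by rwa [one_mul]⟩)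

theorem Key.ext (h : Key L L' c b x₀ S) (hc : ConjExtends N Z c) (hb : Extends b) (g₀ : G)
    {α : Type*} {F : Filter α} {q : α → G × (↥Zᶜ × ↥Z'ᶜ) × ↥Zᶜ × ↥Z'ᶜ}
    (hq : Tendsto q F (cfg S g₀)) {ω : Jn L L'} (hω : ω ∈ bdy L L')
    (h0 : Tendsto (fun a => jn L L' ((q a).2.1.1, (q a).2.1.2)) F (𝓝 ω)) :
    ∃ ω' : Amb, Tendsto (fun a => (jn L L' ((q a).2.2.1, (q a).2.2.2) : Amb)) F (𝓝 ω') := by
  obtain ⟨m, m', h1, h2, h3, h4⟩ := h g₀
  obtain ⟨β, hβ⟩ := hb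
  obtain ⟨_, p, hp, rfl⟩ := ω
  obtain ⟨h5, h6⟩ := (mem_bdy rfl).1 hω
  obtain ⟨h7, h8, h9⟩ := pj_tendsto.1 (tendsto_subtype_rng.1 h0)
  have k : ∀ {t d : α → ℝ} {t₀ : ℝ}, Tendsto t F (𝓝 t₀) → t₀ ≠ 0 →
      Tendsto (fun a => t a * d a) F (𝓝 0) → Tendsto d F (𝓝 0) := fun h h' h'' => by
    simpa using ((h.inv₀ h').mul h'').congr'
      ((h.eventually_ne h').mono fun a ha => inv_mul_cancel_left₀ ha _)
  obtain ⟨z, hz⟩ : ∃ z, p.2.2 ≠ 0 → Tendsto (fun a => ((q a).2.2.1 : X)) F (𝓝 z) := by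
    by_cases ht : p.2.2 = 0
    · exact ⟨p.1, fun h => absurd ht h⟩
    obtain ⟨z, hz⟩ := hc g₀ p.1 (not_not.1 fun h => mul_ne_zero ht (L.r_pos h).ne' h5) x₀
    have i1 := k h7 ht (h3.comp hq)
    have i2 := (h8 ht).congr_dist (squeeze_zero (fun _ => dist_nonneg)
      (fun a => le_max_left _ _) i1)
    have i3 : Tendsto (fun a => (c (m' (q a).1) x₀ : X)) F (𝓝 z) := fun U hU =>
      (hz U hU).elim fun V hV => mem_map.2 (mem_of_superset (mem_map.1 (i2 hV.1))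
        fun a ha => hV.2 _ _ (h1 _) ha)
    exact ⟨z, fun _ => i3.congr_dist (squeeze_zero (fun _ => dist_nonneg)
      (fun a => (dist_comm _ _).trans_le (le_max_right _ _)) i1)⟩
  refine ⟨pj (z, β g₀ p.2.1, p.2.2), pj_tendsto.2 ⟨by simpa using h7.sub (h2.comp hq), hz,
    fun ht => (((β g₀).continuous.tendsto _).comp ((h9 ht).congr_dist
      (k (h7.const_sub 1) (sub_ne_zero.2 ht.symm) (h4.comp hq)))).congr fun a => ?_⟩⟩
  exact (hβ _ _).trans (congrArg _ (act_inv' _ _ _))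

theorem closure_metric {e : Prop} [LocallyCompactSpace E] [ContractibleSpace E] (hE : FinDim E)
    (hE' : LocallyContractibleSpace E) (ha : Prp₀ a) (ha' : Ccp a)
    (hf : ∀ g x, a g x = x → g = 1) (hc : IsGeom Z c) (hb : IsCoGeom N Z' b)
    (he : e → ConjExtends N Z c ∧ Extends b) :
    ∃ (X' : Type) (_ : TopologicalSpace X') (Z'' : Set X') (a' : G →* (↥Z''ᶜ ≃ₜ ↥Z''ᶜ)),
      IsGeom Z'' a' ∧ IsFree a' ∧ (e → Extends a') := by
  obtain ⟨-, -, d1, _, -⟩ := hc.er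
  obtain ⟨-, -, d2, _, -⟩ := hb.er
  have hZ := hc.zset.1
  have hZ' := hb.zset.1
  have := hZ.isOpen_compl.locallyCompactSpace
  have := hZ'.isOpen_compl.locallyCompactSpace
  have := hc.zset.contractible
  have := hb.zset.contractible
  have : Countable N := Prp.countable (N := ⊥) (a := c)
    (fun K L hK hL => finCos_of_finite _ (hc.proper K L hK hL)) (countable_singleton _)
  have : Countable G := Prp.countable hb.proper (countable_coe_iff.1 this)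
  obtain ⟨K, k1, k2⟩ := ha'.cover
  have : SigmaCompactSpace E := .of_countable _ (countable_range fun g => a g '' K)
    (forall_mem_range.2 fun g => k1.image (a g).continuous) (eq_univ_of_forall fun x =>
      (k2 x).elim fun g hg => ⟨_, ⟨g, rfl⟩, _, interior_subset hg, act_inv' _ _ _⟩)
  have hN := Bdd.cms hb.bdd hb.proper
  obtain ⟨ν, hν⟩ := exists_nu hN
  obtain ⟨f, h, H, O, f1, h1, H1, H2, o1, o2, f2, h2, H3⟩ := exists_maps hN hν
    (fun ι O ho hO => hE.col.imp fun _ h => h ι O ho hO) (hc.zset.hasCol d1) (hb.zset.hasCol d2)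
    ha ha' hc.proper hc.cocompact hb.proper hb.cocompact hb.bdd
  have c2 := crs_BP hN hν hc.proper hb.proper hb.bdd
  let C := CompactExhaustion.choice E
  obtain ⟨k₀, k3⟩ := C.exists_superset_of_isCompact k1
  choose γ k4 using fun x => (k2 x).imp fun g hg => k3 (interior_subset hg)
  have s1 := fun k => c2.union (f2 _ (H3 _ (BE.orbit (C.isCompact k))))
    (c2.union o1 (f2 _ (h2 _ o1)))
  obtain ⟨L, L', hL⟩ := exists_key hc.zset hb.zset hN hν hc.proper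
    (nul_of (fun _ _ h h' => h.subset h') hc.null) hb.proper hb.bdd
    (nul_of (fun _ _ => FinCos.mono) hb.null) (Classical.arbitrary _) _ s1
  have f3 : Tendsto f (cocompact E) (cocompact _) := hasBasis_cocompact.tendsto_right_iff.2
    fun M hM => by
      have i1 := (c2.meet (S := fun g => {w | g = 1 ∧ w ∈ M}) ⟨⟨_, hM.image continuous_snd, by
        rintro _ w ⟨rfl, hw⟩
        exact ⟨w, hw, by rw [inv_one, act_one]⟩⟩, ((pb_const (hM.image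
          continuous_fst).compl_mem_cocompact).comap (tendsto_act c (ν 1))).mono (by
        rintro _ x ⟨y, rfl, hw⟩
        exact ⟨_, hw, rfl⟩)⟩ (s1 k₀)).2 (1 : G)
      obtain ⟨D, i2, i3⟩ := exists_orb a i1 (C.isCompact k₀)
      exact mem_of_superset i2.compl_mem_cocompact fun x hx hm => hx (act_inv' a (γ x) x ▸ i3 _
        (fun hn => hn 1 rfl ⟨f x, ⟨rfl, hm⟩, .inl ⟨x, ⟨x, by rw [one_mul]; exact k4 x, 0,
          (H2 x).1⟩, rfl⟩⟩) _ (k4 x))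
  obtain ⟨e₁, he₁⟩ := exists_emb (L := L) (L' := L') hZ hZ'
  have := compact_jn (L := L) (L' := L') hZ hZ'
  have hB := isZSet_bdy (L := L) (L' := L') hZ hZ'
  have f4 : Tendsto (fun x => (e₁ (f x) : Jn L L')) (cocompact E) (𝓝ˢ (bdy L L')) :=
    tendsto_val_cocompact.comp (Tendsto.comp e₁.map_cocompact.le f3)
  have n1 : ∀ k (ε : ℝ), 0 < ε → ∀ᶠ x in cocompact E, ∀ g x' t, a g⁻¹ x ∈ C k → a g⁻¹ x' ∈ C k →
      dist (e₁ (f x) : Jn L L') (e₁ (f (H (t, x')))) < ε := fun k ε hε =>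
    (f3.eventually ((hL k).near hε)).mono fun x hx g x' t i1 i2 => by
      rw [he₁, he₁]
      exact hx g _ (.inl ⟨x, ⟨x, i1, 0, (H2 x).1⟩, rfl⟩) (.inl ⟨_, ⟨x', i2, t, rfl⟩, rfl⟩)
  obtain ⟨W, _, _, φ, e₂, w1, w2, w3, w4, w5⟩ := swap hE hE'
    (m := fun x => L.l (f x).1 + L'.l (f x).2)
    ((L.cont_l.comp f1.fst).add (L'.cont_l.comp f1.snd))
    (fun x => (add_pos (L.pos _) (L'.pos _)).le) ((tendsto_lev L L').comp f3) hB
    (f := fun x => e₁ (f x)) (by fun_prop) (fun x => (e₁ (f x)).2) f4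
    (h := fun w => h (e₁.symm w)) (by fun_prop) H1
    (fun x => ⟨(H2 x).1, (H2 x).2.trans (congrArg h (e₁.symm_apply_apply _).symm)⟩)
    (fun ε hε => (n1 k₀ ε hε).mono fun x hx t =>
      (dist_comm _ _).trans_lt (hx _ x t (k4 x) (k4 x)))
    fun ε hε => (Tendsto.eventually e₁.symm.map_cocompact.le ((hL 0).near hε)).mono fun w hw => by
      obtain ⟨w, rfl⟩ := e₁.surjective w
      obtain ⟨g, hg⟩ := o2 w
      rw [e₁.symm_apply_apply] at hw ⊢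
      rw [he₁, he₁, dist_comm]
      exact hw g _ (.inr (.inl hg)) (.inr (.inr ⟨_, ⟨_, hg, rfl⟩, rfl⟩))
  obtain ⟨-, -, -, _, -⟩ := id w1
  refine ⟨W, _, _, cj e₂ a, ⟨w1, w2, fun K L hK hL => (Prp.cj (N := ⊥) (fun K L hK hL =>
    finCos_of_finite _ (ha K L hK hL)) e₂ K L hK hL).finite (finite_singleton _), ha'.cj e₂,
    Nul.null fun M hM ε hε => ?_⟩, fun g x hx => hf g _ (e₂.symm_apply_eq.2 hx.symm).symm,
    fun h0 => extends_of_tendsto w2.dense fun g₀ ω hω => ?_⟩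
  · obtain ⟨k, hk⟩ := C.exists_superset_of_isCompact (hM.image e₂.symm.continuous)
    have i1 := (near_of w3 hB.1 w4 (F := comap (fun q : G × E × E => q.2.1) (cocompact E) ⊓
      𝓟 {q | a q.1⁻¹ q.2.1 ∈ C k ∧ a q.1⁻¹ q.2.2 ∈ C k}) (y := fun q => e₂ q.2.1)
      (y' := fun q => e₂ q.2.2)
      ((f4.comp (tendsto_comap.mono_left inf_le_left)).congr fun q => (w5 _).symm)
      (Metric.tendsto_nhds.2 fun δ hδ => eventually_inf_principal.2
        ((tendsto_comap.eventually (n1 k δ hδ)).mono fun q hq hq' => by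
          simpa only [w5, dist_zero_right, Real.norm_of_nonneg dist_nonneg, (H2 _).1] using
            hq q.1 q.2.2 0 hq'.1 hq'.2))).eventually (gt_mem_nhds hε)
    obtain ⟨D, i2, i3⟩ := mem_cocompact.1 (eventually_comap.1 (eventually_inf_principal.1 i1))
    refine (ha _ _ (C.isCompact k) i2).subset ?_
    rintro g ⟨x, hx, x', hx', i4⟩
    exact ⟨_, ⟨_, hk ⟨x, hx, rfl⟩, rfl⟩, not_not.1 fun hn => i4.not_gt (i3 hn (g, _, _) rfl
      ⟨(act_inv a g _).symm ▸ hk ⟨x, hx, rfl⟩, (act_inv a g _).symm ▸ hk ⟨x', hx', rfl⟩⟩)⟩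
  · have := w2.dense.comap_val_nhds_neBot ω
    have i1 : Tendsto e₂.symm (comap Subtype.val (𝓝 ω)) (cocompact E) :=
      Tendsto.mono_left e₂.symm.map_cocompact.le (comap_le_cocompact hω)
    obtain ⟨ω', i2⟩ := (hL k₀).ext (he h0).1 (he h0).2 g₀
      (q := fun z => (γ (e₂.symm z), f (e₂.symm z), f (a g₀ (e₂.symm z))))
      (tendsto_inf.2 ⟨tendsto_comap_iff.2 (f3.comp i1), tendsto_principal.2 (.of_forall fun z =>
        ⟨.inl ⟨_, ⟨_, k4 _, 0, (H2 _).1⟩, rfl⟩, .inl ⟨_, ⟨_, by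
          rw [mem_preimage, ← act_mul, mul_inv_rev, inv_mul_cancel_right]
          exact k4 _, 0, (H2 _).1⟩, rfl⟩⟩)⟩) hω
      (((w3.tendsto _).comp tendsto_comap).congr fun z => by
        rw [← he₁, ← w5, e₂.apply_symm_apply]
        rfl)
    have i3 : Tendsto (fun z => (e₁ (f (a g₀ (e₂.symm z))) : Jn L L')) _ (𝓝 ⟨ω',
        ((isCompact_pz hZ hZ').image cont_pj).isClosed.mem_of_tendsto i2
          (.of_forall fun z => Subtype.prop _)⟩) :=
      tendsto_subtype_rng.2 (i2.congr fun z => by rw [he₁])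
    exact exists_tendsto w3 hB.1 w4 (not_not.1 fun hn => (f4.comp ((tendsto_act a g₀).comp
      i1)).not_tendsto (disjoint_nhdsSet_nhds.2 (by rwa [hB.1.closure_eq])) i3)
      (i3.congr fun z => (w5 _).symm)

theorem closure_top {e : Prop} (hG : HasModel G) {X Y : Type} [TopologicalSpace X]
    [TopologicalSpace Y] {Z : Set X} {Z' : Set Y} {c : N →* (↥Zᶜ ≃ₜ ↥Zᶜ)}
    {b : G →* (↥Z'ᶜ ≃ₜ ↥Z'ᶜ)} (hc : IsGeom Z c) (hb : IsCoGeom N Z' b)
    (he : e → ConjExtends N Z c ∧ Extends b) :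
    ∃ (X' : Type) (_ : TopologicalSpace X') (Z'' : Set X') (a' : G →* (↥Z''ᶜ ≃ₜ ↥Z''ᶜ)),
      IsGeom Z'' a' ∧ IsFree a' ∧ (e → Extends a') := by
  obtain ⟨E, _, a, _, _, h1, _, h2, h3, h4, h5⟩ := hG
  obtain ⟨_, _, -⟩ := hc.er
  obtain ⟨_, _, -⟩ := hb.er
  let := TopologicalSpace.metrizableSpaceMetric E
  let := TopologicalSpace.metrizableSpaceMetric X
  let := TopologicalSpace.metrizableSpaceMetric Y
  exact closure_metric h1 h2 h4 h5 h3 hc hb he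

end Pool.Agent.P.MP_f05dbc_gt
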