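import Pool.Agent.P.MP_f05dbc_gt.Cos

/-!
Equivariant partitions of unity for relatively proper cocompact actions, and a slowly varying
proper function.
-/

namespace Pool.Agent.P.MP_f05dbc_gt

open Set Filter Topology Metric

variable {G : Type*} [Group G] {T : Type} [TopologicalSpace T] {N H : Subgroup G}

theorem act_mul (a : G →* (T ≃ₜ T)) (g h : G) (y : T) : a (g * h) y = a g (a h y) := by
  rw [map_mul]
  rfl

theorem act_one (a : G →* (T ≃ₜ T)) (y : T) : a 1 y = y := by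
  rw [map_one]
  rfl

theorem act_inv (a : G →* (T ≃ₜ T)) (g : G) (y : T) : a g⁻¹ (a g y) = y := by
  rw [← act_mul, inv_mul_cancel, act_one]

theorem act_inv' (a : G →* (T ≃ₜ T)) (g : G) (y : T) : a g (a g⁻¹ y) = y := by
  rw [← act_mul, mul_inv_cancel, act_one]

/-- Compact sets lie in the support of functions invariant under subgroups of finite index. -/
def Fix (N : Subgroup G) (a : G →* (T ≃ₜ T)) : Prop :=
  ∀ K : Set T, IsCompact K → ∃ (H : Subgroup G) (ψ : T → ℝ), FinCos H N ∧ Continuous ψ ∧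
    HasCompactSupport ψ ∧ (∀ x ∈ K, ψ x ≠ 0) ∧ ∀ h ∈ H, ∀ x, ψ (a h x) = ψ x

theorem Fix.bdd {a : G →* (T ≃ₜ T)} (h : Fix N a) {K : Set T} (hK : IsCompact K) :
    ∃ (H : Subgroup G) (L : Set T), FinCos H N ∧ IsCompact L ∧ ∀ h ∈ H, ∀ x ∈ K, a h x ∈ L := by
  obtain ⟨H, ψ, h1, -, h2, h3, h4⟩ := h K hK
  exact ⟨H, _, h1, h2, fun g hg x hx => subset_tsupport ψ ((h4 g hg x).trans_ne (h3 x hx))⟩

/-- Proper discontinuity relative to `N`. -/
def Prp (N : Subgroup G) (a : G →* (T ≃ₜ T)) : Prop :=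
  ∀ K L : Set T, IsCompact K → IsCompact L → FinCos N {g | (a g '' K ∩ L).Nonempty}

/-- Cocompactness. -/
def Ccp (a : G →* (T ≃ₜ T)) : Prop := ∃ K : Set T, IsCompact K ∧ ∀ x, ∃ g, a g x ∈ K

theorem Prp.countable [SigmaCompactSpace T] [Nonempty T] {a : G →* (T ≃ₜ T)} (h : Prp N a)
    (hN : (N : Set G).Countable) : Countable G := by
  obtain ⟨y⟩ := ‹Nonempty T›
  rw [← countable_univ_iff]
  refine (countable_iUnion fun n => (h {y} _ isCompact_singleton
    (isCompact_compactCovering T n)).countable hN).mono fun g _ => ?_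
  obtain ⟨n, hn⟩ := exists_mem_compactCovering (a g y)
  exact mem_iUnion.2 ⟨n, a g y, mem_image_of_mem _ rfl, hn⟩

/-- `N` is commensurated. -/
def Cms (N : Subgroup G) : Prop := ∀ q : G, FinCos N ((· * q) '' N)

theorem Prp.cms [Nonempty T] {a : G →* (T ≃ₜ T)} (h : Prp N a) (hf : Fix N a) : Cms N := by
  obtain ⟨y⟩ := ‹Nonempty T›
  intro q
  obtain ⟨H, L, ⟨F, hF, h1⟩, hL, h3⟩ := hf.bdd (isCompact_singleton (x := y))
  refine (h {a q⁻¹ y} _ isCompact_singleton
    (hF.isCompact_biUnion fun f _ => hL.image (a f).continuous)).mono ?_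
  rintro _ ⟨n, hn, rfl⟩
  obtain ⟨f, hf, h2⟩ := h1 n hn
  exact ⟨a n y, ⟨_, rfl, by rw [act_mul, act_inv']⟩,
    mem_biUnion hf ⟨_, h3 _ h2 y rfl, by rw [← act_mul, mul_inv_cancel_left]⟩⟩

theorem Cms.of_le (h : Cms N) (h1 : H ≤ N) (h2 : FinCos H N) : Cms H := fun q =>
  (h2.trans (h q)).mono (image_mono h1)

theorem Cms.orbit (h : Cms N) (h2 : FinCos H N) (ω : G ⧸ H) :
    FinCos (MulAction.stabilizer G ω) N := by
  obtain ⟨q, rfl⟩ := QuotientGroup.mk_surjective ω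
  refine finCos_of_factor (fun x => x • (q : G ⧸ H)) ((h2.trans (h q)).image_mk.subset ?_)
    fun x _ y _ e => ?_
  · rintro _ ⟨x, hx, rfl⟩
    exact ⟨_, ⟨x, hx, rfl⟩, rfl⟩
  · rw [MulAction.mem_stabilizer_iff, mul_smul, ← e, inv_smul_smul]

theorem Cms.conj (h : Cms N) (g : G) : FinCos (N.comap (MulAut.conj g).toMonoidHom) N :=
  (h.orbit (finCos_self N) (g⁻¹ : G)).of_le fun x hx => by
    have := QuotientGroup.eq.1 (MulAction.mem_stabilizer_iff.1 hx).symm
    simpa [mul_assoc] using this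

theorem exists_length [Countable G] (hH : Cms H) : ∃ l : G ⧸ H → ℕ, (∀ k, {q | l q ≤ k}.Finite) ∧
    ∀ g : G, ∃ c : ℕ, (∀ ω, l (g • ω) ≤ l ω + c) ∧ ∀ q : G, l (q * g : G) ≤ l q + c := by
  obtain ⟨e, he⟩ := exists_surjective_nat G
  let F : ℕ → Set G := fun m => insert 1 (e '' Iic m)
  let B : ℕ → Set (G ⧸ H) := fun m => Nat.rec {((1 : G) : G ⧸ H)}
    (fun m S => {ω | ∃ x ∈ F m, ∃ y ∈ F m, ∃ q : G, (q : G ⧸ H) ∈ S ∧ ω = (x * q * y : G)}) m
  have hfin : ∀ m, (B m).Finite := fun m => by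
    induction m with
    | zero => exact finite_singleton _
    | succ m ih =>
      have : (F m).Finite := ((finite_Iic m).image e).insert 1
      refine (this.biUnion fun x _ => this.biUnion fun y _ => ih.biUnion fun ω _ =>
        (hH y).image_mk.image ((x * ω.out) • ·)).subset ?_
      rintro _ ⟨x, hx, y, hy, q, hq, rfl⟩
      refine mem_biUnion hx (mem_biUnion hy (mem_biUnion hq ⟨_, ⟨_, ⟨_,
        QuotientGroup.eq.1 (QuotientGroup.out_eq' (q : G ⧸ H)), rfl⟩, rfl⟩, ?_⟩))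
      simp [mul_assoc]
  have hstep : ∀ m, ∀ x ∈ F m, ∀ q : G, (q : G ⧸ H) ∈ B m → ∀ y ∈ F m,
      ((x * q * y : G) : G ⧸ H) ∈ B (m + 1) := fun m x hx q hq y hy => ⟨x, hx, y, hy, q, hq, rfl⟩
  have h1 : ∀ m, (1 : G) ∈ F m := fun m => mem_insert _ _
  have h2 : ∀ m i, i ≤ m → e i ∈ F m := fun m i hi => mem_insert_of_mem _ ⟨i, hi, rfl⟩
  have hmono : Monotone B := monotone_nat_of_le_succ fun m q hq => by
    obtain ⟨q, rfl⟩ := QuotientGroup.mk_surjective q
    simpa using hstep m 1 (h1 m) q hq 1 (h1 m)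
  have hex : ∀ q, ∃ m, q ∈ B m := fun q => by
    obtain ⟨q, rfl⟩ := QuotientGroup.mk_surjective q
    obtain ⟨i, rfl⟩ := he q
    exact ⟨i + 1, by simpa using hstep i _ (h2 i i le_rfl) 1 (hmono i.zero_le rfl) 1 (h1 i)⟩
  let l : G ⧸ H → ℕ := fun q => sInf {m | q ∈ B m}
  have hl : ∀ q, q ∈ B (l q) := fun q => Nat.sInf_mem (hex q)
  have hl' : ∀ q m, q ∈ B m → l q ≤ m := fun q m h => Nat.sInf_le h
  refine ⟨l, fun k => (hfin k).subset fun q hq => hmono hq (hl q), fun g => ?_⟩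
  obtain ⟨i, rfl⟩ := he g
  have hq : ∀ q, q ∈ B (l q + i) := fun q => hmono (Nat.le_add_right _ _) (hl q)
  have hi := fun q => h2 (l q + i) i (Nat.le_add_left _ _)
  refine ⟨i + 1, fun q => ?_, fun q =>
    hl' _ (l q + i + 1) (by simpa using hstep _ 1 (h1 _) q (hq q) _ (hi q))⟩
  obtain ⟨q, rfl⟩ := QuotientGroup.mk_surjective q
  exact hl' _ (l q + i + 1) (by simpa using hstep _ _ (hi q) q (hq q) 1 (h1 _))

/-- An equivariant partition of unity indexed by the cosets of `H`. -/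
structure Part (H : Subgroup G) (a : G →* (T ≃ₜ T)) where
  w : G ⧸ H → T → ℝ
  C : Set T
  cont : ∀ q, Continuous (w q)
  nonneg : ∀ q y, 0 ≤ w q y
  lf : LocallyFinite fun q => Function.support (w q)
  sum : ∀ y, ∑ᶠ q, w q y = 1
  equiv : ∀ (g : G) q y, w (g • q) (a g y) = w q y
  compact : IsCompact C
  supp : ∀ q y, w q y ≠ 0 → y ∈ a q.out '' C

theorem exists_part [LocallyCompactSpace T] {a : G →* (T ≃ₜ T)} (hf : Fix N a)
    (hp : Prp N a) (hc : Ccp a) : ∃ H ≤ N, FinCos H N ∧ Nonempty (Part H a) := by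
  obtain ⟨K, hK, hc⟩ := hc
  obtain ⟨H, ψ, hHN, hH, hψ, hs, h01, h1, hinv⟩ : ∃ (H : Subgroup G) (ψ : T → ℝ), H ≤ N ∧
      FinCos H N ∧ Continuous ψ ∧ HasCompactSupport ψ ∧ (∀ x, 0 ≤ ψ x) ∧ (∀ x ∈ K, 0 < ψ x) ∧
      ∀ h ∈ H, ∀ x, ψ (a h x) = ψ x := by
    obtain ⟨H, ψ, h1, h2, h3, h4, h5⟩ := hf K hK
    exact ⟨N ⊓ H, fun x => ‖ψ x‖, inf_le_left, (finCos_self N).inf h1, h2.norm, h3.norm,
      fun x => norm_nonneg _, fun x hx => norm_pos_iff.2 (h4 x hx),
      fun g hg x => congrArg _ (h5 g hg.2 x)⟩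
  have hmk : ∀ (g : G) (ω : G ⧸ H) y, (g : G ⧸ H) = ω → ψ (a ω.out⁻¹ y) = ψ (a g⁻¹ y) :=
    fun g ω y e => by
      rw [← hinv _ (QuotientGroup.eq.1 ((QuotientGroup.out_eq' ω).trans e.symm)) (a g⁻¹ y),
        ← act_mul, mul_inv_cancel_right]
  have hsupp : ∀ (q : G ⧸ H) y, ψ (a q.out⁻¹ y) ≠ 0 → y ∈ a q.out '' tsupport ψ := fun q y h =>
    ⟨_, subset_tsupport _ h, act_inv' _ _ _⟩
  have hlf : LocallyFinite fun q : G ⧸ H => Function.support fun y => ψ (a q.out⁻¹ y) := fun y => by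
    obtain ⟨U, hU, hy⟩ := exists_compact_mem_nhds y
    exact ⟨U, hy, (hH.trans (hp _ U hs hU)).image_mk.subset fun q ⟨z, h, hz⟩ =>
      ⟨q.out, ⟨z, hsupp q z h, hz⟩, QuotientGroup.out_eq' q⟩⟩
  let S : T → ℝ := fun y => ∑ᶠ q : G ⧸ H, ψ (a q.out⁻¹ y)
  have hS : ∀ y, 0 < S y := fun y => by
    obtain ⟨g, hg⟩ := hc y
    refine lt_of_lt_of_le ?_ (single_le_finsum ((g⁻¹ : G) : G ⧸ H) (hlf.point_finite y)
      fun q => h01 _)
    rw [hmk _ _ _ rfl, inv_inv]
    exact h1 _ hg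
  have hSc : Continuous S := continuous_finsum (fun q => by fun_prop) hlf
  have he : ∀ (g : G) (q : G ⧸ H) y, ψ (a (g • q).out⁻¹ (a g y)) = ψ (a q.out⁻¹ y) :=
    fun g q y => by
      rw [hmk (g * q.out) _ _ (MulAction.Quotient.mk_smul_out H g q), ← act_mul, mul_inv_rev,
        inv_mul_cancel_right]
  have hSe : ∀ g y, S (a g y) = S y := fun g y => by
    simp only [S]
    rw [← finsum_comp_equiv (MulAction.toPerm g)]
    exact finsum_congr fun q => he g q y
  refine ⟨H, hHN, hH, ⟨⟨fun q y => ψ (a q.out⁻¹ y) * (S y)⁻¹, tsupport ψ,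
    fun q => Continuous.mul (by fun_prop) (hSc.inv₀ fun y => (hS y).ne'),
    fun q y => mul_nonneg (h01 _) (inv_pos.2 (hS y)).le,
    hlf.subset fun q y h => left_ne_zero_of_mul h, fun y => ?_, fun g q y => by rw [he, hSe], hs,
    fun q y h => hsupp q y (left_ne_zero_of_mul h)⟩⟩⟩
  rw [← finsum_mul]
  exact mul_inv_cancel₀ (hS y).ne'

namespace Part

variable {a : G →* (T ≃ₜ T)} (P : Part H a) {V : Type} [NormedAddCommGroup V] [NormedSpace ℝ V]

/-- The average of `F`. -/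
noncomputable def av (F : G ⧸ H → V) (y : T) : V := ∑ᶠ q, P.w q y • F q

theorem fin (y : T) : (Function.support fun q => P.w q y).Finite := P.lf.point_finite y

theorem fin' (F : G ⧸ H → V) (y : T) : (Function.support fun q => P.w q y • F q).Finite :=
  (P.fin y).subset fun _ h => left_ne_zero_of_smul h

theorem continuous_av (F : G ⧸ H → V) : Continuous (P.av F) :=
  continuous_finsum (fun q => (P.cont q).smul continuous_const)
    (P.lf.subset fun _ _ h => left_ne_zero_of_smul h)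

theorem av_add (F F' : G ⧸ H → V) (y : T) :
    P.av (fun q => F q + F' q) y = P.av F y + P.av F' y := by
  simp only [av, smul_add]
  exact finsum_add_distrib (P.fin' F y) (P.fin' F' y)

theorem av_sub (F F' : G ⧸ H → V) (y : T) :
    P.av (fun q => F q - F' q) y = P.av F y - P.av F' y := by
  simp only [av, smul_sub]
  exact finsum_sub_distrib (P.fin' F y) (P.fin' F' y)

theorem av_const (c : V) (y : T) : P.av (fun _ => c) y = c := by
  rw [av, ← finsum_smul' (P.fin y), P.sum, one_smul]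

theorem av_congr {F F' : G ⧸ H → V} {y : T} (h : ∀ q, P.w q y ≠ 0 → F q = F' q) :
    P.av F y = P.av F' y :=
  finsum_congr fun q => by
    rcases eq_or_ne (P.w q y) 0 with h0 | h0
    · simp [h0]
    · rw [h q h0]

theorem av_map (L : V →L[ℝ] V) (F : G ⧸ H → V) (y : T) :
    P.av (fun q => L (F q)) y = L (P.av F y) := by
  simp only [av, ← map_smul]
  exact (map_finsum L (P.fin' F y)).symm

theorem av_act (F : G ⧸ H → V) (g : G) (y : T) :
    P.av F (a g y) = P.av (fun q => F (g • q)) y := by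
  rw [av, ← finsum_comp_equiv (MulAction.toPerm g)]
  exact finsum_congr fun q => congrArg (· • F (g • q)) (P.equiv g q y)

theorem av_mono {F F' : G ⧸ H → ℝ} {y : T} (h : ∀ q, P.w q y ≠ 0 → F q ≤ F' q) :
    P.av F y ≤ P.av F' y :=
  finsum_le_finsum' (P.fin' F y) (P.fin' F' y) fun q => by
    rcases eq_or_ne (P.w q y) 0 with h0 | h0
    · simp [h0]
    · exact mul_le_mul_of_nonneg_left (h q h0) (P.nonneg q y)

theorem abs_av_le {F : G ⧸ H → ℝ} {y : T} {b : ℝ} (h : ∀ q, P.w q y ≠ 0 → |F q| ≤ b) :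
    |P.av F y| ≤ b :=
  abs_le.2 ⟨(P.av_const (-b) y).ge.trans (P.av_mono fun q hq => (abs_le.1 (h q hq)).1),
    (P.av_mono fun q hq => (abs_le.1 (h q hq)).2).trans (P.av_const b y).le⟩

end Part

/-- A slowly varying proper function. -/
structure Slow (a : G →* (T ≃ₜ T)) (p : T → ℝ) : Prop where
  cont : Continuous p
  one_le : ∀ y, 1 ≤ p y
  compact : ∀ t, IsCompact {y | p y ≤ t}
  act : ∀ g, ∃ c, ∀ y, |p y - p (a g y)| ≤ c
  orb : ∀ K, IsCompact K → ∃ c, ∀ g, ∀ y ∈ K, ∀ y' ∈ K, |p (a g y) - p (a g y')| ≤ c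

theorem Part.exists_slow [Countable G] {a : G →* (T ≃ₜ T)} (P : Part H a) (hH : Cms H) :
    ∃ p, Slow a p := by
  obtain ⟨l, hl, hc⟩ := exists_length hH
  have hc' : ∀ g : G, ∃ c : ℝ, (∀ q, |(l q : ℝ) - l (g • q)| ≤ c) ∧
      ∀ q : G, |(l (q * g : G) : ℝ) - l q| ≤ c := by
    intro g
    obtain ⟨c, h⟩ := hc g
    obtain ⟨c', h'⟩ := hc g⁻¹
    have h5 : (0 : ℝ) ≤ c := c.cast_nonneg
    have h6 : (0 : ℝ) ≤ c' := c'.cast_nonneg
    refine ⟨c + c', fun q => ?_, fun q => ?_⟩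
    · have h1 : (l (g • q) : ℝ) ≤ l q + c := by exact_mod_cast h.1 q
      have h3 : (l q : ℝ) ≤ l (g • q) + c' := by exact_mod_cast by simpa using h'.1 (g • q)
      exact abs_le.2 ⟨by linarith, by linarith⟩
    · have h2 : (l (q * g : G) : ℝ) ≤ l q + c := by exact_mod_cast h.2 q
      have h4 : (l q : ℝ) ≤ l (q * g : G) + c' := by
        have := h'.2 (q * g)
        rw [mul_inv_cancel_right] at this
        exact_mod_cast this
      exact abs_le.2 ⟨by linarith, by linarith⟩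
  choose c hc1 hc2 using hc'
  have hcont : Continuous fun y => 1 + P.av (fun q => (l q : ℝ)) y :=
    continuous_const.add (P.continuous_av _)
  refine ⟨fun y => 1 + P.av (fun q => (l q : ℝ)) y, hcont, fun y => le_add_of_nonneg_right
    ((P.av_const 0 y).ge.trans (P.av_mono fun q _ => (l q).cast_nonneg)), fun t => ?_,
    fun g => ⟨c g, fun y => ?_⟩, fun K hK => ?_⟩
  · refine ((hl ⌈t⌉₊).isCompact_biUnion fun q _ =>
      P.compact.image (a q.out).continuous).of_isClosed_subset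
        (isClosed_le hcont continuous_const) fun y hy => ?_
    by_contra hn
    have : t ≤ P.av (fun q => (l q : ℝ)) y := (P.av_const t y).ge.trans (P.av_mono fun q hq => by
      by_contra h
      exact hn (mem_biUnion (show l q ≤ ⌈t⌉₊ by
        exact_mod_cast (not_le.1 h).le.trans (Nat.le_ceil t)) (P.supp q y hq)))
    have hy' : 1 + P.av (fun q => (l q : ℝ)) y ≤ t := hy
    linarith
  · rw [add_sub_add_left_eq_sub, P.av_act, ← P.av_sub]
    exact P.abs_av_le fun q _ => hc1 g q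
  · obtain ⟨b, hb⟩ :=
      ((P.lf.finite_nonempty_inter_compact hK).image fun q => c q.out).bddAbove
    have key : ∀ g : G, ∀ y ∈ K, |P.av (fun q => (l q : ℝ)) (a g y) - l g| ≤ b := fun g y hy => by
      rw [P.av_act, ← P.av_const (l g : ℝ) y, ← P.av_sub]
      refine P.abs_av_le fun q hq => le_trans ?_ (hb ⟨q, ⟨y, hq, hy⟩, rfl⟩)
      rw [← MulAction.Quotient.mk_smul_out H g q]
      exact hc2 q.out g
    refine ⟨2 * b, fun g y hy y' hy' => ?_⟩
    have h1 := abs_le.1 (key g y hy)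
    have h2 := abs_le.1 (key g y' hy')
    exact abs_le.2 ⟨by linarith, by linarith⟩

end Pool.Agent.P.MP_f05dbc_gt
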