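import Pool.Agent.P.MP_f05dbc_gt.Step

/-!
Hirsch length, and the induction along a commensurated virtually polycyclic subgroup.
-/

namespace Pool.Agent.P.MP_f05dbc_gt

open Subgroup

variable {G : Type*} [Group G]

theorem wf_of_fg (h : ∀ K : Subgroup G, K.FG) : WellFoundedGT (Subgroup G) := by
  refine wellFoundedGT_iff_monotone_chain_condition.2 fun a => ?_
  obtain ⟨s, hs⟩ := h (⨆ n, a n)
  have h1 : ∀ x ∈ s, ∃ n, x ∈ a n := fun x hx =>
    (mem_iSup_of_directed a.monotone.directed_le).1 (hs ▸ subset_closure hx)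
  choose! m hm using h1
  refine ⟨s.sup m, fun k hk => le_antisymm (a.monotone hk) ((le_iSup a k).trans ?_)⟩
  rw [← hs, closure_le]
  exact fun x hx => a.monotone (Finset.le_sup hx) (hm x hx)

theorem fg_map {H : Type*} [Group H] {K : Subgroup G} (h : K.FG) (φ : G →* H) : (K.map φ).FG := by
  classical
  obtain ⟨s, rfl⟩ := h
  exact ⟨s.image φ, by rw [MonoidHom.map_closure, Finset.coe_image]⟩

theorem VirtPolycyclic.of_surjective {H : Type*} [Group H] (h : VirtPolycyclic G) {φ : G →* H}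
    (hφ : Function.Surjective φ) : VirtPolycyclic H := by
  obtain ⟨h1, S, h2, h3⟩ := h
  refine ⟨fun K => ?_, S.map φ, ⟨ne_zero_of_dvd_ne_zero h2.index_ne_zero (S.index_map_dvd hφ)⟩,
    Group.isSolvable_of_surjective (φ.subgroupMap_surjective S)⟩
  rw [← map_comap_eq_self_of_surjective hφ K]
  exact fg_map (h1 _) φ

/-- The commutator subgroup inside the ambient group. -/
def der (A : Subgroup G) : Subgroup G := ⁅A, A⁆

theorem der_mono : Monotone (der (G := G)) := fun _ _ h => commutator_mono h h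

theorem der_iterate {H : Type*} [Group H] (φ : H →* G) (n : ℕ) :
    der^[n] φ.range = (derivedSeries H n).map φ := by
  induction n with
  | zero => exact φ.range_eq_map
  | succ n ih => rw [Function.iterate_succ_apply', ih, derivedSeries_succ, map_commutator, der]

theorem finite_of_der {N : Subgroup G} (hfg : ∀ K ≤ N, K.FG) (ht : ∀ x ∈ N, IsOfFinOrder x)
    (n : ℕ) : ∀ A ≤ N, der^[n] A = ⊥ → Finite A := by
  induction n with
  | zero =>
    rintro _ - rfl
    infer_instance
  | succ n ih =>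
    intro A hA h
    have h1 : Finite (der A) := ih _ (A.commutator_le_self.trans hA) h
    rw [der, ← map_subtype_commutator] at h1
    have h2 : Finite (_root_.commutator A) :=
      Finite.of_equiv _ (equivMapOfInjective _ _ A.subtype_injective).symm.toEquiv
    have h3 : Group.FG A := (Group.fg_iff_subgroup_fg A).2 (hfg A hA)
    have h4 : Group.FG (Abelianization A) :=
      Group.fg_of_surjective (f := Abelianization.of) Quot.mk_surjective
    have h5 : Finite (Abelianization A) := CommGroup.finite_of_fg_isMulTorsion _ fun x => by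
      obtain ⟨y, rfl⟩ : ∃ y, Abelianization.of y = x := Quot.mk_surjective x
      exact MonoidHom.isOfFinOrder _ (Submonoid.isOfFinOrder_coe.1 (ht y (hA y.2)))
    have h6 : Finite (A ⧸ _root_.commutator A) := h5
    exact Finite.of_subgroup_quotient (_root_.commutator A)

theorem exists_comm (n : ℕ) : ∀ A : Subgroup G, A.Normal → A ≠ ⊥ → der^[n] A = ⊥ →
    ∃ B ≤ A, B.Normal ∧ B ≠ ⊥ ∧ der B = ⊥ := by
  induction n with
  | zero => exact fun A _ h0 h => absurd h h0
  | succ n ih =>
    intro A hA h0 h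
    by_cases h1 : der A = ⊥
    · exact ⟨A, le_rfl, hA, h0, h1⟩
    · obtain ⟨B, h2, h3⟩ := ih (der A) (commutator_normal A A) h1 h
      exact ⟨B, h2.trans A.commutator_le_self, h3⟩

theorem exists_bottom {N : Subgroup G} [hN : N.Normal] (h : VirtPolycyclic N) (h0 : N ≠ ⊥) :
    ∃ A ≤ N, A.Normal ∧ A ≠ ⊥ ∧ (Finite A ∨ ∃ (n : ℕ) (ι : Multiplicative (Fin n → ℤ) →* G),
      Function.Injective ι ∧ ∀ x, x ∈ A ↔ ∃ z, ι z = x) := by
  obtain ⟨h1, S, h2, n, h3⟩ := h
  have hfg : ∀ K ≤ N, K.FG := fun K hK => by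
    rw [← map_subgroupOf_eq_of_le hK]
    exact fg_map (h1 _) _
  have hS : der^[n] (S.map N.subtype) = ⊥ := by
    have := der_iterate (N.subtype.comp S.subtype) n
    rwa [h3, Subgroup.map_bot, MonoidHom.range_comp, range_subtype] at this
  have hA : normalClosure {y | ∃ x ∈ N, x ^ S.normalCore.index = y} ≤ S.map N.subtype := by
    refine (closure_le _).2 fun y hy => ?_
    obtain ⟨_, ⟨x, hx, rfl⟩, hc⟩ := Group.mem_conjugatesOfSet_iff.1 hy
    obtain ⟨g, rfl⟩ := isConj_iff.1 hc
    exact ⟨⟨_, hN.conj_mem x hx g⟩ ^ S.normalCore.index,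
      S.normalCore_le (S.normalCore.pow_index_mem _), conj_pow⟩
  by_cases hb : normalClosure {y | ∃ x ∈ N, x ^ S.normalCore.index = y} = ⊥
  · have h4 := finite_of_der hfg (fun x hx => isOfFinOrder_iff_pow_eq_one.2
      ⟨_, Nat.pos_of_ne_zero FiniteIndex.index_ne_zero,
        mem_bot.1 (hb.le (subset_normalClosure ⟨x, hx, rfl⟩))⟩) n _ (map_subtype_le S) hS
    have h5 : Finite S :=
      Finite.of_equiv _ (equivMapOfInjective _ _ N.subtype_injective).symm.toEquiv
    exact ⟨N, le_rfl, hN, h0, Or.inl (Finite.of_subgroup_quotient S)⟩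
  obtain ⟨B, hB, hBn, hB0, hBc⟩ := exists_comm n _ inferInstance hb
    (le_bot_iff.1 ((der_mono.iterate n hA).trans hS.le))
  have hBN : B ≤ N := hB.trans (hA.trans (map_subtype_le S))
  have hc : ∀ x ∈ B, ∀ y ∈ B, Commute x y := fun x hx y hy =>
    commutatorElement_eq_one_iff_commute.1 (mem_bot.1 (hBc.le (commutator_mem_commutator hx hy)))
  let T : Subgroup G :=
    { carrier := {x | x ∈ B ∧ IsOfFinOrder x}
      one_mem' := ⟨one_mem B, IsOfFinOrder.one⟩
      mul_mem' := fun hx hy => ⟨mul_mem hx.1 hy.1, (hc _ hx.1 _ hy.1).isOfFinOrder_mul hx.2 hy.2⟩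
      inv_mem' := fun hx => ⟨inv_mem hx.1, hx.2.inv⟩ }
  have hT : T ≤ B := fun x hx => hx.1
  by_cases ht : T = ⊥
  · let _ : CommGroup B := { (inferInstance : Group B) with
      mul_comm := fun x y => Subtype.ext (hc _ x.2 _ y.2) }
    have h4 : Group.FG B := (Group.fg_iff_subgroup_fg B).2 (hfg B hBN)
    have h5 : IsMulTorsionFree B := IsMulTorsionFree.of_not_isOfFinOrder fun x hx hx' =>
      hx (Subtype.ext (mem_bot.1 (ht.le ⟨x.2, Submonoid.isOfFinOrder_coe.2 hx'⟩)))
    have h6 : Module.Finite ℤ (Additive B) := Module.Finite.iff_addGroup_fg.2 inferInstance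
    let e := (Module.finBasis ℤ (Additive B)).equivFun.symm
    refine ⟨B, hBN, hBn, hB0, Or.inr ⟨_, MonoidHom.mk' (fun z => ((e z.toAdd).toMul : B))
      fun z w => by rw [toAdd_mul, map_add]; rfl, fun z w hzw => ?_, fun x => ⟨fun hx => ?_, ?_⟩⟩⟩
    · exact e.injective (Subtype.ext hzw)
    · obtain ⟨z, hz⟩ := e.surjective (Additive.ofMul ⟨x, hx⟩)
      exact ⟨Multiplicative.ofAdd z, congrArg (fun y : Additive B => ((y.toMul : B) : G)) hz⟩
    · rintro ⟨z, rfl⟩
      exact (e z.toAdd).toMul.2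
  · exact ⟨T, hT.trans hBN, ⟨fun x hx g => ⟨hBn.conj_mem x hx.1 g,
      (MulAut.conj g).toMonoidHom.isOfFinOrder hx.2⟩⟩, ht, Or.inl (finite_of_der
        (fun K hK => hfg K (hK.trans (hT.trans hBN))) (fun x hx => hx.2) 1 T le_rfl
          (le_bot_iff.1 ((der_mono hT).trans hBc.le)))⟩

/-- A rank function on subgroups that detects finite index. -/
def HL (G : Type*) [Group G] : Prop :=
  ∃ h : Subgroup G → ℕ, Monotone h ∧ ∀ A B, A ≤ B → h B ≤ h A → FinCos A B

theorem HL.of_ext {Q : Type*} [Group Q] (f : G →* Q) (hQ : HL Q) {h₁ : Subgroup G → ℕ}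
    (m₁ : Monotone h₁) (k₁ : ∀ A B, A ≤ B → B ≤ f.ker → h₁ B ≤ h₁ A → FinCos A B) : HL G := by
  obtain ⟨h₂, m₂, k₂⟩ := hQ
  refine ⟨fun A => h₁ (A ⊓ f.ker) + h₂ (A.map f), fun A B h =>
    add_le_add (m₁ (inf_le_inf_right _ h)) (m₂ (map_mono h)), fun A B h hle => ?_⟩
  simp only at hle
  have a1 := m₁ (inf_le_inf_right f.ker h)
  have a2 := m₂ (map_mono (f := f) h)
  have b1 := (k₁ _ _ (inf_le_inf_right f.ker h) inf_le_right (by omega)).of_le inf_le_left
  have b2 := ((k₂ _ _ (map_mono h) (by omega)).comap f).mono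
    (show (B : Set G) ⊆ _ from fun x hx => mem_map_of_mem f hx)
  refine FinCos.trans ?_ (b2.inf (finCos_self B))
  obtain ⟨F, hF, b1⟩ := b1
  refine ⟨F, hF, fun x hx => ?_⟩
  obtain ⟨a, ha, e⟩ := hx.1
  obtain ⟨k, hk, b3⟩ := b1 (x * a⁻¹) ⟨B.mul_mem hx.2 (B.inv_mem (h ha)), by simp [e]⟩
  exact ⟨k, hk, by simpa [mul_assoc] using mul_mem b3 ha⟩

theorem hl_lattice (n : ℕ) : HL (Multiplicative (Fin n → ℤ)) := by
  let τ : Subgroup (Multiplicative (Fin n → ℤ)) → Submodule ℤ (Fin n → ℤ) :=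
    fun A => (toAddSubgroup' A).toIntSubmodule
  refine ⟨fun A => Module.finrank ℤ (τ A), fun A B h => Submodule.finrank_mono h,
    fun A B h hle => ?_⟩
  have h1 : τ A ≤ τ B := h
  have := Submodule.finiteQuotientOfFreeOfRankEq ((τ A).submoduleOf (τ B))
    ((Submodule.submoduleOfEquivOfLe h1).finrank_eq.trans
      (le_antisymm (Submodule.finrank_mono h1) hle))
  refine ⟨_, Set.finite_range fun q : τ B ⧸ (τ A).submoduleOf (τ B) =>
    Multiplicative.ofAdd (q.out : Fin n → ℤ), fun x hx => ⟨_, ⟨Submodule.Quotient.mk ⟨x.toAdd, hx⟩,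
      rfl⟩, ?_⟩⟩
  have h2 := (Submodule.Quotient.eq _).1
    (Submodule.Quotient.mk_out (p := (τ A).submoduleOf (τ B))
      (Submodule.Quotient.mk ⟨x.toAdd, hx⟩)).symm
  rw [mul_comm]
  rw [sub_eq_add_neg] at h2
  exact h2

theorem VirtPolycyclic.hl (hG : VirtPolycyclic G) : HL G := by
  have hw := wf_of_fg hG.1
  have key : ∀ M : Subgroup G, ∀ [M.Normal], HL (G ⧸ M) := fun M => by
    induction M using (wellFounded_gt (α := Subgroup G)).induction with
    | _ M ih =>
    intro _
    by_cases h0 : (⊤ : Subgroup (G ⧸ M)) = ⊥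
    · exact ⟨0, monotone_const, fun A B _ _ => finCos_of_finite _
        ((Set.finite_singleton 1).subset fun x _ => mem_bot.1 (h0.le (mem_top x)))⟩
    have hπ := QuotientGroup.mk'_surjective M
    obtain ⟨A, -, hAn, hA0, hA'⟩ := exists_bottom (N := ⊤) ((hG.of_surjective hπ).of_surjective
      (φ := (topEquiv (G := G ⧸ M)).symm.toMonoidHom) (topEquiv (G := G ⧸ M)).symm.surjective) h0
    have h1 : M ≤ A.comap (QuotientGroup.mk' M) := QuotientGroup.le_comap_mk' M A
    have h3 := ih (A.comap (QuotientGroup.mk' M)) (lt_of_le_of_ne h1 fun h5 => hA0 (by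
      rw [← map_comap_eq_self_of_surjective hπ A, ← h5, QuotientGroup.map_mk'_self]))
    let f := QuotientGroup.map M (A.comap (QuotientGroup.mk' M)) (MonoidHom.id G) h1
    have hk : ∀ x, x ∈ f.ker → x ∈ A := fun x => by
      obtain ⟨g, rfl⟩ := QuotientGroup.mk_surjective x
      exact (QuotientGroup.eq_one_iff (N := A.comap (QuotientGroup.mk' M)) g).1
    rcases hA' with hA' | ⟨n, ι, hι, hι'⟩
    · exact h3.of_ext f (h₁ := 0) monotone_const fun _ _ _ hB _ => finCos_of_finite _
        ((Set.toFinite (A : Set (G ⧸ M))).subset fun x hx => hk x (hB hx))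
    · obtain ⟨h, hm, hh⟩ := hl_lattice n
      refine h3.of_ext f (h₁ := fun B => h (B.comap ι)) (fun _ _ e => hm (comap_mono e))
        fun B C hBC hC hle => (((hh _ _ (comap_mono hBC) hle).map ι).of_le
          (map_comap_le _ _)).mono fun x hx => ?_
      obtain ⟨z, rfl⟩ := (hι' x).1 (hk x (hC hx))
      exact ⟨z, hx, rfl⟩
  exact (key ⊥).of_ext (QuotientGroup.mk' ⊥) (h₁ := 0) monotone_const fun _ _ _ hB _ =>
    finCos_of_finite _ ((Set.finite_singleton 1).subset fun x hx => by simpa using hB hx)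

theorem exists_char {H : Subgroup G} (hH : H.FG) :
    ∃ (n : ℕ) (χ : H →* Multiplicative (Fin n → ℤ)), Function.Surjective χ ∧
      (∀ x : H, χ x = 1 ↔ ∃ k : ℕ, 0 < k ∧ (x : G) ^ k ∈ der H) ∧
      ((∀ x ∈ H, ∃ k : ℕ, 0 < k ∧ x ^ k ∈ der H) → FinCos (der H) H) := by
  have h3 : Group.FG H := (Group.fg_iff_subgroup_fg H).2 hH
  have hs : Function.Surjective (Abelianization.of (G := H)) := Quot.mk_surjective
  have h4 : Group.FG (Abelianization H) := Group.fg_of_surjective hs
  have h1 : ∀ x : H, Abelianization.of x = 1 ↔ (x : G) ∈ der H := fun x => by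
    rw [← MonoidHom.mem_ker, Abelianization.ker_of, der, ← map_subtype_commutator]
    exact (mem_map_iff_mem H.subtype_injective).symm
  have h2 : ∀ x : H, IsOfFinOrder (Abelianization.of x) ↔
      ∃ k : ℕ, 0 < k ∧ (x : G) ^ k ∈ der H := fun x => by
    simp only [isOfFinOrder_iff_pow_eq_one, ← map_pow, h1, SubmonoidClass.coe_pow]
  have h6 : Module.Finite ℤ (Additive (Abelianization H ⧸ CommGroup.torsion (Abelianization H))) :=
    Module.Finite.iff_addGroup_fg.2 inferInstance
  let e := (Module.finBasis ℤ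
    (Additive (Abelianization H ⧸ CommGroup.torsion (Abelianization H)))).equivFun
  let π := (QuotientGroup.mk' (CommGroup.torsion (Abelianization H))).comp Abelianization.of
  refine ⟨_, MonoidHom.mk' (fun x => Multiplicative.ofAdd (e (Additive.ofMul (π x))))
    fun x y => by rw [map_mul, ofMul_mul, map_add, ofAdd_add], fun z => ?_, fun x => ?_,
    fun h => ?_⟩
  · obtain ⟨x, hx⟩ := ((QuotientGroup.mk'_surjective _).comp hs) (e.symm z.toAdd).toMul
    refine ⟨x, ?_⟩
    show Multiplicative.ofAdd (e (Additive.ofMul (π x))) = z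
    rw [show π x = _ from hx]
    simp
  · rw [← h2, MonoidHom.mk'_apply, ofAdd_eq_one, e.map_eq_zero_iff, ofMul_eq_zero]
    exact QuotientGroup.eq_one_iff _
  · have h5 : Finite (Abelianization H) := CommGroup.finite_of_fg_isMulTorsion _ fun x => by
      obtain ⟨y, rfl⟩ := hs x
      exact (h2 y).2 (h y y.2)
    refine ((finCos_of_factor (H := (der H).comap H.subtype) (S := Set.univ) Abelianization.of
      (Set.toFinite _) fun x _ y _ e => (h1 (x⁻¹ * y)).1 ?_).map H.subtype).of_le (map_comap_le _ _) |>.mono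
        fun x hx => ⟨⟨x, hx⟩, trivial, rfl⟩
    rw [map_mul, map_inv, e, inv_mul_cancel]

theorem HasG.of_poly {e : Prop} {N : Subgroup G} (hN : VirtPolycyclic N) (h : HasG e N) :
    ∃ M : Subgroup G, (M : Set G).Finite ∧ HasG e M := by
  classical
  obtain ⟨r, hm, hr⟩ := hN.hl
  obtain ⟨h1, S, h2, n, h3⟩ := hN
  have hfg : ∀ K ≤ N, K.FG := fun K hK => by
    rw [← map_subgroupOf_eq_of_le hK]
    exact fg_map (h1 _) _
  have hS : der^[n] (S.map N.subtype) = ⊥ := by
    have := der_iterate (N.subtype.comp S.subtype) n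
    rwa [h3, Subgroup.map_bot, MonoidHom.range_comp, range_subtype] at this
  have hSN : FinCos (S.map N.subtype) N := ((finCos_of_finiteIndex S Set.univ).map _).mono
    fun x hx => ⟨⟨x, hx⟩, trivial, rfl⟩
  have hr' : ∀ A B : Subgroup G, A ≤ B → B ≤ N → r (B.subgroupOf N) ≤ r (A.subgroupOf N) →
      FinCos A B := fun A B hAB hB hle => (((hr _ _ (comap_mono hAB) hle).map N.subtype).of_le
    (map_comap_le _ _)).mono fun x hx => ⟨⟨x, hB hx⟩, hx, rfl⟩
  have hc : (N : Set G).Countable := by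
    obtain ⟨s, hs⟩ := hfg N le_rfl
    have : Group.FG N := (Group.fg_iff_subgroup_fg N).2 ⟨s, hs⟩
    obtain ⟨α, _, φ, hφ⟩ := Group.fg_iff_exists_freeGroup_hom_surjective_finite.1 this
    exact hφ.countable
  have key : ∀ k, ∀ M ≤ N, r (M.subgroupOf N) = k → HasG e M →
      ∃ M : Subgroup G, (M : Set G).Finite ∧ HasG e M := fun k => by
    induction k using Nat.strong_induction_on with
    | _ k ih =>
    rintro M hM rfl hG
    have hex : ∃ j, ∃ H ≤ M, FinCos H M ∧ r ((der H).subgroupOf N) = j :=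
      ⟨_, M, le_rfl, finCos_self M, rfl⟩
    obtain ⟨H, hHM, hH, hj⟩ := Nat.find_spec hex
    have hHN := hHM.trans hM
    have hmin : ∀ H' ≤ H, FinCos H' H → FinCos (der H') (der H) := fun H' a b =>
      hr' _ _ (der_mono a) (H.commutator_le_self.trans hHN)
        (hj.trans_le (Nat.find_min' hex ⟨H', a.trans hHM, b.trans hH, rfl⟩))
    have hG' := hG.of_le hHM hH
    obtain ⟨m, χ, hχ, hk, hfin⟩ := exists_char (hfg H hHN)
    obtain ⟨L, hL⟩ := exists_lat hG'.cms χ hχ fun g x y hxy hx => by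
      obtain ⟨a, ha, h4⟩ := (hk x).1 hx
      obtain ⟨b, hb, h5⟩ := (hmin _ inf_le_left ((finCos_self H).inf (hG'.cms.conj g))).exists_pow
      refine (hk y).2 ⟨a * b, mul_pos ha hb, ?_⟩
      have h6 := mem_map_of_mem (MulAut.conj g).toMonoidHom (h5 _ h4)
      rw [der, map_commutator] at h6
      have h7 := map_le_iff_le_comap.2 (inf_le_right (a := H)
        (b := H.comap (MulAut.conj g).toMonoidHom))
      rw [← hxy, conj_pow, pow_mul]
      exact commutator_mono h7 h7 h6
    have hLM := L.ker_le.trans hHM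
    rcases lt_or_ge (r (L.ker.subgroupOf N)) (r (M.subgroupOf N)) with hlt | hge
    · exact ih _ hlt _ (hLM.trans hM) rfl (hG'.of_lat (hc.mono hHN) L)
    obtain ⟨a, ha, h4⟩ := ((hr' _ _ hLM hM hge).mono hHM).exists_pow
    have h5 := hfin fun x hx => by
      obtain ⟨y, hy, e⟩ := hL.le (h4 x hx)
      obtain ⟨b, hb, h6⟩ := (hk y).1 hy
      exact ⟨a * b, mul_pos ha hb, by rwa [pow_mul, ← e]⟩
    have h6 : ∀ j, der^[j] (H ⊓ S.map N.subtype) ≤ H ∧
        FinCos (der^[j] (H ⊓ S.map N.subtype)) H := fun j => by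
      induction j with
      | zero => exact ⟨inf_le_left, (finCos_self H).inf (hSN.mono hHN)⟩
      | succ j ih =>
        rw [Function.iterate_succ_apply']
        exact ⟨(commutator_le_self _).trans ih.1, (hmin _ ih.1 ih.2).trans h5⟩
    exact ⟨H, ((h6 n).2.of_le ((der_mono.iterate n inf_le_right).trans hS.le)).finite
      (Set.finite_singleton 1), hG'⟩
  exact key _ N le_rfl rfl h

end Pool.Agent.P.MP_f05dbc_gt
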