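import Pool.Agent.P.MP_f05dbc_gt.BicDef
import Pool.Agent.P.MP_f05dbc_gt.Poly

/-!
The compactification of a proper metric space with a bicombing.
-/

namespace Pool.Agent.P.MP_f05dbc_gt

open Set Filter Topology Metric unitInterval

theorem finDim_of {Y X : Type} [MetricSpace Y] [CompactSpace Y] [TopologicalSpace X]
    (hX : FinDim X) {j : X → Y} (hj : Continuous j)
    (h : ∀ ε : ℝ, 0 < ε → ∃ f : Y → X, Continuous f ∧ ∀ y, dist (j (f y)) y < ε) : FinDim Y := by
  obtain ⟨m, hm⟩ := hX
  refine ⟨m, fun 𝒰 ho hc => ?_⟩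
  obtain ⟨δ, hδ, hL⟩ := lebesgue_number_lemma_of_metric_sUnion isCompact_univ ho hc.ge
  obtain ⟨f, hf, h⟩ := h _ (half_pos hδ)
  obtain ⟨𝒱, hV, hVc, hVm⟩ := hm (range fun y => j ⁻¹' ball y (δ / 2))
    (by rintro _ ⟨y, rfl⟩; exact isOpen_ball.preimage hj)
    (eq_univ_of_forall fun x => ⟨_, mem_range_self (j x), mem_ball_self (half_pos hδ)⟩)
  refine ⟨preimage f '' 𝒱, ?_, eq_univ_of_forall fun y => ?_, fun y => ?_⟩
  · rintro _ ⟨V, hV', rfl⟩
    obtain ⟨h1, _, ⟨y, rfl⟩, h2⟩ := hV V hV'
    obtain ⟨U, hU, h3⟩ := hL y (mem_univ y)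
    refine ⟨h1.preimage hf, U, hU, fun z hz => h3 (mem_ball.2 ?_)⟩
    linarith [dist_triangle_left z y (j (f z)), h z, mem_ball.1 (h2 hz)]
  · obtain ⟨V, hV, hy⟩ := mem_sUnion.1 (hVc.ge (mem_univ (f y)))
    exact ⟨_, ⟨V, hV, rfl⟩, hy⟩
  · refine (encard_le_encard ?_).trans ((encard_image_le (preimage f) _).trans (hVm (f y)))
    rintro _ ⟨⟨V, hV, rfl⟩, hy⟩
    exact ⟨V, ⟨hV, hy⟩, rfl⟩

theorem exists_delta {Y X : Type} [MetricSpace Y] [MetricSpace X] {K : Set X} (hK : IsCompact K)
    {f : X → Y} (hf : Continuous f) {ε : ℝ} (hε : 0 < ε) :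
    ∃ δ > 0, ∀ x ∈ K, ∀ y ∈ K, dist x y < δ → dist (f x) (f y) < ε :=
  Metric.uniformContinuousOn_iff.1 (hK.uniformContinuousOn_of_continuous hf.continuousOn) _ hε

/-- The parameter at which a geodesic of length `D` has travelled `r`. -/
noncomputable def tau (r D : ℝ) : I := projIcc 0 1 zero_le_one (r / D)

theorem tau_mul {r D : ℝ} (hD : 0 ≤ D) : tau r D * D = max 0 (min D r) := by
  rcases hD.eq_or_lt with rfl | hD
  · simp
  · rw [tau, coe_projIcc, max_mul_of_nonneg _ _ hD.le, min_mul_of_nonneg _ _ hD.le, zero_mul,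
      one_mul, div_mul_cancel₀ _ hD.ne']

variable {X : Type} [MetricSpace X]

/-- The point at distance `r` on the geodesic from `o` to `x`. -/
noncomputable def ray (β : X → X → I → X) (x o : X) (r : ℝ) : X := β o x (tau r (dist o x))

namespace IsBicombing

variable {β : X → X → I → X} (h : IsBicombing β)
include h

theorem dist_left (x y : X) (t : I) : dist x (β x y t) = t * dist x y := by
  have := h.geodesic x y 0 t
  rwa [h.zero, Icc.coe_zero, zero_sub, abs_neg, abs_of_nonneg t.2.1] at this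

theorem dist_ray (x o : X) (r : ℝ) : dist o (ray β x o r) = max 0 (min (dist o x) r) :=
  (h.dist_left _ _ _).trans (tau_mul dist_nonneg)

theorem dist_par (o x : X) (s t : I) :
    dist (β o x s) (β o x t) = |s * dist o x - t * dist o x| := by
  rw [h.geodesic, ← sub_mul, abs_mul, abs_of_nonneg dist_nonneg]

theorem ray_eq {x o : X} {r : ℝ} {t : I} (e : t * dist o x = max 0 (min (dist o x) r)) :
    ray β x o r = β o x t :=
  dist_eq_zero.1 ((h.dist_par _ _ _ _).trans (by rw [tau_mul dist_nonneg, e, sub_self, abs_zero]))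

theorem ray_self {x o : X} {r : ℝ} (hr : dist o x ≤ r) : ray β x o r = x :=
  (h.ray_eq (t := 1) (by rw [min_eq_left hr, max_eq_right dist_nonneg]; simp)).trans (h.one _ _)

theorem ray_lip (x o : X) (r r' : ℝ) : dist (ray β x o r) (ray β x o r') ≤ dist r r' := by
  rw [ray, ray, h.dist_par, tau_mul dist_nonneg, tau_mul dist_nonneg]
  refine (abs_max_sub_max_le_max _ _ _ _).trans (max_le (by simp) ?_)
  exact (abs_min_sub_min_le_max _ _ _ _).trans (max_le (by simp) le_rfl)

theorem ray_dist (x x' o : X) (r : ℝ) : ∃ t : ℝ, 0 ≤ t ∧ t ≤ 1 ∧ t * dist o x ≤ |r| ∧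
    dist (ray β x o r) (ray β x' o r) ≤ 3 * t * dist x x' := by
  obtain ⟨t, e, ht⟩ : ∃ t : I, t * dist o x = max 0 (min (dist o x) r) ∧
      ((t : ℝ) = 1 ∨ r ≤ dist o x) := by
    rcases le_total (dist o x) r with hr | hr
    · exact ⟨1, by rw [min_eq_left hr, max_eq_right dist_nonneg]; simp, Or.inl rfl⟩
    · exact ⟨_, tau_mul dist_nonneg, Or.inr hr⟩
  have h1 := h.conical o x o x' t
  have h2 := h.dist_par o x' t (tau r (dist o x'))
  have h3 := dist_triangle (β o x t) (β o x' t) (ray β x' o r)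
  have h5 := abs_le.1 (abs_dist_sub_le x x' o)
  have h6 := dist_nonneg (x := o) (y := x')
  obtain ⟨t0, t1⟩ := t.2
  rw [tau_mul dist_nonneg] at h2
  rw [dist_self, mul_zero, zero_add] at h1
  rw [dist_comm x o, dist_comm x' o] at h5
  have h8 : |t * dist o x' - max 0 (min (dist o x') r)| ≤ 2 * t * dist x x' := by
    have h9 := mul_le_mul_of_nonneg_left h5.1 t0
    have h10 := mul_le_mul_of_nonneg_left h5.2 t0
    have h11 := mul_le_of_le_one_left h6 t1
    have h12 := mul_nonneg t0 (dist_nonneg (x := x) (y := x'))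
    rw [abs_le]
    rcases ht with ht | ht
    · rw [ht] at e ⊢
      constructor <;> grind
    · constructor <;> grind
  refine ⟨t, t0, t1, e.trans_le (max_le (abs_nonneg r) ((min_le_right _ _).trans (le_abs_self r))),
    ?_⟩
  rw [h.ray_eq e]
  exact h3.trans (by rw [ray, h2]; linarith)

theorem ray_ray (x o o' : X) {r r' : ℝ} (hr : |r'| + dist o o' ≤ r) :
    dist (ray β (ray β x o r) o' r') (ray β x o' r') * (r - dist o o') ≤ 3 * |r'| * dist o o' := by
  have a0 := dist_nonneg (x := o) (y := o')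
  have r0 := abs_nonneg r'
  have r1 := le_abs_self r'
  rcases le_total (dist o x) r with hD | hD
  · rw [h.ray_self hD, dist_self, zero_mul]
    positivity
  have e := tau_mul (r := r) (dist_nonneg (x := o) (y := x))
  rw [min_eq_right hD, max_eq_right (by linarith)] at e
  rw [ray.eq_1 β x o]
  generalize tau r (dist o x) = t at e
  obtain ⟨t0, t1⟩ := t.2
  have h1 := h.conical o' x o x t
  have h2 := h.dist_left o' x t
  have h3 : r - dist o o' ≤ t * dist o' x := by nlinarith [dist_triangle o o' x]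
  have h4 := mul_le_of_le_one_left (dist_nonneg (x := o') (y := x)) t1
  have h5 : ray β x o' r' = ray β (β o' x t) o' r' := by
    rw [ray.eq_1 β (β o' x t), h.consistent]
    refine h.ray_eq ?_
    rw [Icc.coe_mul, mul_right_comm, mul_comm, ← h2, tau_mul dist_nonneg, h2,
      min_eq_right (by linarith), min_eq_right (by linarith)]
  obtain ⟨u, u0, -, h6, h7⟩ := h.ray_dist (β o' x t) (β o x t) o' r'
  rw [dist_self, mul_zero, add_zero, dist_comm o' o] at h1
  rw [h5, dist_comm]
  have h8 : dist (β o' x t) (β o x t) ≤ dist o o' := by nlinarith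
  have h9 : u * (r - dist o o') ≤ |r'| := by nlinarith
  calc _ ≤ 3 * u * dist o o' * (r - dist o o') := by gcongr; linarith; exact h7.trans (by gcongr)
    _ = 3 * (u * (r - dist o o')) * dist o o' := by ring
    _ ≤ _ := by gcongr

theorem cont_ray (o : X) : Continuous fun p : X × ℝ => ray β p.1 o p.2 := by
  refine (LipschitzWith.of_dist_le_mul (K := 4) fun p q => ?_).continuous
  obtain ⟨u, u0, u1, -, h7⟩ := h.ray_dist p.1 q.1 o p.2
  have h1 : dist p.1 q.1 ≤ dist p q := le_max_left _ _
  have h2 : dist p.2 q.2 ≤ dist p q := le_max_right _ _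
  have h3 := mul_le_of_le_one_left (dist_nonneg (x := p.1) (y := q.1)) u1
  have h4 := dist_triangle (ray β p.1 o p.2) (ray β q.1 o p.2) (ray β q.1 o q.2)
  push_cast
  linarith [h.ray_lip q.1 o p.2 q.2]

theorem cont_ray' : Continuous (ray β) :=
  continuous_pi fun o => continuous_pi fun r => (h.cont_ray o).comp (Continuous.prodMk_left r)

end IsBicombing

/-- The compactification. -/
abbrev Cpt (β : X → X → I → X) : Type := closure (range (ray β))

/-- The inclusion into the compactification. -/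
noncomputable def toCpt (β : X → X → I → X) (x : X) : Cpt β :=
  ⟨ray β x, subset_closure (mem_range_self x)⟩

theorem Cpt.ind {β : X → X → I → X} {S : (X → ℝ → X) → Prop} (hS : IsClosed {F | S F})
    (h : ∀ x, S (ray β x)) (F : Cpt β) : S F :=
  closure_minimal (range_subset_iff.2 h) hS F.2

theorem Cpt.cont {β : X → X → I → X} (o : X) (r : ℝ) : Continuous fun F : Cpt β => F.1 o r :=
  (continuous_apply r).comp ((continuous_apply o).comp continuous_subtype_val)

open Classical in
/-- The contraction of the compactification to a base point. -/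
noncomputable def push (β : X → X → I → X) (o : X) (p : Cpt β × I) : Cpt β :=
  if p.2 = 0 then p.1 else toCpt β (p.1.1 o (1 / p.2 - 1))

namespace IsBicombing

variable {β : X → X → I → X} (h : IsBicombing β)
include h

theorem cont_toCpt : Continuous (toCpt β) := h.cont_ray'.subtype_mk _

theorem cpt_bd (F : Cpt β) (o : X) (r : ℝ) : dist o (F.1 o r) ≤ |r| :=
  Cpt.ind (S := fun F => dist o (F o r) ≤ |r|) (isClosed_le (by fun_prop) continuous_const)
    (fun x => (h.dist_ray x o r).trans_le
      (max_le (abs_nonneg r) ((min_le_right _ _).trans (le_abs_self r)))) F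

theorem cpt_eq (F : Cpt β) {o : X} {r : ℝ} (hr : dist o (F.1 o r) < r) :
    toCpt β (F.1 o r) = F := by
  have := h.cont_ray'
  refine Subtype.ext ((Cpt.ind (S := fun F => r ≤ dist o (F o r) ∨ ray β (F o r) = F)
    ((isClosed_le continuous_const (g := fun F : X → ℝ → X => dist o (F o r)) (by fun_prop)).union
      (isClosed_eq (f := fun F : X → ℝ → X => ray β (F o r)) (by fun_prop) continuous_id))
    (fun x => ?_) F).resolve_left hr.not_ge)
  rcases le_total (dist o x) r with hD | hD
  · exact Or.inr (by rw [h.ray_self hD])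
  · exact Or.inl (by rw [h.dist_ray, min_eq_right hD]; exact le_max_right _ _)

theorem cont_ev (o : X) : Continuous fun p : Cpt β × ℝ => p.1.1 o p.2 :=
  continuous_prod_of_continuous_lipschitzWith' _ 1
    (fun F => LipschitzWith.mk_one fun r r' => Cpt.ind
      (S := fun F => dist (F o r) (F o r') ≤ dist r r') (isClosed_le (by fun_prop) continuous_const)
      (fun x => h.ray_lip x o r r') F) fun r => Cpt.cont o r

theorem cont_push (o : X) : Continuous (push β o) := by
  refine continuous_iff_continuousAt.2 fun p => ?_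
  by_cases hp : p.2 = 0
  · rw [ContinuousAt, push, if_pos hp]
    refine tendsto_subtype_rng.2 (tendsto_pi_nhds.2 fun o' => tendsto_pi_nhds.2 fun r' => ?_)
    refine (((Cpt.cont o' r').comp continuous_fst).tendsto p).congr_dist ?_
    have a0 := dist_nonneg (x := o) (y := o')
    have r0 := abs_nonneg r'
    have h1 : Tendsto (fun q : Cpt β × I => 6 * |r'| * dist o o' * q.2) (𝓝 p) (𝓝 0) :=
      (show Continuous _ by fun_prop).tendsto' _ _ (by simp [hp])
    refine squeeze_zero' (Eventually.of_forall fun _ => dist_nonneg) ?_ h1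
    filter_upwards [(show ContinuousAt (fun q : Cpt β × I => (|r'| + dist o o' + 1) * q.2) p by
      fun_prop).eventually (gt_mem_nhds (a := 1 / 2) (by simp [hp]))] with q hq
    by_cases h0 : q.2 = 0
    · simp [push, h0]
    have h2 : 0 < (q.2 : ℝ) := q.2.2.1.lt_of_ne' fun e => h0 (Subtype.ext e)
    have h3 : |r'| + dist o o' ≤ 1 / q.2 - 1 := by
      rw [le_sub_iff_add_le, le_div_iff₀ h2]
      linarith
    have h4 := h.cont_ray o'
    have h5 := Cpt.ind (S := fun F => dist (ray β (F o (1 / q.2 - 1)) o' r') (F o' r') *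
      (1 / q.2 - 1 - dist o o') ≤ 3 * |r'| * dist o o') (isClosed_le (by
        exact ((h4.comp (Continuous.prodMk (by fun_prop) continuous_const)).dist
          (by fun_prop)).mul continuous_const) continuous_const)
      (fun x => h.ray_ray x o o' h3) q.1
    rw [push, if_neg h0, dist_comm]
    have h6 := mul_le_mul_of_nonneg_right h5 h2.le
    have h7 : (1 / q.2 - 1 - dist o o') * q.2 = 1 - (dist o o' + 1) * q.2 := by field_simp; ring
    rw [mul_assoc, h7] at h6
    have h8 := mul_le_mul_of_nonneg_left (show 1 / 2 ≤ 1 - (dist o o' + 1) * q.2 by nlinarith)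
      (dist_nonneg (x := ray β (q.1.1 o (1 / q.2 - 1)) o' r') (y := q.1.1 o' r'))
    change dist (ray β (q.1.1 o (1 / q.2 - 1)) o' r') (q.1.1 o' r') ≤ _
    linarith
  · have h0 : (p.2 : ℝ) ≠ 0 := fun e => hp (Subtype.ext e)
    refine ((h.cont_toCpt.comp (h.cont_ev o)).continuousAt.comp
      (f := fun q : Cpt β × I => (q.1, 1 / (q.2 : ℝ) - 1)) (by fun_prop (disch := exact h0))).congr ?_
    filter_upwards [continuousAt_snd.eventually_ne hp] with q hq
    exact (if_neg hq).symm

omit h in
theorem push_zero (o : X) (F : Cpt β) : push β o (F, 0) = F := if_pos rfl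

omit h in
theorem push_pos (o : X) (F : Cpt β) {t : I} (ht : t ≠ 0) :
    push β o (F, t) = toCpt β (F.1 o (1 / t - 1)) := if_neg ht

theorem push_one (o : X) (F : Cpt β) : push β o (F, 1) = toCpt β o := by
  have := h.cpt_bd F o 0
  rw [push_pos o F one_ne_zero, Icc.coe_one, div_one, sub_self,
    ← dist_le_zero.1 (this.trans_eq abs_zero)]

theorem push_ball {o : X} {δ : ℝ} {y : X} (hy : y ∈ ball o δ) (t : I) :
    push β o (toCpt β y, t) ∈ toCpt β '' ball o δ := by
  by_cases ht : t = 0
  · exact ⟨y, hy, by rw [ht, push_zero]⟩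
  · refine ⟨_, mem_ball'.2 ((h.dist_ray y o _).trans_lt ?_), (push_pos o (toCpt β y) ht).symm⟩
    exact max_lt (pos_of_mem_ball hy) ((min_le_left _ _).trans_lt (mem_ball'.1 hy))

theorem openEmb (o : X) : IsOpenEmbedding (toCpt β) := by
  refine .of_continuous_injective_isOpenMap h.cont_toCpt (fun x y e => ?_) fun U hU => ?_
  · have := congrArg (fun F : Cpt β => F.1 x (dist x y)) e
    exact (h.ray_self (by simp)).symm.trans (this.trans (h.ray_self le_rfl))
  · refine isOpen_iff_mem_nhds.2 ?_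
    rintro _ ⟨x, hx, rfl⟩
    have e : (toCpt β x).1 o (dist o x + 1) = x := h.ray_self (by linarith)
    have hc := (Cpt.cont (β := β) o (dist o x + 1)).continuousAt (x := toCpt β x)
    filter_upwards [hc.preimage_mem_nhds (hU.mem_nhds (e.symm ▸ hx)), hc.preimage_mem_nhds
      (isOpen_ball.mem_nhds (show _ ∈ ball o (dist o x + 1) by rw [e, mem_ball']; linarith))]
      with F h1 h2
    exact ⟨_, h1, h.cpt_eq F (mem_ball'.1 h2)⟩

theorem isZSet (o : X) : IsZSet (range (toCpt β))ᶜ :=
  ⟨(h.openEmb o).isOpen_range.isClosed_compl, ⟨push β o, h.cont_push o⟩, push_zero o,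
    fun F _ ht => not_not.2 ⟨_, (push_pos o F ht.ne').symm⟩⟩

theorem contractible (o : X) : ContractibleSpace (Cpt β) :=
  (contractible_iff_id_nullhomotopic _).2 ⟨toCpt β o, ⟨⟨⟨fun p => push β o p.swap,
    (h.cont_push o).comp continuous_swap⟩, push_zero o, h.push_one o⟩⟩⟩

theorem locContr (o : X) : LocallyContractibleSpace (Cpt β) := by
  intro F U hU
  have hc := h.cont_push
  obtain ⟨V, hV, W, hW, h1⟩ := mem_nhds_prod_iff.1
    (((hc o).tendsto' (F, 0) F (push_zero o F)).eventually (eventually_mem_nhds_iff.2 hU))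
  obtain ⟨ε, hε, hb⟩ := Metric.mem_nhds_iff.1 hW
  obtain ⟨s, s0, s1⟩ : ∃ s : I, s ≠ 0 ∧ (s : ℝ) < ε :=
    ⟨⟨min 1 (ε / 2), by positivity, min_le_left _ _⟩,
      fun e => (lt_min one_pos (half_pos hε)).ne' (congrArg Subtype.val e),
      (min_le_right _ _).trans_lt (half_lt_self hε)⟩
  have h2 : ∀ G ∈ V, ∀ t : I, U ∈ 𝓝 (push β o (G, t * s)) := fun G hG t =>
    h1 (mk_mem_prod hG (hb (show |((t * s : I) : ℝ) - 0| < ε by
      rw [sub_zero, abs_of_nonneg (t * s).2.1]
      exact (Icc.coe_mul t s).trans_lt ((mul_le_of_le_one_left s.2.1 t.2.2).trans_lt s1))))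
  have h3 := h2 F (mem_of_mem_nhds hV) 1
  rw [one_mul, push_pos o F s0] at h3
  obtain ⟨δ, hδ, h4⟩ := Metric.mem_nhds_iff.1 (h.cont_toCpt.continuousAt.preimage_mem_nhds h3)
  let c := F.1 o (1 / s - 1)
  refine ⟨V ∩ {G | G.1 o (1 / s - 1) ∈ ball c δ}, fun G hG => ?_, inter_mem hV
    ((Cpt.cont o _).continuousAt.preimage_mem_nhds (ball_mem_nhds _ hδ)),
    null_of _ (fun p => push β c (push β o (p.2, projIcc 0 1 zero_le_one (2 * p.1 : ℝ) * s),
      projIcc 0 1 zero_le_one (2 * p.1 - 1 : ℝ))) ((hc c).comp (((hc o).comp ?_).prodMk ?_))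
      (fun G => ?_) (h4 (mem_ball_self hδ)) (fun G => ?_) fun p => ?_⟩
  · simpa [push_zero] using mem_of_mem_nhds (h2 G hG.1 0)
  · fun_prop
  · fun_prop
  · rw [projIcc_of_le_left _ (x := 2 * _) (by simp), projIcc_of_le_left _ (by simp)]
    exact (push_zero _ _).trans (by simp [push_zero])
  · rw [projIcc_of_right_le _ (x := 2 * _ - 1) (by norm_num)]
    exact h.push_one _ _
  · rcases le_total (2 * p.1 : ℝ) 1 with hp | hp
    · rw [projIcc_of_le_left _ (x := 2 * _ - 1) (by linarith)]
      exact mem_of_eq_of_mem (push_zero _ _) (mem_of_mem_nhds (h2 _ p.2.2.1 _))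
    · rw [projIcc_of_right_le _ hp, show (⟨1, right_mem_Icc.2 zero_le_one⟩ : I) * s = s from
        one_mul s, push_pos o _ s0]
      exact image_subset_iff.2 h4 (h.push_ball p.2.2.2 _)

theorem compact [ProperSpace X] : CompactSpace (Cpt β) :=
  isCompact_iff_compactSpace.1 ((isCompact_univ_pi fun o => isCompact_univ_pi fun r =>
    isCompact_closedBall o |r|).of_isClosed_subset isClosed_closure fun F hF o _ r _ =>
      mem_closedBall'.2 (h.cpt_bd ⟨F, hF⟩ o r))

theorem metrizable [ProperSpace X] (o : X) : TopologicalSpace.MetrizableSpace (Cpt β) := by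
  have := h.compact
  refine (Continuous.isClosedEmbedding (f := fun (F : Cpt β) (n : ℕ) => F.1 o n)
    (continuous_pi fun n => Cpt.cont o n) fun F F' e => ?_).isEmbedding.metrizableSpace
  have h1 : Tendsto (fun n : ℕ => (⟨1 / (n + 1), by positivity, by
      rw [div_le_one (by positivity)]; linarith⟩ : I)) atTop (𝓝 0) :=
    tendsto_subtype_rng.2 tendsto_one_div_add_atTop_nhds_zero_nat
  have h2 : ∀ F : Cpt β, Tendsto (fun n : ℕ => toCpt β (F.1 o n)) atTop (𝓝 F) := fun F =>
    (((h.cont_push o).tendsto' (F, 0) F (push_zero o F)).comp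
      (tendsto_const_nhds.prodMk_nhds h1)).congr fun n =>
        (push_pos o F fun e => (Nat.one_div_pos_of_nat (α := ℝ)).ne'
          (congrArg Subtype.val e)).trans (by simp)
  exact tendsto_nhds_unique (h2 F) ((h2 F').congr fun n => congrArg _ (congrFun e n).symm)

theorem exists_near [ProperSpace X] (o : X) :
    letI := @TopologicalSpace.metrizableSpaceMetric _ _ (h.metrizable o)
    ∀ ε : ℝ, 0 < ε → ∃ r : ℝ, ∀ F : Cpt β, dist (toCpt β (F.1 o r)) F < ε := by
  let := @TopologicalSpace.metrizableSpaceMetric _ _ (h.metrizable o)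
  intro ε hε
  have := h.compact
  have h1 : ∀ᶠ t : I in 𝓝 0, ∀ F ∈ univ, dist (push β o (F, t)) F < ε :=
    isCompact_univ.eventually_forall_of_forall_eventually fun F _ =>
      (((h.cont_push o).comp continuous_swap).dist continuous_snd).continuousAt.eventually
        (gt_mem_nhds (by simpa [push_zero] using hε))
  have := nhdsGT_neBot_of_exists_gt (a := (0 : I)) ⟨1, zero_lt_one⟩
  obtain ⟨t, ht, h2⟩ := ((h1.filter_mono (nhdsWithin_le_nhds (s := Ioi 0))).and
    self_mem_nhdsWithin).exists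
  exact ⟨_, fun F => push_pos o F h2.ne' ▸ ht F (mem_univ F)⟩

theorem isER [ProperSpace X] (o : X) (hX : FinDim X) : IsER (Cpt β) := by
  let := @TopologicalSpace.metrizableSpaceMetric _ _ (h.metrizable o)
  have := h.compact
  exact ⟨this, h.metrizable o, finDim_of hX h.cont_toCpt fun ε hε => (h.exists_near o ε hε).elim
    fun r hr => ⟨_, Cpt.cont o r, hr⟩, h.contractible o, h.locContr o⟩

theorem hasG [ProperSpace X] {G : Type*} [Group G] [MulAction G X] [IsIsometricSMul G X]
    (he : ∀ (g : G) x y t, g • β x y t = β (g • x) (g • y) t) (hX : FinDim X) (o : X)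
    (hc : ∃ R : ℝ, ∀ x, ∃ g : G, dist (g • x) o ≤ R)
    (hd : ∀ R : ℝ, {x ∈ MulAction.orbit G o | dist x o ≤ R}.Finite) :
    HasG True (MulAction.stabilizer G o) := by
  let := @TopologicalSpace.metrizableSpaceMetric _ _ (h.metrizable o)
  let a : G →* (X ≃ₜ X) := homOf (fun g x => g • x) (fun g => continuous_const_smul g)
    (one_smul G) mul_smul
  let e : X ≃ₜ ↥(range (toCpt β))ᶜᶜ := (h.openEmb o).isEmbedding.toHomeomorph.trans
    (Homeomorph.setCongr (compl_compl _).symm)
  have hfc : ∀ R : ℝ, FinCos (MulAction.stabilizer G o) {g | dist (g • o) o ≤ R} := fun R =>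
    finCos_of_factor (fun g => g • o) ((hd R).subset (by
      rintro _ ⟨g, hg, rfl⟩
      exact ⟨⟨g, rfl⟩, hg⟩)) fun x _ y _ e => by
        rw [MulAction.mem_stabilizer_iff, mul_smul, ← e, inv_smul_smul]
  have hr : ∀ (g : G) x, ray β (g • x) = fun o r => g • ray β x (g⁻¹ • o) r := fun g x => by
    ext o r
    rw [ray, ray, he, smul_inv_smul, ← dist_smul g (g⁻¹ • o), smul_inv_smul]
  have hb : ∀ g : G, Continuous fun (F : X → ℝ → X) o r => g • F (g⁻¹ • o) r := fun g => by
    fun_prop
  refine ⟨Cpt β, inferInstance, (range (toCpt β))ᶜ, cj e a, isRelGeom_of (h.isER o hX)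
    (h.isZSet o) (Fix.cj (fun K hK => ?_) e) (Prp.cj (fun K L hK hL => ?_) e) (Ccp.cj ?_ e)
    fun C hC ε hε => ?_, fun _ => ⟨homOf (fun g F => ⟨_, map_mem_closure (hb g) F.2 ?_⟩)
      (fun g => ((hb g).comp continuous_subtype_val).subtype_mk _)
      (fun F => by simp) fun g k F => by simp [mul_smul], fun g x => ?_⟩⟩
  · obtain ⟨R, hR⟩ := hK.isBounded.subset_closedBall o
    refine ⟨_, fun x => max 0 (R + 1 - dist x o), finCos_self _, by fun_prop,
      .intro (isCompact_closedBall o (R + 1)) fun x hx => max_eq_left ?_,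
      fun x hx => (lt_max_of_lt_right ?_).ne', fun g hg x => ?_⟩
    · linarith [(not_le (a := dist x o)).1 hx]
    · linarith [mem_closedBall.1 (hR hx)]
    · change max 0 (R + 1 - dist (g • x) o) = max 0 (R + 1 - dist x o)
      rw [← dist_smul g x o, MulAction.mem_stabilizer_iff.1 hg]
  · obtain ⟨R, hR⟩ := hK.isBounded.subset_closedBall o
    obtain ⟨R', hR'⟩ := hL.isBounded.subset_closedBall o
    refine (hfc (R + R')).mono ?_
    rintro g ⟨_, ⟨x, hx, rfl⟩, hl⟩
    refine (dist_triangle_left _ _ (g • x)).trans (add_le_add ?_ (hR' hl))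
    exact (dist_smul g x o).trans_le (hR hx)
  · exact hc.elim fun R hR => ⟨_, isCompact_closedBall o R, hR⟩
  · obtain ⟨r, h1⟩ := h.exists_near o _ (show 0 < ε / 3 by positivity)
    obtain ⟨δ, hδ, h2⟩ := exists_delta (isCompact_closedBall o |r|) h.cont_toCpt
      (show 0 < ε / 3 by positivity)
    obtain ⟨R, hR⟩ := (hC.image e.symm.continuous).isBounded.subset_closedBall o
    refine (hfc (R + 6 * |r| * R / δ)).mono ?_
    rintro g ⟨x, hx, x', hx', h3⟩
    by_contra hg
    have h4 := hR ⟨x, hx, rfl⟩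
    have h5 := hR ⟨x', hx', rfl⟩
    change ε ≤ dist (toCpt β (g • e.symm x)) (toCpt β (g • e.symm x')) at h3
    generalize e.symm x = y, e.symm x' = y' at h3 h4 h5
    obtain ⟨t, t0, -, h6, h7⟩ := h.ray_dist (g • y) (g • y') o r
    have h8 := dist_triangle_right y y' o
    have h9 := dist_triangle (g • o) (g • y) o
    rw [dist_smul, dist_comm o y, dist_comm (g • y)] at h9
    rw [dist_smul] at h7
    rw [mem_closedBall] at h4 h5
    have h10 : 6 * |r| * R < dist o (g • y) * δ :=
      (div_lt_iff₀ hδ).1 (by linarith [(not_le (a := dist (g • o) o)).1 hg])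
    have h11 : dist (ray β (g • y) o r) (ray β (g • y') o r) < δ := by
      have h12 : 0 ≤ R := dist_nonneg.trans h4
      refine lt_of_mul_lt_mul_left (a := dist o (g • y)) (lt_of_le_of_lt ?_ h10) dist_nonneg
      calc _ ≤ dist o (g • y) * (3 * t * (2 * R)) := by
            gcongr
            exact h7.trans (by gcongr; linarith)
        _ = 6 * (t * dist o (g • y)) * R := by ring
        _ ≤ _ := by gcongr
    have h13 := h2 _ (mem_closedBall'.2 (h.cpt_bd (toCpt β (g • y)) o r)) _
      (mem_closedBall'.2 (h.cpt_bd (toCpt β (g • y')) o r)) h11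
    have h14 := dist_triangle4_left (toCpt β ((toCpt β (g • y)).1 o r))
      (toCpt β ((toCpt β (g • y')).1 o r)) (toCpt β (g • y)) (toCpt β (g • y'))
    linarith [h1 (toCpt β (g • y)), h1 (toCpt β (g • y'))]
  · rintro _ ⟨x, rfl⟩
    exact ⟨_, hr g x⟩
  · obtain ⟨x, rfl⟩ := e.surjective x
    rw [cj_apply]
    exact Subtype.ext (hr g x).symm

end IsBicombing

end Pool.Agent.P.MP_f05dbc_gt
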