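import Mathlib

/-!
Geodesic bicombings.
-/

namespace Pool.Agent.P.MP_f05dbc_gt

/-- `β x y` is a constant speed geodesic from `x` to `y`; the selection is conical, and initial
segments of selected geodesics are selected. -/
structure IsBicombing {X : Type*} [MetricSpace X] (β : X → X → unitInterval → X) : Prop where
  zero : ∀ x y, β x y 0 = x
  one : ∀ x y, β x y 1 = y
  geodesic : ∀ x y s t, dist (β x y s) (β x y t) = |(s : ℝ) - t| * dist x y
  conical : ∀ x y x' y' t, dist (β x y t) (β x' y' t) ≤ (1 - t) * dist x x' + t * dist y y'
  consistent : ∀ x y s t, β x (β x y s) t = β x y (s * t)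

end Pool.Agent.P.MP_f05dbc_gt
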