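import Pool.Agent.P.MP_f05dbc_gt.Asm

/-!
The case of a normal subgroup.
-/

namespace Pool.Agent.P.MP_f05dbc_gt

open Set

variable {G : Type*} [Group G] {N : Subgroup G} [N.Normal] {Y : Type} [TopologicalSpace Y]
  {Z : Set Y} {b : (G ⧸ N) →* (↥Zᶜ ≃ₜ ↥Zᶜ)}

theorem IsGeom.coGeom (h : IsGeom Z b) : IsCoGeom N Z (b.comp (QuotientGroup.mk' N)) := by
  have k : ∀ {A : Set (G ⧸ N)}, A.Finite → FinCos N (QuotientGroup.mk ⁻¹' A) := fun hA =>
    finCos_iff.2 (hA.subset (image_preimage_subset _ _))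
  refine ⟨h.er, h.zset, fun K hK => ⟨K, hK, fun n hn x hx => ?_⟩,
    fun K L hK hL => k (h.proper K L hK hL), h.cocompact.imp fun K hK => ⟨hK.1, fun x => ?_⟩,
    fun C hC 𝒰 ho hu => k (h.null C hC 𝒰 ho hu)⟩
  · rwa [MonoidHom.comp_apply, QuotientGroup.mk'_apply, (QuotientGroup.eq_one_iff n).2 hn, act_one]
  · obtain ⟨q, hq⟩ := hK.2 x
    obtain ⟨g, rfl⟩ := QuotientGroup.mk_surjective q
    exact ⟨g, hq⟩

/-- Extensions of groups with Z-structures. -/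
theorem hasZ_of_normal (hG : HasModel G) (hN : HasZ N) (hQ : HasZ (G ⧸ N)) : HasZ G := by
  obtain ⟨X, _, Z₀, c, hc, -⟩ := hN
  obtain ⟨Y, _, Z, b, hb, -⟩ := hQ
  obtain ⟨W, _, Z₁, a, h1, h2, -⟩ := closure_top (e := False) hG hc hb.coGeom False.elim
  exact ⟨W, _, Z₁, a, h1, h2⟩

end Pool.Agent.P.MP_f05dbc_gt
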