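import Pool.Agent.P.MP_f05dbc_gt.Defs

/-!
Sets covered by finitely many cosets.
-/

namespace Pool.Agent.P.MP_f05dbc_gt

open Set

variable {G : Type*} [Group G] {H K N : Subgroup G} {S S' : Set G}

theorem finCos_of_factor {α : Type*} (φ : G → α) (h : (φ '' S).Finite)
    (h' : ∀ x ∈ S, ∀ y ∈ S, φ x = φ y → x⁻¹ * y ∈ H) : FinCos H S :=
  ⟨_, h.image (Function.invFunOn φ S), fun g hg => ⟨_, ⟨_, mem_image_of_mem φ hg, rfl⟩,
    h' _ (Function.invFunOn_mem ⟨g, hg, rfl⟩) _ hg (Function.invFunOn_eq ⟨g, hg, rfl⟩)⟩⟩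

theorem FinCos.image_mk (h : FinCos H S) : ((QuotientGroup.mk : G → G ⧸ H) '' S).Finite := by
  obtain ⟨F, hF, h⟩ := h
  refine (hF.image QuotientGroup.mk).subset ?_
  rintro _ ⟨g, hg, rfl⟩
  obtain ⟨f, hf, h⟩ := h g hg
  exact ⟨f, hf, QuotientGroup.eq.2 h⟩

theorem FinCos.mono (h : FinCos H S') (hs : S ⊆ S') : FinCos H S :=
  h.imp fun _ h => ⟨h.1, fun g hg => h.2 g (hs hg)⟩

theorem FinCos.of_le (h : FinCos H S) (hk : H ≤ K) : FinCos K S :=
  h.imp fun _ h => ⟨h.1, fun g hg => (h.2 g hg).imp fun _ h => ⟨h.1, hk h.2⟩⟩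

theorem finCos_self (H : Subgroup G) : FinCos H H :=
  ⟨{1}, finite_singleton _, fun g hg => ⟨1, rfl, by simpa using hg⟩⟩

theorem finCos_of_finite (H : Subgroup G) (h : S.Finite) : FinCos H S :=
  ⟨S, h, fun g hg => ⟨g, hg, by simp⟩⟩

theorem FinCos.smul {F : Set G} (hF : F.Finite) (h : FinCos H S)
    (hS : ∀ g ∈ S', ∃ f ∈ F, f⁻¹ * g ∈ S) : FinCos H S' := by
  obtain ⟨E, hE, h⟩ := h
  refine ⟨_, hF.image2 (· * ·) hE, fun g hg => ?_⟩
  obtain ⟨f, hf, h1⟩ := hS g hg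
  obtain ⟨e, he, h2⟩ := h _ h1
  exact ⟨f * e, mem_image2_of_mem hf he, by simpa [mul_assoc] using h2⟩

theorem FinCos.trans (h : FinCos H N) (h' : FinCos N S) : FinCos H S := by
  obtain ⟨F, hF, h'⟩ := h'
  exact h.smul hF h'

theorem FinCos.inf (h : FinCos H S) (h' : FinCos K S) : FinCos (H ⊓ K) S :=
  finCos_of_factor (fun x => ((x : G ⧸ H), (x : G ⧸ K)))
    ((h.image_mk.prod h'.image_mk).subset (by
      rintro _ ⟨x, hx, rfl⟩
      exact ⟨⟨x, hx, rfl⟩, x, hx, rfl⟩))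
    fun _ _ _ _ e => ⟨QuotientGroup.eq.1 (congrArg Prod.fst e),
      QuotientGroup.eq.1 (congrArg Prod.snd e)⟩

theorem FinCos.biInf {ι : Type*} {s : Set ι} (hs : s.Finite) {A : ι → Subgroup G}
    (h : ∀ i ∈ s, FinCos (A i) S) : FinCos (⨅ i ∈ s, A i) S := by
  induction s, hs using Set.Finite.induction_on with
  | empty => exact ⟨{1}, finite_singleton _, fun g _ => ⟨1, rfl, by simp⟩⟩
  | insert _ _ ih =>
    rw [iInf_insert]
    exact (h _ (mem_insert _ _)).inf (ih fun i hi => h i (mem_insert_of_mem _ hi))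

theorem FinCos.comap {G' : Type*} [Group G'] (h : FinCos H S) (c : G' →* G) :
    FinCos (H.comap c) (c ⁻¹' S) :=
  finCos_of_factor (fun x => (c x : G ⧸ H)) (h.image_mk.subset (by
      rintro _ ⟨x, hx, rfl⟩
      exact ⟨_, hx, rfl⟩))
    fun _ _ _ _ e => by simpa using QuotientGroup.eq.1 e

theorem FinCos.map {G' : Type*} [Group G'] (h : FinCos H S) (c : G →* G') :
    FinCos (H.map c) (c '' S) := by
  obtain ⟨F, hF, h⟩ := h
  refine ⟨_, hF.image c, ?_⟩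
  rintro _ ⟨g, hg, rfl⟩
  obtain ⟨f, hf, h⟩ := h g hg
  exact ⟨_, ⟨f, hf, rfl⟩, _, h, by simp⟩

theorem FinCos.subset_image2 (h : FinCos H S) :
    ∃ F : Set G, F.Finite ∧ S ⊆ image2 (· * ·) F H :=
  h.imp fun _ h => ⟨h.1, fun g hg => by
    obtain ⟨f, hf, h⟩ := h.2 g hg
    exact ⟨f, hf, _, h, mul_inv_cancel_left _ _⟩⟩

theorem FinCos.finite (h : FinCos H S) (hH : (H : Set G).Finite) : S.Finite := by
  obtain ⟨F, hF, h⟩ := h.subset_image2
  exact (hF.image2 _ hH).subset h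

theorem FinCos.countable (h : FinCos H S) (hH : (H : Set G).Countable) : S.Countable := by
  obtain ⟨F, hF, h⟩ := h.subset_image2
  exact (hF.countable.image2 hH _).mono h

theorem finCos_of_finiteIndex (H : Subgroup G) [H.FiniteIndex] (S : Set G) : FinCos H S :=
  finCos_of_factor (QuotientGroup.mk : G → G ⧸ H) (toFinite _) fun _ _ _ _ => QuotientGroup.eq.1

theorem FinCos.finiteIndex (h : FinCos H N) : (H.subgroupOf N).FiniteIndex := by
  have h1 := (h.comap N.subtype).image_mk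
  rw [show N.subtype ⁻¹' N = univ from eq_univ_of_forall fun x => x.2,
    image_univ, QuotientGroup.mk_surjective.range_eq, finite_univ_iff] at h1
  exact Subgroup.finiteIndex_iff_finite_quotient.2 h1

theorem FinCos.exists_pow (h : FinCos H N) : ∃ m : ℕ, 0 < m ∧ ∀ x ∈ N, x ^ m ∈ H :=
  ⟨(H.relIndex N).factorial, Nat.factorial_pos _, fun _ hx =>
    (Subgroup.pow_mem_of_relIndex_ne_zero_of_dvd h.finiteIndex.index_ne_zero hx
      fun _ h1 h2 => Nat.dvd_factorial h1 h2).1⟩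

end Pool.Agent.P.MP_f05dbc_gt
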