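import Pool.Agent.P.MP_f05dbc_gt.Avg

/-!
Coarse coordinates with respect to a commensurated subgroup.
-/

namespace Pool.Agent.P.MP_f05dbc_gt

open Set Filter Topology

variable {G : Type*} [Group G] {N : Subgroup G} {A B : Set G} {α β : Type*} {𝓕 : Filter α}
  {W W' : G → α → Prop}

theorem finCos_iff : FinCos N A ↔ ((QuotientGroup.mk : G → G ⧸ N) '' A).Finite :=
  ⟨FinCos.image_mk, fun h => finCos_of_factor _ h fun _ _ _ _ => QuotientGroup.eq.1⟩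

theorem FinCos.union (h : FinCos N A) (h' : FinCos N B) : FinCos N (A ∪ B) :=
  finCos_iff.2 (image_union _ _ _ ▸ h.image_mk.union h'.image_mk)

theorem FinCos.mul (hN : Cms N) (hA : FinCos N A) (hB : FinCos N B) :
    FinCos N {g | ∃ a ∈ A, a⁻¹ * g ∈ B} := by
  obtain ⟨F, hF, h1⟩ := hA
  obtain ⟨F', hF', h2⟩ := hB
  refine FinCos.smul hF (S := {g | ∃ n ∈ N, n⁻¹ * g ∈ B})
    (finCos_iff.2 ((hF'.biUnion fun f _ => (hN f).image_mk).subset ?_)) ?_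
  · rintro _ ⟨g, ⟨n, hn, hg⟩, rfl⟩
    obtain ⟨f, hf, h⟩ := h2 _ hg
    exact mem_biUnion hf ⟨n * f, ⟨n, hn, rfl⟩, QuotientGroup.eq.2 (by simpa [mul_assoc] using h)⟩
  · rintro g ⟨a, ha, hg⟩
    obtain ⟨f, hf, h⟩ := h1 a ha
    exact ⟨f, hf, _, h, by simpa [mul_assoc] using hg⟩

theorem FinCos.right (hN : Cms N) (hA : FinCos N A) :
    ∃ F : Set G, F.Finite ∧ ∀ a ∈ A, ∃ f ∈ F, a * f ∈ N := by
  obtain ⟨F, hF, h1⟩ := hA
  obtain ⟨F', hF', h2⟩ := (finCos_self N).mul hN (finCos_of_finite N hF.inv)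
  refine ⟨F', hF', fun a ha => ?_⟩
  obtain ⟨f, hf, h⟩ := h1 a ha
  obtain ⟨f', hf', h'⟩ := h2 a⁻¹ ⟨_, N.inv_mem h, by simpa using hf⟩
  exact ⟨f', hf', by simpa using N.inv_mem h'⟩

theorem finCos_coset (q : G ⧸ N) : FinCos N {g | (g : G ⧸ N) = q} :=
  finCos_iff.2 ((finite_singleton q).subset (by rintro _ ⟨g, hg, rfl⟩; exact hg))

/-- `W` is bounded on every coset. -/
def Pb (N : Subgroup G) (𝓕 : Filter α) (W : G → α → Prop) : Prop :=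
  ∀ q : G ⧸ N, ∀ᶠ x in 𝓕, ∀ g : G, (g : G ⧸ N) = q → ¬ W g x

theorem Pb.mono (h : Pb N 𝓕 W) (h' : ∀ g x, W' g x → W g x) : Pb N 𝓕 W' := fun q =>
  (h q).mono fun x hx g hg hw => hx g hg (h' g x hw)

theorem Pb.or (h : Pb N 𝓕 W) (h' : Pb N 𝓕 W') : Pb N 𝓕 fun g x => W g x ∨ W' g x := fun q =>
  ((h q).and (h' q)).mono fun _ hx g hg hw => hw.elim (hx.1 g hg) (hx.2 g hg)

theorem Pb.fin (h : Pb N 𝓕 W) (hA : FinCos N A) : ∀ᶠ x in 𝓕, ∀ g ∈ A, ¬ W g x :=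
  ((eventually_all_finite hA.image_mk).2 fun q _ => h q).mono fun _ hx g hg =>
    hx _ ⟨g, hg, rfl⟩ g rfl

theorem Pb.bind (hN : Cms N) (hB : FinCos N B) (h : Pb N 𝓕 W) :
    Pb N 𝓕 fun g x => ∃ r ∈ B, W (g * r) x := fun q =>
  (h.fin ((finCos_coset q).mul hN hB)).mono fun _ hx g hg ⟨r, hr, hw⟩ =>
    hx _ ⟨g, hg, by simpa using hr⟩ hw

theorem Pb.left (h : Pb N 𝓕 W) (g₀ : G) : Pb N 𝓕 fun g => W (g₀ * g) := fun q =>
  (h (g₀ • q)).mono fun _ hx g hg => hx _ (hg ▸ rfl)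

theorem pb_const {s : Set α} (h : sᶜ ∈ 𝓕) : Pb N 𝓕 fun _ x => x ∈ s := fun _ =>
  mem_of_superset h fun _ hx _ _ => hx

theorem Pb.comap (h : Pb N 𝓕 W) {𝓕' : Filter β} {φ : β → α} (hφ : Tendsto φ 𝓕' 𝓕) :
    Pb N 𝓕' fun g x => W g (φ x) := fun q => hφ.eventually (h q)

theorem Pb.image2 {γ : Type*} {V : G → γ → Prop} (hV : Pb N cofinite V) (h : Pb N 𝓕 W)
    {𝓕' : Filter β} {φ : γ → β → α} (hφ : ∀ r, Tendsto (φ r) 𝓕' 𝓕) :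
    Pb N 𝓕' fun g x => ∃ r, V g r ∧ W g (φ r x) := fun q =>
  ((eventually_all_finite (hV q)).2 fun r _ => (hφ r).eventually (h q)).mono
    fun _ hx g hg ⟨r, hr, hw⟩ => hx r (fun hn => hn g hg hr) g hg hw

theorem Pb.mul {V V' : G → G → Prop} (h : Pb N cofinite V) (h' : Pb N cofinite V') :
    Pb N cofinite fun g r => ∃ s, V g s ∧ V' g (s⁻¹ * r) :=
  h.image2 h' fun s => (mul_right_injective s⁻¹).tendsto_cofinite

theorem Pb.inv {V : G → G → Prop} (h : Pb N cofinite V) : Pb N cofinite fun g r => V g r⁻¹ :=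
  h.comap inv_injective.tendsto_cofinite

theorem exists_nu (hN : Cms N) : ∃ ν : G → N, Pb N cofinite fun g r => r = (ν g : G)⁻¹ * g := by
  choose F h1 h2 using fun q : G ⧸ N => (finCos_coset q).right hN
  choose f h3 h4 using fun g : G => h2 g g rfl
  refine ⟨fun g => ⟨_, h4 g⟩, fun q => mem_of_superset (h1 q).inv.compl_mem_cofinite ?_⟩
  rintro r hr g rfl rfl
  exact hr (by simpa using h3 g)

theorem exists_sigma (hN : Cms N) : ∃ s : N → G → G, (∀ n g, (s n g : G ⧸ N) = g) ∧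
    Pb N cofinite fun g r => ∃ n : N, r = (n : G)⁻¹ * s n g := by
  choose F h1 h2 using fun q : G ⧸ N => hN q.out
  choose f h3 h4 using fun (n : N) (q : G ⧸ N) => h2 q _ ⟨_, N.inv_mem n.2, rfl⟩
  refine ⟨fun n g => n * f n g, fun n g => (QuotientGroup.eq.2 (by
    simpa [mul_assoc] using h4 n g)).trans (QuotientGroup.out_eq' _),
    fun q => mem_of_superset (h1 q).compl_mem_cofinite ?_⟩
  rintro r hr g rfl ⟨n, rfl⟩
  exact hr (by simpa using h3 n g)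

theorem exists_mu (hN : Cms N) (g : G) : ∃ F : Set G, F.Finite ∧
    ∀ n : N, ∃ m m' : N, g * m = m' * g ∧ (m : G)⁻¹ * n ∈ F := by
  obtain ⟨F, hF, h⟩ := (hN.conj g).inf (finCos_self N)
  refine ⟨_, hF.inv, fun n => ?_⟩
  obtain ⟨f, hf, h1, h2⟩ := h _ (N.inv_mem n.2)
  exact ⟨⟨_, h2⟩⁻¹, ⟨_, h1⟩⁻¹, by simp [mul_assoc], by simpa using hf⟩

/-- A bounded relation. -/
def Rel (N : Subgroup G) (R : G → G → Prop) : Prop :=
  FinCos N {r | ∃ g, R g (g * r)} ∧ Pb N cofinite fun g r => R g (g * r)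

variable {T : Type} [TopologicalSpace T] {Γ : Type*} [Group Γ]

theorem Pb.compact {W : G → T → Prop} (h : Pb N (cocompact T) W) :
    ∃ C : G ⧸ N → Set T, (∀ q, IsCompact (C q)) ∧ ∀ (g : G) x, W g x → x ∈ C g := by
  choose C h1 h2 using fun q => mem_cocompact.1 (h q)
  exact ⟨C, h1, fun g x hx => not_not.1 fun hn => h2 _ hn g rfl hx⟩

theorem pb_of_compact {C : G ⧸ N → Set T} (h : ∀ q, IsCompact (C q)) :
    Pb N (cocompact T) fun g x => x ∈ C g := fun q =>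
  mem_of_superset (h q).compl_mem_cocompact fun _ hx _ hg hw => hx (hg ▸ hw)

/-- Proper discontinuity. -/
def Prp₀ (a : Γ →* (T ≃ₜ T)) : Prop :=
  ∀ K L : Set T, IsCompact K → IsCompact L → {g | (a g '' K ∩ L).Nonempty}.Finite

theorem Pb.meet {a : Γ →* (T ≃ₜ T)} (ha : Prp₀ a) {W W' : G → T → Prop}
    (h : Pb N (cocompact T) W) (h' : Pb N (cocompact T) W') :
    Pb N cofinite fun g r => ∃ x, W g (a r x) ∧ W' g x := by
  obtain ⟨C, h1, h2⟩ := h.compact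
  obtain ⟨C', h3, h4⟩ := h'.compact
  refine fun q => mem_of_superset (ha _ _ (h3 q) (h1 q)).compl_mem_cofinite ?_
  rintro r hr g rfl ⟨x, h5, h6⟩
  exact hr ⟨_, ⟨x, h4 g x h6, rfl⟩, h2 g _ h5⟩

theorem tendsto_act (a : Γ →* (T ≃ₜ T)) (g : Γ) : Tendsto (a g) (cocompact T) (cocompact T) :=
  (a g).map_cocompact.le

theorem exists_orb (a : Γ →* (T ≃ₜ T)) {F : Set Γ} (hF : F.Finite) {K : Set T}
    (hK : IsCompact K) : ∃ L, IsCompact L ∧ ∀ f ∈ F, ∀ x ∈ K, a f x ∈ L :=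
  ⟨_, hF.isCompact_biUnion fun f _ => hK.image (a f).continuous,
    fun _ hf _ hx => mem_biUnion hf (mem_image_of_mem _ hx)⟩

/-- Orbits of compact sets under `N` are relatively compact. -/
def Bdd (N : Subgroup G) (b : G →* (T ≃ₜ T)) : Prop :=
  ∀ K : Set T, IsCompact K → ∃ L, IsCompact L ∧ ∀ n ∈ N, ∀ x ∈ K, b n x ∈ L

theorem Bdd.orb {b : G →* (T ≃ₜ T)} (h : Bdd N b) (hA : FinCos N A) {K : Set T}
    (hK : IsCompact K) : ∃ L, IsCompact L ∧ ∀ g ∈ A, ∀ x ∈ K, b g x ∈ L := by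
  obtain ⟨F, hF, h1⟩ := hA
  obtain ⟨L, hL, h2⟩ := h K hK
  obtain ⟨L', h3, h4⟩ := exists_orb b hF hL
  refine ⟨L', h3, fun g hg x hx => ?_⟩
  obtain ⟨f, hf, h5⟩ := h1 g hg
  simpa only [← act_mul, mul_inv_cancel_left] using h4 f hf _ (h2 _ h5 x hx)

theorem Bdd.cms [Nonempty T] {b : G →* (T ≃ₜ T)} (h : Bdd N b) (hp : Prp N b) : Cms N := by
  obtain ⟨y⟩ := ‹Nonempty T›
  intro q
  obtain ⟨L, hL, h3⟩ := h _ (isCompact_singleton (x := y))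
  refine (hp {b q⁻¹ y} _ isCompact_singleton hL).mono ?_
  rintro _ ⟨n, hn, rfl⟩
  exact ⟨b n y, ⟨_, rfl, by rw [act_mul, act_inv']⟩, h3 n hn y rfl⟩

/-- A class of bounded families. -/
structure Crs (N : Subgroup G) {T : Type} (𝓑 : (G → Set T) → Prop) : Prop where
  mono : ∀ {S S'}, 𝓑 S → (∀ g, S' g ⊆ S g) → 𝓑 S'
  union : ∀ {S S'}, 𝓑 S → 𝓑 S' → 𝓑 fun g => S g ∪ S' g
  meet : ∀ {S S'}, 𝓑 S → 𝓑 S' → Rel N fun g g' => (S g ∩ S' g').Nonempty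
  star : ∀ {S R}, 𝓑 S → Rel N R → 𝓑 fun g => {x | ∃ g', R g g' ∧ x ∈ S g'}

/-- Bounded families in the model of `G`. -/
def BE (N : Subgroup G) (a : G →* (T ≃ₜ T)) (S : G → Set T) : Prop :=
  (∃ K, IsCompact K ∧ ∀ g, ∀ x ∈ S g, ∃ n ∈ N, a (g * n)⁻¹ x ∈ K) ∧
    Pb N (cocompact T) fun g x => a g x ∈ S g

theorem crs_BE (hN : Cms N) {a : G →* (T ≃ₜ T)} (ha : Prp₀ a) : Crs N (BE N a) where
  mono := fun ⟨⟨K, h1, h2⟩, h3⟩ h =>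
    ⟨⟨K, h1, fun g x hx => h2 g x (h g hx)⟩, h3.mono fun g _ hx => h g hx⟩
  union := fun ⟨⟨K, h1, h2⟩, h3⟩ ⟨⟨K', h4, h5⟩, h6⟩ =>
    ⟨⟨_, h1.union h4, fun g x hx => hx.elim (fun hx => (h2 g x hx).imp fun _ h => ⟨h.1, .inl h.2⟩)
      fun hx => (h5 g x hx).imp fun _ h => ⟨h.1, .inr h.2⟩⟩, h3.or h6⟩
  meet := by
    rintro S S' ⟨⟨K, h1, h2⟩, h3⟩ ⟨⟨K', h4, h5⟩, h6⟩
    have h7 : FinCos N {r | ∃ g, (S g ∩ S' (g * r)).Nonempty} := by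
      refine ((finCos_self N).mul hN ((finCos_of_finite N (ha _ _ h4 h1)).mul hN
        (finCos_self N))).mono ?_
      rintro r ⟨g, x, hx, hx'⟩
      obtain ⟨n, hn, k1⟩ := h2 g x hx
      obtain ⟨n', hn', k2⟩ := h5 _ x hx'
      refine ⟨n, hn, n⁻¹ * r * n', ⟨_, ⟨_, k2, rfl⟩, ?_⟩, by simpa [mul_assoc] using hn'⟩
      rwa [← act_mul, show n⁻¹ * r * n' * (g * r * n')⁻¹ = (g * n)⁻¹ by group]
    refine ⟨h7, (h3.meet ha (h6.bind hN h7)).mono ?_⟩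
    rintro g r ⟨x, hx, hx'⟩
    refine ⟨a (g * r)⁻¹ x, ?_, r, ⟨g, x, hx, hx'⟩, by rwa [act_inv']⟩
    rwa [← act_mul, act_inv']
  star := by
    rintro S R ⟨⟨K, h1, h2⟩, h3⟩ ⟨h4, h5⟩
    obtain ⟨F, hF, h6⟩ := (h4.mul hN (finCos_self N)).right hN
    obtain ⟨L, hL, h7⟩ := exists_orb a hF.inv h1
    refine ⟨⟨L, hL, ?_⟩, (h5.image2 (h3.bind hN h4) fun r => tendsto_act a r⁻¹).mono ?_⟩
    · rintro g x ⟨g', hR, hx⟩
      obtain ⟨n, hn, k1⟩ := h2 g' x hx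
      obtain ⟨f, hf, k2⟩ := h6 (g⁻¹ * g' * n) ⟨g⁻¹ * g', ⟨g, by simpa using hR⟩, by
        simpa [mul_assoc] using hn⟩
      refine ⟨_, k2, ?_⟩
      rw [show (g * (g⁻¹ * g' * n * f))⁻¹ = f⁻¹ * (g' * n)⁻¹ by group, act_mul]
      exact h7 _ (by simpa using hf) _ k1
    · rintro g x ⟨g', hR, hx⟩
      obtain ⟨r, rfl⟩ : ∃ r, g' = g * r := ⟨g⁻¹ * g', by simp⟩
      exact ⟨r, hR, r, ⟨g, hR⟩, by rwa [act_mul, act_inv']⟩

variable {X Y : Type} [TopologicalSpace X] [TopologicalSpace Y]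

/-- Bounded families in the product. -/
def BP (ν : G → N) (c : N →* (X ≃ₜ X)) (b : G →* (Y ≃ₜ Y)) (S : G → Set (X × Y)) : Prop :=
  (∃ L, IsCompact L ∧ ∀ g, ∀ w ∈ S g, b g⁻¹ w.2 ∈ L) ∧
    Pb N (cocompact X) fun g x => ∃ y, (c (ν g) x, y) ∈ S g

theorem crs_BP (hN : Cms N) {ν : G → N} (hν : Pb N cofinite fun g r => r = (ν g : G)⁻¹ * g)
    {c : N →* (X ≃ₜ X)} (hc : Prp₀ c) {b : G →* (Y ≃ₜ Y)} (hb : Prp N b) (hb' : Bdd N b) :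
    Crs N (BP ν c b) where
  mono := fun ⟨⟨K, h1, h2⟩, h3⟩ h =>
    ⟨⟨K, h1, fun g x hx => h2 g x (h g hx)⟩, h3.mono fun g _ hx => hx.imp fun _ hy => h g hy⟩
  union := fun ⟨⟨K, h1, h2⟩, h3⟩ ⟨⟨K', h4, h5⟩, h6⟩ =>
    ⟨⟨_, h1.union h4, fun g x hx => hx.imp (h2 g x) (h5 g x)⟩, (h3.or h6).mono
      fun _ _ ⟨y, hy⟩ => hy.imp (fun h => ⟨y, h⟩) fun h => ⟨y, h⟩⟩
  meet := by
    rintro S S' ⟨⟨K, h1, h2⟩, h3⟩ ⟨⟨K', h4, h5⟩, h6⟩
    have h7 : FinCos N {r | ∃ g, (S g ∩ S' (g * r)).Nonempty} := by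
      refine (hb _ _ h4 h1).mono ?_
      rintro r ⟨g, x, hx, hx'⟩
      refine ⟨_, ⟨_, h5 _ x hx', rfl⟩, ?_⟩
      rw [← act_mul, show r * (g * r)⁻¹ = g⁻¹ by group]
      exact h2 g x hx
    refine ⟨h7, (hν.inv.mul ((h3.meet hc (h6.bind hN h7)).image2 (hν.bind hN h7)
      fun s : N => (mul_right_injective (s : G)⁻¹).tendsto_cofinite)).mono ?_⟩
    rintro g r ⟨x, hx, hx'⟩
    refine ⟨g⁻¹ * ν g, by simp, (ν g)⁻¹ * ν (g * r), ⟨c (ν (g * r))⁻¹ x.1, ⟨x.2, ?_⟩, r,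
      ⟨g, x, hx, hx'⟩, x.2, by rwa [act_inv']⟩, r, ⟨g, x, hx, hx'⟩, by simp [mul_assoc]⟩
    rwa [← act_mul, mul_inv_cancel_left, act_inv']
  star := by
    rintro S R ⟨⟨K, h1, h2⟩, h3⟩ ⟨h4, h5⟩
    obtain ⟨L, hL, h6⟩ := hb'.orb h4 h1
    refine ⟨⟨L, hL, ?_⟩, (((hν.mul (h5.mul (hν.bind hN h4).inv)).comap
      (Subtype.val_injective (p := (· ∈ N))).tendsto_cofinite).image2 (h3.bind hN h4)
      fun s => tendsto_act c s⁻¹).mono ?_⟩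
    · rintro g x ⟨g', hR, hx⟩
      have := h6 (g⁻¹ * g') ⟨g, by simpa using hR⟩ _ (h2 g' x hx)
      rwa [← act_mul, mul_inv_cancel_right] at this
    · rintro g x ⟨y, g', hR, hx⟩
      obtain ⟨r, rfl⟩ : ∃ r, g' = g * r := ⟨g⁻¹ * g', by simp⟩
      refine ⟨(ν g)⁻¹ * ν (g * r), ⟨_, rfl, r, hR, r, ⟨g, hR⟩, by simp [mul_assoc]⟩, r, ⟨g, hR⟩,
        y, ?_⟩
      rwa [← act_mul, mul_inv_rev, inv_inv, mul_inv_cancel_left]

end Pool.Agent.P.MP_f05dbc_gt
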