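import Mathlib

/-!
Z-structures and EZ-structures on groups.
-/

namespace Pool.Agent.P.MP_f05dbc_gt

open Set

/-- Finite covering dimension: for some `m`, every open cover has an open refinement such that
every point lies in at most `m` members of the refinement. -/
def FinDim (X : Type) [TopologicalSpace X] : Prop :=
  ∃ m : ℕ, ∀ 𝒰 : Set (Set X), (∀ U ∈ 𝒰, IsOpen U) → ⋃₀ 𝒰 = univ →
    ∃ 𝒱 : Set (Set X), (∀ V ∈ 𝒱, IsOpen V ∧ ∃ U ∈ 𝒰, V ⊆ U) ∧ ⋃₀ 𝒱 = univ ∧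
      ∀ x, {V ∈ 𝒱 | x ∈ V}.encard ≤ m

/-- Euclidean retract: compact, metrizable, finite-dimensional, contractible, locally
contractible. -/
def IsER (X : Type) [TopologicalSpace X] : Prop :=
  CompactSpace X ∧ TopologicalSpace.MetrizableSpace X ∧ FinDim X ∧ ContractibleSpace X ∧
    LocallyContractibleSpace X

/-- Z-set: a closed set off which the space can be pushed instantly. -/
def IsZSet {X : Type} [TopologicalSpace X] (Z : Set X) : Prop :=
  IsClosed Z ∧ ∃ α : C(X × unitInterval, X), (∀ x, α (x, 0) = x) ∧ ∀ x t, 0 < t → α (x, t) ∉ Z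

section

variable {G : Type*} [Group G] {X : Type} [TopologicalSpace X] {Z : Set X}

/-- All conditions of a Z-structure except freeness: `X` is a Euclidean retract, `Z` a Z-set,
the action `a` of `G` on the complement of `Z` by homeomorphisms is properly discontinuous and
cocompact, and the nullity condition holds. -/
structure IsGeom (Z : Set X) (a : G →* (↥Zᶜ ≃ₜ ↥Zᶜ)) : Prop where
  er : IsER X
  zset : IsZSet Z
  proper : ∀ K L : Set ↥Zᶜ, IsCompact K → IsCompact L → {g | (a g '' K ∩ L).Nonempty}.Finite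
  cocompact : ∃ K : Set ↥Zᶜ, IsCompact K ∧ ∀ x, ∃ g, a g x ∈ K
  null : ∀ C : Set ↥Zᶜ, IsCompact C → ∀ 𝒰 : Set (Set X), (∀ U ∈ 𝒰, IsOpen U) → ⋃₀ 𝒰 = univ →
    {g | ¬ ∃ U ∈ 𝒰, ∀ x ∈ C, (a g x : X) ∈ U}.Finite

/-- The action is free. -/
def IsFree (a : G →* (↥Zᶜ ≃ₜ ↥Zᶜ)) : Prop := ∀ g x, a g x = x → g = 1

/-- The action extends to an action on `X` by homeomorphisms. -/
def Extends (a : G →* (↥Zᶜ ≃ₜ ↥Zᶜ)) : Prop :=
  ∃ b : G →* (X ≃ₜ X), ∀ g (x : ↥Zᶜ), b g x = a g x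

end

/-- `G` admits a Z-structure. -/
def HasZ (G : Type*) [Group G] : Prop :=
  ∃ (X : Type) (_ : TopologicalSpace X) (Z : Set X) (a : G →* (↥Zᶜ ≃ₜ ↥Zᶜ)),
    IsGeom Z a ∧ IsFree a

/-- `G` admits an EZ-structure. -/
def HasEZ (G : Type*) [Group G] : Prop :=
  ∃ (X : Type) (_ : TopologicalSpace X) (Z : Set X) (a : G →* (↥Zᶜ ≃ₜ ↥Zᶜ)),
    IsGeom Z a ∧ IsFree a ∧ Extends a

/-- `S` is contained in finitely many left cosets of `N`. -/
def FinCos {G : Type*} [Group G] (N : Subgroup G) (S : Set G) : Prop :=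
  ∃ F : Set G, F.Finite ∧ ∀ g ∈ S, ∃ f ∈ F, f⁻¹ * g ∈ N

/-- The conditions of `IsGeom` relative to a subgroup `N`: `finitely many elements` is replaced by
`finitely many cosets of N`, and for every compact set there is a continuous function with compact
support that does not vanish on it and is invariant under a subgroup of finite index in `N`. -/
structure IsRelGeom {G : Type*} [Group G] {X : Type} [TopologicalSpace X] (N : Subgroup G)
    (Z : Set X) (a : G →* (↥Zᶜ ≃ₜ ↥Zᶜ)) : Prop where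
  er : IsER X
  zset : IsZSet Z
  inv : ∀ K : Set ↥Zᶜ, IsCompact K → ∃ (H : Subgroup N) (ψ : ↥Zᶜ → ℝ), H.FiniteIndex ∧
    Continuous ψ ∧ HasCompactSupport ψ ∧ (∀ x ∈ K, ψ x ≠ 0) ∧ ∀ h ∈ H, ∀ x, ψ (a h x) = ψ x
  proper : ∀ K L : Set ↥Zᶜ, IsCompact K → IsCompact L → FinCos N {g | (a g '' K ∩ L).Nonempty}
  cocompact : ∃ K : Set ↥Zᶜ, IsCompact K ∧ ∀ x, ∃ g, a g x ∈ K
  null : ∀ C : Set ↥Zᶜ, IsCompact C → ∀ 𝒰 : Set (Set X), (∀ U ∈ 𝒰, IsOpen U) → ⋃₀ 𝒰 = univ →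
    FinCos N {g | ¬ ∃ U ∈ 𝒰, ∀ x ∈ C, (a g x : X) ∈ U}

/-- `G` admits a Z-structure relative to the subgroup `N`. -/
def HasRelZ {G : Type*} [Group G] (N : Subgroup G) : Prop :=
  ∃ (X : Type) (_ : TopologicalSpace X) (Z : Set X) (a : G →* (↥Zᶜ ≃ₜ ↥Zᶜ)), IsRelGeom N Z a

/-- `G` admits an EZ-structure relative to the subgroup `N`. -/
def HasRelEZ {G : Type*} [Group G] (N : Subgroup G) : Prop :=
  ∃ (X : Type) (_ : TopologicalSpace X) (Z : Set X) (a : G →* (↥Zᶜ ≃ₜ ↥Zᶜ)),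
    IsRelGeom N Z a ∧ Extends a

/-- Virtually polycyclic: all subgroups are finitely generated and there is a solvable subgroup
of finite index. -/
def VirtPolycyclic (N : Type*) [Group N] : Prop :=
  (∀ H : Subgroup N, H.FG) ∧ ∃ S : Subgroup N, S.FiniteIndex ∧ Group.IsSolvable S

end Pool.Agent.P.MP_f05dbc_gt
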