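import Pool.Agent.P.MP_f05dbc_gt.ER

/-!
Slowly growing proper functions adapted to a contraction.
-/

namespace Pool.Agent.P.MP_f05dbc_gt

open Set Filter Topology Metric

theorem exists_theta {τ : ℕ → ℝ} (h0 : ∀ j, 0 < τ j) (h1 : ∀ j, τ (j + 1) ≤ τ j / 2) :
    ∃ θ : ℝ → ℝ, Continuous θ ∧ θ 0 = 0 ∧
      ∀ (j : ℕ) (u : ℝ), (1 ≤ (j + 1) * u → τ j ≤ θ u) ∧ ((j + 1) * u ≤ 1 → θ u ≤ 2 * τ j) := by
  let c : ℕ → ℝ → ℝ := fun j u => τ j * max 0 (min 1 ((j + 1) * ((j + 2) * u - 1)))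
  have c0 : ∀ j u, 0 ≤ c j u := fun j u => mul_nonneg (h0 j).le (le_max_left _ _)
  have c1 : ∀ j u, c j u ≤ τ j := fun j u =>
    mul_le_of_le_one_right (h0 j).le (max_le zero_le_one (min_le_left _ _))
  have hs : Summable τ := summable_of_ratio_norm_eventually_le (r := 1 / 2) (by norm_num)
    (Eventually.of_forall fun j => by
      rw [Real.norm_of_nonneg (h0 _).le, Real.norm_of_nonneg (h0 _).le]
      linarith [h1 j])
  have c2 : ∀ (j : ℕ) (u : ℝ), (j + 2) * u ≤ 1 → c j u = 0 := fun j u h => by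
    simp only [c]
    rw [max_eq_left ((min_le_right _ _).trans (by nlinarith)), mul_zero]
  refine ⟨fun u => ∑' j, c j u, continuous_tsum (fun j => by fun_prop) hs fun j u =>
    (Real.norm_of_nonneg (c0 j u)).trans_le (c1 j u), by simp [c2], fun j u =>
    ⟨fun h => le_trans ?_ ((hs.of_nonneg_of_le (c0 · u) (c1 · u)).le_tsum j fun i _ => c0 i u),
      fun h => Real.tsum_le_of_sum_range_le (c0 · u) fun n => ?_⟩⟩
  · simp only [c]
    rw [min_eq_left (by nlinarith), max_eq_right zero_le_one, mul_one]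
  · suffices ∑ i ∈ Finset.range n, c i u + 2 * τ (max n j) ≤ 2 * τ j by linarith [h0 (max n j)]
    induction n with
    | zero => simp
    | succ n ih =>
      rw [Finset.sum_range_succ]
      rcases lt_or_ge n j with hn | hn
      · have : (n + 1 : ℝ) ≤ j := by exact_mod_cast hn
        rw [max_eq_right hn.le] at ih
        rw [max_eq_right hn, c2 n u (by rcases le_total u 0 with h | h <;> nlinarith)]
        linarith
      · rw [max_eq_left hn] at ih
        rw [max_eq_left (by omega)]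
        linarith [c1 n u, h1 n]

theorem exists_level {T : Type} [TopologicalSpace T] [NormalSpace T] {K : ℕ → Set T}
    (hc : ∀ j, IsClosed (K j)) (h1 : ∀ j, K j ⊆ interior (K (j + 1))) (h2 : ∀ x, ∃ j, x ∈ K j) :
    ∃ l : T → ℝ, Continuous l ∧ (∀ x, 1 ≤ l x) ∧
      ∀ (j : ℕ) x, (x ∈ K j → l x ≤ j + 1) ∧ (x ∉ K j → j + 1 ≤ l x) := by
  choose ψ p0 p1 p2 using fun j => exists_continuous_zero_one_of_isClosed (hc j)
    isOpen_interior.isClosed_compl (disjoint_compl_right_iff_subset.2 (h1 j))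
  have hm : Monotone K := monotone_nat_of_le_succ fun j => (h1 j).trans interior_subset
  have hf : ∀ j, ∀ x ∈ K j, ∑ᶠ i, ψ i x = ∑ i ∈ Finset.range j, ψ i x := fun j x hx =>
    finsum_eq_sum_of_support_subset _ fun i hi => by
      by_contra h
      exact hi (p0 i (hm (by simpa using h) hx))
  refine ⟨fun x => ∑ᶠ i, ψ i x + 1, (continuous_finsum (fun i => (ψ i).continuous)
    fun x => ?_).add continuous_const, fun x => le_add_of_nonneg_left
    (finsum_nonneg fun i => (p2 i x).1), fun j x => ⟨fun hx => ?_, fun hx => ?_⟩⟩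
  · obtain ⟨j, hj⟩ := h2 x
    refine ⟨_, mem_interior_iff_mem_nhds.1 (h1 j hj), (finite_le_nat (j + 1)).subset ?_⟩
    rintro i ⟨y, hy, hy'⟩
    by_contra h
    exact hy (p0 i (hm (not_le.1 h).le hy'))
  · simp only [hf j x hx]
    simpa using Finset.sum_le_card_nsmul (Finset.range j) _ 1 fun i _ => (p2 i x).2
  · obtain ⟨n, hn⟩ := h2 x
    have : j ≤ n := le_of_not_ge fun h => hx (hm h hn)
    simp only [hf n x hn, add_le_add_iff_right]
    refine le_trans ?_ (Finset.sum_le_sum_of_subset_of_nonneg (Finset.range_mono this)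
      fun i _ _ => (p2 i x).1)
    simpa using Finset.card_nsmul_le_sum (Finset.range j) (fun i => ψ i x) 1 fun i hi =>
      (p1 i fun h => hx (hm (Finset.mem_range.1 hi) (interior_subset h))).ge

variable {X : Type} [MetricSpace X] {Z : Set X}

/-- A proper function on the complement of `Z` and a contraction whose time parameter is the
inverse of the level. -/
structure Lev (Z : Set X) where
  l : ↥Zᶜ → ℝ
  k : X × ℝ → X
  cont_l : Continuous l
  one_le : ∀ x, 1 ≤ l x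
  compact : ∀ t, IsCompact {x | l x ≤ t}
  cont_k : Continuous k
  zero : ∀ x, k (x, 0) = x
  notMem : ∀ x u, 0 < u → k (x, u) ∉ Z
  one : ∀ x x', k (x, 1) = k (x', 1)
  up : ∀ x u (y : ↥Zᶜ), 0 < u → u ≤ 1 → k (x, u) = y → l y ≤ 1 / u + 3 ∧
    (∀ x' : ↥Zᶜ, x' = x → l y ≤ l x' + 3) ∧
    ∀ r, r ≤ 1 / u → (∀ x' : ↥Zᶜ, x' = x → r ≤ l x') → r ≤ l y + 3

theorem exists_lev [CompactSpace X] [ContractibleSpace X] (hZ : IsZSet Z)
    {P : ℕ → Set ↥Zᶜ → Set ↥Zᶜ → Prop}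
    (hP : ∀ j K, IsCompact K → ∃ K', IsCompact K' ∧ ∀ K'', K' ⊆ K'' → P j K K'') :
    ∃ (L : Lev Z) (K : ℕ → Set ↥Zᶜ), (∀ j, P j (K j) (K (j + 1))) ∧
      ∀ (j : ℕ) x, (x ∈ K j → L.l x ≤ j + 1) ∧ (x ∉ K j → j + 1 ≤ L.l x) := by
  obtain ⟨k, x₁, hk, k0, k1, k2⟩ := exists_push hZ
  have ho := hZ.1.isOpen_compl
  have := ho.locallyCompactSpace
  have step : ∀ (j : ℕ) (p : {p : Set ↥Zᶜ × ℝ // IsCompact p.1 ∧ 0 < p.2}),
      ∃ q : {p : Set ↥Zᶜ × ℝ // IsCompact p.1 ∧ 0 < p.2}, P j p.1.1 q.1.1 ∧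
        p.1.1 ⊆ interior q.1.1 ∧ compactCovering _ j ⊆ q.1.1 ∧ q.1.2 ≤ p.1.2 / 2 ∧
        (∀ x t (y : ↥Zᶜ), p.1.2 ≤ t → k (x, t) = y → y ∈ q.1.1) ∧
        ∀ t, 0 ≤ t → t ≤ 2 * q.1.2 → ∀ x,
          (x ∈ Subtype.val '' p.1.1 → k (x, t) ∈ Subtype.val '' q.1.1) ∧
          (k (x, t) ∈ Subtype.val '' p.1.1 → x ∈ Subtype.val '' q.1.1) := by
    rintro j ⟨⟨K, τ⟩, hK, hτ⟩
    obtain ⟨K₁, h1, h2⟩ := hP j K hK
    obtain ⟨K₂, h3, h4⟩ := exists_compact_superset hK
    have h5 : IsCompact (Subtype.val ⁻¹' (k '' univ ×ˢ Icc τ (max τ 1)) : Set ↥Zᶜ) :=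
      IsInducing.subtypeVal.isCompact_preimage' ((isCompact_univ.prod isCompact_Icc).image hk) (by
        rintro _ ⟨p, hp, rfl⟩
        exact ⟨⟨_, k1 _ _ (hτ.trans_le hp.2.1)⟩, rfl⟩)
    have h6 := ho.isOpenMap_subtype_val _ (isOpen_interior (s := K₂))
    have h7 := hK.image continuous_subtype_val
    have ev : ∀ {C U : Set X}, IsCompact C → IsOpen U → C ⊆ U →
        ∀ᶠ t in 𝓝 (0 : ℝ), ∀ x ∈ C, k (x, t) ∈ U := fun hC hU h =>
      hC.eventually_forall_of_forall_eventually fun x hx =>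
        (hk.comp continuous_swap).continuousAt.eventually_mem (hU.mem_nhds (h (k0 x ▸ hx) |>
          fun h => by simpa [k0] using h))
    obtain ⟨ε, hε, h8⟩ := Metric.eventually_nhds_iff.1 ((ev h7 h6 (image_mono h4)).and
      (ev h6.isClosed_compl.isCompact h7.isClosed.isOpen_compl (compl_subset_compl.2
        (image_mono h4))))
    have hs : K₂ ⊆ K₁ ∪ K₂ ∪ compactCovering _ j ∪ Subtype.val ⁻¹' (k '' univ ×ˢ Icc τ (max τ 1)) :=
      fun x hx => Or.inl (Or.inl (Or.inr hx))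
    refine ⟨⟨(_, min (τ / 2) (ε / 3)), ((h1.union h3).union (isCompact_compactCovering _ j)).union
      h5, by positivity⟩, h2 _ fun x hx => Or.inl (Or.inl (Or.inl hx)),
      h4.trans (interior_mono hs), fun x hx => Or.inl (Or.inr hx), min_le_left _ _,
      fun x t y ht e => Or.inr ?_, fun t t0 t1 x => ?_⟩
    · rcases le_total t (max τ 1) with h | h
      · exact ⟨(x, t), ⟨trivial, ht, h⟩, e⟩
      · exact ⟨(x, max τ 1), ⟨trivial, le_max_left _ _, le_rfl⟩, by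
          rw [← e, k2 _ _ (le_max_right _ _), k2 _ _ ((le_max_right _ _).trans h)]⟩
    · have h9 := h8 (y := t) (by
        rw [Real.dist_eq, sub_zero, abs_of_nonneg t0]
        linarith [min_le_right (τ / 2) (ε / 3)])
      exact ⟨fun h => image_mono (interior_subset.trans hs) (h9.1 x h), fun h =>
        image_mono (interior_subset.trans hs) (not_not.1 fun hn => h9.2 x hn h)⟩
  choose F h1 h2 h3 h4 h5 h6 using step
  let s : ℕ → {p : Set ↥Zᶜ × ℝ // IsCompact p.1 ∧ 0 < p.2} :=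
    fun j => Nat.rec ⟨(∅, 1), isCompact_empty, one_pos⟩ F j
  obtain ⟨θ, t1, t2, t3⟩ := exists_theta (τ := fun j => (s j).1.2) (fun j => (s j).2.2)
    fun j => h4 j (s j)
  have ha : Antitone fun j => (s j).1.2 := antitone_nat_of_succ_le fun j =>
    (h4 j (s j)).trans (half_le_self (s j).2.2.le)
  obtain ⟨l, l1, l2, l3⟩ := exists_level (K := fun j => (s j).1.1) (fun j => (s j).2.1.isClosed)
    (fun j => h2 j (s j)) fun x => (exists_mem_compactCovering x).elim fun j hj =>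
      ⟨j + 1, h3 j (s j) hj⟩
  have l4 : ∀ x (j : ℕ), l x < j + 1 → x ∈ (s j).1.1 := fun x j h =>
    not_not.1 fun hn => h.not_ge ((l3 j x).2 hn)
  have t4 : ∀ u, 0 < u → 0 < θ u := fun u hu => by
    obtain ⟨j, hj⟩ := exists_nat_ge (1 / u)
    exact (s j).2.2.trans_le ((t3 j u).1 (by nlinarith [(div_le_iff₀ hu).1 hj]))
  refine ⟨⟨l, fun p => k (p.1, θ p.2), l1, l2, fun t => (s ⌈t⌉₊).2.1.of_isClosed_subset
    (isClosed_le l1 continuous_const) fun x hx => l4 x _ (by linarith [Nat.le_ceil t, hx.out]),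
    by fun_prop, fun x => by rw [t2, k0], fun x u hu => k1 _ _ (t4 u hu), fun x x' => ?_,
    fun x u y u0 u1 e => ?_⟩, _, fun j => h1 j (s j), l3⟩
  · have := (t3 0 1).1 (by simp)
    exact (k2 _ _ this).trans (k2 _ _ this).symm
  obtain ⟨j, j1, j2⟩ : ∃ j : ℕ, j + 1 ≤ 1 / u ∧ 1 / u < j + 2 := by
    have h := (one_le_div u0).2 u1
    obtain ⟨j, hj⟩ := Nat.exists_eq_add_one.2 (Nat.floor_pos.2 h)
    have h7 := Nat.floor_le (zero_le_one.trans h)
    have h8 := Nat.lt_floor_add_one (1 / u)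
    rw [hj] at h7 h8
    push_cast at h7 h8
    exact ⟨j, h7, by linarith⟩
  have j3 := (t3 j u).2 ((le_div_iff₀ u0).1 j1)
  have j4 := (t3 (j + 1) u).1 (by push_cast; linarith [(div_lt_iff₀ u0).1 j2])
  have j5 := (l3 (j + 1 + 1) y).1 (h5 (j + 1) (s (j + 1)) x _ y j4 e)
  have j6 := fun i (hi : i + 1 ≤ j) => h6 i (s i) _ (t4 u u0).le
    (j3.trans (by linarith [ha hi])) x
  push_cast at j5
  refine ⟨by linarith, ?_, fun r r1 r2 => ?_⟩
  · rintro x rfl
    have h7 := Nat.floor_le (zero_le_one.trans (l2 x))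
    rcases le_or_gt (⌊l x⌋₊ + 1) j with h | h
    · obtain ⟨y', h8, h9⟩ := (j6 _ h).1 ⟨x, l4 x _ (Nat.lt_floor_add_one _), rfl⟩
      obtain rfl : y' = y := Subtype.ext (h9.trans e)
      have := (l3 (⌊l x⌋₊ + 1) y').1 h8
      push_cast at this
      linarith
    · have : (j : ℝ) ≤ ⌊l x⌋₊ := by exact_mod_cast Nat.lt_succ_iff.1 h
      linarith
  · by_contra hn
    have h7 := Nat.floor_le (zero_le_one.trans (l2 y))
    have h8 : ⌊l y⌋₊ + 1 ≤ j := by
      have : (⌊l y⌋₊ : ℝ) < j := by linarith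
      exact_mod_cast this
    obtain ⟨x', h9, h10⟩ := (j6 _ h8).2 ⟨y, l4 y _ (Nat.lt_floor_add_one _), e.symm⟩
    have := (l3 (⌊l y⌋₊ + 1) x').1 h9
    push_cast at this
    linarith [r2 x' h10]

end Pool.Agent.P.MP_f05dbc_gt
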