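import Pool.Agent.P.MP_f05dbc_gt.Defs

/-!
Definitions for the closure theorem.
-/

namespace Pool.Agent.P.MP_f05dbc_gt

open Set Topology

/-- `G` acts freely, properly discontinuously and cocompactly on a locally compact, metrizable,
finite-dimensional, contractible, locally contractible space (for example on the universal cover
of a finite classifying complex). -/
def HasModel (G : Type*) [Group G] : Prop :=
  ∃ (E : Type) (_ : TopologicalSpace E) (a : G →* (E ≃ₜ E)), LocallyCompactSpace E ∧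
    TopologicalSpace.MetrizableSpace E ∧ FinDim E ∧ ContractibleSpace E ∧
    LocallyContractibleSpace E ∧ (∀ g x, a g x = x → g = 1) ∧
    (∀ K L : Set E, IsCompact K → IsCompact L → {g | (a g '' K ∩ L).Nonempty}.Finite) ∧
    ∃ K : Set E, IsCompact K ∧ ∀ x, ∃ g, a g x ∈ K

variable {G : Type*} [Group G] {X : Type} [TopologicalSpace X]

/-- The conditions of `IsGeom` relative to a subgroup `N`: `finitely many elements` is replaced by
`finitely many cosets of N`, and the `N`-translates of a compact set stay in a compact set. -/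
structure IsCoGeom (N : Subgroup G) (Z : Set X) (a : G →* (↥Zᶜ ≃ₜ ↥Zᶜ)) : Prop where
  er : IsER X
  zset : IsZSet Z
  bdd : ∀ K : Set ↥Zᶜ, IsCompact K → ∃ L, IsCompact L ∧ ∀ n ∈ N, ∀ x ∈ K, a n x ∈ L
  proper : ∀ K L : Set ↥Zᶜ, IsCompact K → IsCompact L → FinCos N {g | (a g '' K ∩ L).Nonempty}
  cocompact : ∃ K : Set ↥Zᶜ, IsCompact K ∧ ∀ x, ∃ g, a g x ∈ K
  null : ∀ C : Set ↥Zᶜ, IsCompact C → ∀ 𝒰 : Set (Set X), (∀ U ∈ 𝒰, IsOpen U) → ⋃₀ 𝒰 = univ →
    FinCos N {g | ¬ ∃ U ∈ 𝒰, ∀ x ∈ C, (a g x : X) ∈ U}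

/-- Conjugation by every element `g` of `G` extends to the boundary of `N`: if the orbit points
`m x` converge to `z` in `Z`, with `m` and `g m g⁻¹` in `N`, then the points `g m g⁻¹ x` converge. -/
def ConjExtends (N : Subgroup G) (Z : Set X) (c : N →* (↥Zᶜ ≃ₜ ↥Zᶜ)) : Prop :=
  ∀ g : G, ∀ z ∈ Z, ∀ x : ↥Zᶜ, ∃ z' : X, ∀ U ∈ 𝓝 z', ∃ V ∈ 𝓝 z, ∀ m m' : N,
    g * m = m' * g → (c m x : X) ∈ V → (c m' x : X) ∈ U

end Pool.Agent.P.MP_f05dbc_gt
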