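import Mathlib

/-!
A very slow radial compression of a normed space into its open unit ball.
-/

namespace Pool.Agent.P.MP_f05dbc_gt

open Set Filter Topology Metric

/-- A fast growing function `g` and the inverse `lam` of `x ↦ x * g x`. -/
structure Rad where
  g : ℝ → ℝ
  lam : ℝ → ℝ
  cont_g : Continuous g
  cont_lam : Continuous lam
  mono_g : Monotone g
  mono_lam : Monotone lam
  one_le : ∀ x, 1 ≤ g x
  dbl : ∀ x, 0 ≤ x → 2 * g x ≤ g (x + 1)
  lam_mul : ∀ x, 0 ≤ x → lam (x * g x) = x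
  mul_lam : ∀ r, 0 ≤ r → lam r * g (lam r) = r

theorem exists_rad (E : ℕ → ℝ) : ∃ R : Rad, ∀ (k : ℕ) (x : ℝ), (k : ℝ) ≤ x → E k ≤ R.g x := by
  let f : ℕ → ℝ → ℝ := fun k x => |E k| * max 0 (x + 1 - k)
  have f0 : ∀ k x, 0 ≤ f k x := fun k x => mul_nonneg (abs_nonneg _) (le_max_left _ _)
  have hlf : LocallyFinite fun k => Function.support (f k) := fun x =>
    ⟨Iio (x + 1), Iio_mem_nhds (by linarith), (finite_le_nat ⌈x + 2⌉₊).subset fun k hk => by
      obtain ⟨y, h1, h2⟩ := hk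
      have h3 : (k : ℝ) < y + 1 := by
        by_contra h
        exact h1 (by simp only [f]; rw [max_eq_left (by linarith), mul_zero])
      have h4 : y < x + 1 := h2
      exact_mod_cast (show (k : ℝ) ≤ ⌈x + 2⌉₊ by linarith [Nat.le_ceil (x + 2)])⟩
  have hfin : ∀ x, (Function.support fun k => f k x).Finite := fun x => hlf.point_finite x
  let h : ℝ → ℝ := fun x => 1 + ∑ᶠ k, f k x
  have hc : Continuous h := continuous_const.add (continuous_finsum (fun k => by fun_prop) hlf)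
  have h1 : ∀ x, 1 ≤ h x := fun x => le_add_of_nonneg_right (finsum_nonneg fun k => f0 k x)
  have hm : Monotone h := fun x y hxy => add_le_add le_rfl (finsum_le_finsum' (hfin x) (hfin y)
    fun k => mul_le_mul_of_nonneg_left (max_le_max le_rfl (by linarith)) (abs_nonneg _))
  let g : ℝ → ℝ := fun x => Real.exp (max x 0) * h x
  have e1 : ∀ x : ℝ, 1 ≤ Real.exp (max x 0) := fun x => Real.one_le_exp (le_max_right _ _)
  have g1 : ∀ x, 1 ≤ g x := fun x => one_le_mul_of_one_le_of_one_le (e1 x) (h1 x)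
  have gc : Continuous g := by fun_prop
  have gm : Monotone g := fun x y hxy => mul_le_mul (Real.exp_le_exp.2 (max_le_max hxy le_rfl))
    (hm hxy) (by linarith [h1 x]) (Real.exp_pos _).le
  let m : ℝ → ℝ := fun x => x * g (max x 0)
  have mm : StrictMono m := fun x y hxy => by
    have a1 := g1 (max x 0)
    have a2 := gm (max_le_max hxy.le (le_refl (0 : ℝ)))
    simp only [m]
    rcases le_total y 0 with hy | hy
    · rw [max_eq_right hy, max_eq_right (hxy.le.trans hy)]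
      nlinarith [g1 0]
    · nlinarith
  have ms : Function.Surjective m := by
    refine (show Continuous m by fun_prop).surjective ?_ ?_
    · refine tendsto_atTop_mono' _ ?_ tendsto_id
      filter_upwards [eventually_ge_atTop 0] with x hx
      exact le_mul_of_one_le_right hx (g1 _)
    · refine tendsto_atBot_mono' _ ?_ tendsto_id
      filter_upwards [eventually_le_atBot 0] with x hx
      simp only [m, id]
      nlinarith [g1 (max x 0)]
  let o := mm.orderIsoOfSurjective m ms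
  have ho : ∀ x, o x = m x := fun _ => rfl
  refine ⟨⟨g, o.symm, gc, o.symm.continuous, gm, o.symm.monotone, g1, fun x hx => ?_,
    fun x hx => ?_, fun r hr => ?_⟩, fun k x hk => ?_⟩
  · simp only [g]
    rw [max_eq_left hx, max_eq_left (by linarith), Real.exp_add, ← mul_assoc, mul_comm 2]
    exact mul_le_mul (mul_le_mul_of_nonneg_left (by linarith [Real.add_one_le_exp 1])
      (Real.exp_pos _).le) (hm (by linarith)) (by linarith [h1 x]) (by positivity)
  · rw [o.symm_apply_eq, ho]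
    simp only [m, max_eq_left hx]
  · have h0 : 0 ≤ o.symm r := by
      rw [o.le_symm_apply, ho]
      simpa only [m, zero_mul] using hr
    have := o.apply_symm_apply r
    rw [ho] at this
    simpa only [m, max_eq_left h0] using this
  · have a1 : f k x ≤ ∑ᶠ k, f k x := single_le_finsum k (hfin x) fun k => f0 k x
    have a2 : |E k| ≤ f k x :=
      le_mul_of_one_le_right (abs_nonneg _) (le_max_of_le_right (by linarith))
    have a3 : h x ≤ g x := le_mul_of_one_le_left (by linarith [h1 x]) (e1 x)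
    simp only [h] at a3
    show E k ≤ g x
    linarith [le_abs_self (E k)]

theorem theta_le {p p' a a' c : ℝ} (hp : 0 < p) (hp' : 0 < p') (ha : 0 ≤ a) (ha' : 0 ≤ a')
    (h1 : |p - p'| ≤ c) (h2 : |a - a'| ≤ c) : |a / (p + a) - a' / (p' + a')| ≤ c / (p + a) := by
  have e : a / (p + a) - a' / (p' + a') = (a' * (p' - p) + p' * (a - a')) / (p' + a') / (p + a) := by
    field_simp
    ring
  rw [e, abs_div, abs_div, abs_of_pos (show 0 < p + a by linarith),
    abs_of_pos (show 0 < p' + a' by linarith)]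
  refine div_le_div_of_nonneg_right ?_ (by linarith)
  rw [div_le_iff₀ (by linarith)]
  refine (abs_add_le _ _).trans ?_
  rw [abs_mul, abs_mul, abs_of_nonneg ha', abs_of_pos hp', abs_sub_comm p' p]
  nlinarith

variable {V : Type} [NormedAddCommGroup V] [NormedSpace ℝ V]

/-- The norm preserving map induced by `T`. -/
noncomputable def nrm (T : V →L[ℝ] V) (w : V) : V := (‖w‖ / ‖T w‖) • T w

theorem norm_nrm {T : V →L[ℝ] V} (hT : Function.Injective T) (w : V) : ‖nrm T w‖ = ‖w‖ := by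
  rcases eq_or_ne w 0 with rfl | hw
  · simp [nrm]
  · rw [nrm, norm_smul, Real.norm_of_nonneg (by positivity),
      div_mul_cancel₀ _ (norm_ne_zero_iff.2 ((map_ne_zero_iff T hT).2 hw))]

theorem continuous_nrm {T : V →L[ℝ] V} (hT : Function.Injective T) : Continuous (nrm T) := by
  refine continuous_iff_continuousAt.2 fun w => ?_
  rcases eq_or_ne w 0 with rfl | hw
  · rw [ContinuousAt, show nrm T 0 = 0 by simp [nrm], tendsto_zero_iff_norm_tendsto_zero]
    simp only [norm_nrm hT]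
    exact tendsto_norm_zero
  · exact ContinuousAt.smul (ContinuousAt.div (by fun_prop) (by fun_prop)
      (norm_ne_zero_iff.2 ((map_ne_zero_iff T hT).2 hw))) (by fun_prop)

namespace Rad

variable (R : Rad)

theorem g_pos (x : ℝ) : 0 < R.g x := one_pos.trans_le (R.one_le x)

theorem lam_zero : R.lam 0 = 0 := by simpa using R.lam_mul 0 le_rfl

theorem lam_nonneg {r : ℝ} (hr : 0 ≤ r) : 0 ≤ R.lam r := R.lam_zero ▸ R.mono_lam hr

theorem lam_le {r x : ℝ} (hx : 0 ≤ x) (h : r ≤ x * R.g x) : R.lam r ≤ x :=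
  (R.mono_lam h).trans_eq (R.lam_mul x hx)

theorem le_of_lam_le {r x : ℝ} (hr : 0 ≤ r) (h : R.lam r ≤ x) : r ≤ x * R.g x := by
  rw [← R.mul_lam r hr]
  exact mul_le_mul h (R.mono_g h) (R.g_pos _).le ((R.lam_nonneg hr).trans h)

theorem lam_pow {r : ℝ} (hr : 0 ≤ r) (j : ℕ) : R.lam (2 ^ j * r) ≤ R.lam r + j := by
  induction j with
  | zero => simp
  | succ j ih =>
    have h0 : 0 ≤ R.lam r + j := add_nonneg (R.lam_nonneg hr) j.cast_nonneg
    have h1 := R.le_of_lam_le (by positivity) ih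
    have h2 := R.dbl _ h0
    have h3 := R.g_pos (R.lam r + j)
    rw [Nat.cast_succ, ← add_assoc]
    refine R.lam_le (by linarith) ?_
    rw [pow_succ]
    nlinarith

theorem lam_close {r r' : ℝ} (hr : 0 ≤ r) (hr' : 0 ≤ r') (j : ℕ) (h : r ≤ 2 ^ j * r')
    (h' : r' ≤ 2 ^ j * r) : |R.lam r - R.lam r'| ≤ j := by
  have h1 := (R.mono_lam h).trans (R.lam_pow hr' j)
  have h2 := (R.mono_lam h').trans (R.lam_pow hr j)
  exact abs_le.2 ⟨by linarith, by linarith⟩

/-- The compression. -/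
noncomputable def W (p : ℝ) (v : V) : V := ((p + R.lam ‖v‖) * R.g (R.lam ‖v‖))⁻¹ • v

/-- The inverse of the compression. -/
noncomputable def U (p : ℝ) (w : V) : V := (p / (1 - ‖w‖) * R.g (p * ‖w‖ / (1 - ‖w‖))) • w

theorem coef_pos {p : ℝ} (hp : 0 < p) (v : V) : 0 < ((p + R.lam ‖v‖) * R.g (R.lam ‖v‖))⁻¹ :=
  inv_pos.2 (mul_pos (add_pos_of_pos_of_nonneg hp (R.lam_nonneg (norm_nonneg _))) (R.g_pos _))

theorem coef_mul {p : ℝ} (hp : 0 < p) (v : V) :
    ((p + R.lam ‖v‖) * R.g (R.lam ‖v‖))⁻¹ * ‖v‖ = R.lam ‖v‖ / (p + R.lam ‖v‖) := by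
  have h1 := R.mul_lam _ (norm_nonneg v)
  have h2 := R.g_pos (R.lam ‖v‖)
  have h3 := add_pos_of_pos_of_nonneg hp (R.lam_nonneg (norm_nonneg v))
  field_simp
  exact h1.symm

theorem norm_W {p : ℝ} (hp : 0 < p) (v : V) : ‖R.W p v‖ = R.lam ‖v‖ / (p + R.lam ‖v‖) := by
  rw [W, norm_smul, Real.norm_of_nonneg (R.coef_pos hp v).le, R.coef_mul hp]

theorem norm_W_lt {p : ℝ} (hp : 0 < p) (v : V) : ‖R.W p v‖ < 1 := by
  rw [R.norm_W hp, div_lt_one (add_pos_of_pos_of_nonneg hp (R.lam_nonneg (norm_nonneg v)))]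
  linarith

theorem U_W {p : ℝ} (hp : 0 < p) (v : V) : R.U p (R.W p v) = v := by
  have h2 := R.g_pos (R.lam ‖v‖)
  have h3 := add_pos_of_pos_of_nonneg hp (R.lam_nonneg (norm_nonneg v))
  have e : 1 - R.lam ‖v‖ / (p + R.lam ‖v‖) = p / (p + R.lam ‖v‖) := by
    field_simp
    ring
  have e1 : p * (R.lam ‖v‖ / (p + R.lam ‖v‖)) / (p / (p + R.lam ‖v‖)) = R.lam ‖v‖ := by field_simp
  rw [U, R.norm_W hp, e, e1, W, smul_smul]
  have e2 : p / (p / (p + R.lam ‖v‖)) * R.g (R.lam ‖v‖) *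
    ((p + R.lam ‖v‖) * R.g (R.lam ‖v‖))⁻¹ = 1 := by field_simp
  rw [e2, one_smul]

theorem W_U {p : ℝ} (hp : 0 < p) {w : V} (hw : ‖w‖ < 1) : R.W p (R.U p w) = w := by
  have h1 := sub_pos.2 hw
  have h2 := R.g_pos (p * ‖w‖ / (1 - ‖w‖))
  have e : R.lam ‖R.U p w‖ = p * ‖w‖ / (1 - ‖w‖) := by
    rw [U, norm_smul, Real.norm_of_nonneg (by positivity), mul_right_comm, div_mul_eq_mul_div,
      R.lam_mul _ (by positivity)]
  rw [W, e, U, smul_smul]
  have e1 : p + p * ‖w‖ / (1 - ‖w‖) = p / (1 - ‖w‖) := by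
    field_simp
    ring
  rw [e1, inv_mul_cancel₀ (by positivity), one_smul]

theorem contAt_W {T : Type*} [TopologicalSpace T] {p : T → ℝ} {v : T → V} {t : T}
    (hp : ContinuousAt p t) (hv : ContinuousAt v t) (h : 0 < p t) :
    ContinuousAt (fun s => R.W (p s) (v s)) t := by
  have h1 := R.cont_g
  have h2 := R.cont_lam
  exact ContinuousAt.smul (ContinuousAt.inv₀ (by fun_prop)
    (inv_pos.1 (R.coef_pos h (v t))).ne') hv

theorem contAt_U {T : Type*} [TopologicalSpace T] {p : T → ℝ} {w : T → V} {t : T}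
    (hp : ContinuousAt p t) (hw : ContinuousAt w t) (h : ‖w t‖ < 1) :
    ContinuousAt (fun s => R.U (p s) (w s)) t :=
  ContinuousAt.smul ((hp.div (by fun_prop) (sub_pos.2 h).ne').mul (R.cont_g.continuousAt.comp
    (ContinuousAt.div (by fun_prop) (by fun_prop) (sub_pos.2 h).ne'))) hw

theorem claimN {ε : ℝ} (hε : 0 < ε) (c : ℝ) : ∃ M : ℝ, ∀ (p p' : ℝ) (v v' : V), 1 ≤ p → 1 ≤ p' →
    |p - p'| ≤ c → M ≤ p + R.lam ‖v‖ → ‖v - v'‖ ≤ R.g (max (√p) (R.lam ‖v‖)) →
    ‖R.W p v - R.W p' v'‖ ≤ ε := by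
  refine ⟨max (max 6 ((2 + max c 1) / ε)) (max (4 * c) (2 * (5 / ε) ^ 2)),
    fun p p' v v' hp hp' hc hM hv => ?_⟩
  simp only [max_le_iff] at hM
  obtain ⟨⟨m1, m2⟩, m3, m4⟩ := hM
  have hp0 : 0 < p := by linarith
  have hp0' : 0 < p' := by linarith
  have l0 := R.lam_nonneg (norm_nonneg v)
  have l0' := R.lam_nonneg (norm_nonneg v')
  have hs := Real.mul_self_sqrt hp0.le
  have hs1 : 1 ≤ √p := Real.one_le_sqrt.2 hp
  have hmul := R.mul_lam _ (norm_nonneg v)
  have hg := R.g_pos (R.lam ‖v‖)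
  have n1 := abs_le.1 ((abs_norm_sub_norm_le v v').trans hv)
  rcases le_total (√p) (R.lam ‖v‖) with h | h
  · rw [max_eq_right h] at hv n1
    have h2 : 2 ≤ R.lam ‖v‖ := by nlinarith
    have h3 := R.lam_close (norm_nonneg v) (norm_nonneg v') 1 (by nlinarith) (by nlinarith)
    have h4 := theta_le hp0 hp0' l0 l0' (hc.trans (le_max_left c 1))
      (h3.trans (by simp))
    rw [← R.coef_mul hp0, ← R.coef_mul hp0'] at h4
    have a0 := R.coef_pos hp0 v
    have a1 : ((p + R.lam ‖v‖) * R.g (R.lam ‖v‖))⁻¹ * R.g (R.lam ‖v‖) = 1 / (p + R.lam ‖v‖) := by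
      field_simp
    rw [W, W]
    generalize ((p + R.lam ‖v‖) * R.g (R.lam ‖v‖))⁻¹ = a at *
    generalize ((p' + R.lam ‖v'‖) * R.g (R.lam ‖v'‖))⁻¹ = a' at *
    have e : a • v - a' • v' = a • (v - v') + (a - a') • v' := by module
    have b1 : ‖a • (v - v')‖ ≤ 1 / (p + R.lam ‖v‖) := by
      rw [norm_smul, Real.norm_of_nonneg a0.le, ← a1]
      exact mul_le_mul_of_nonneg_left hv a0.le
    have b2 : ‖(a - a') • v'‖ ≤ 1 / (p + R.lam ‖v‖) + max c 1 / (p + R.lam ‖v‖) := by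
      rw [norm_smul, Real.norm_eq_abs, ← abs_norm v', ← abs_mul, ← a1]
      have := abs_le.1 h4
      exact abs_le.2 ⟨by nlinarith, by nlinarith⟩
    have b3 : (2 + max c 1) / (p + R.lam ‖v‖) ≤ ε := by
      rw [div_le_iff₀' (by linarith)]
      exact (div_le_iff₀ hε).1 m2
    rw [e]
    refine (norm_add_le _ _).trans (le_trans ?_ b3)
    rw [add_div, ← one_add_one_eq_two, add_div]
    linarith
  · rw [max_eq_left h] at n1
    have h2 : R.lam ‖v'‖ ≤ √p + 1 := R.lam_le (by linarith) (by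
      have := R.le_of_lam_le (norm_nonneg v) h
      have h5 := R.mono_g (show √p ≤ √p + 1 by linarith)
      nlinarith)
    have h3 : 5 / ε ≤ √p := Real.le_sqrt_of_sq_le (by nlinarith)
    have h4 : 5 / √p ≤ ε := by
      rw [div_le_iff₀' (by linarith)]
      exact (div_le_iff₀ hε).1 h3
    have b1 : ‖R.W p v‖ ≤ 1 / √p := by
      rw [R.norm_W hp0, div_le_div_iff₀ (by linarith) (by linarith)]
      nlinarith
    have b2 : ‖R.W p' v'‖ ≤ 4 / √p := by
      have := abs_le.1 hc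
      rw [R.norm_W hp0', div_le_div_iff₀ (by linarith) (by linarith)]
      nlinarith
    refine (norm_sub_le _ _).trans (le_trans ?_ h4)
    rw [show (5 : ℝ) = 1 + 4 by norm_num, add_div]
    linarith

theorem lam_equiv (T S : V →L[ℝ] V) (h : ∀ v, S (T v) = v) :
    ∃ c : ℝ, ∀ v, |R.lam ‖v‖ - R.lam ‖T v‖| ≤ c := by
  obtain ⟨j, hj⟩ := pow_unbounded_of_one_lt (max ‖T‖ ‖S‖) (one_lt_two (α := ℝ))
  refine ⟨j, fun v => R.lam_close (norm_nonneg _) (norm_nonneg _) j ?_ ?_⟩
  · have := S.le_opNorm (T v)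
    rw [h] at this
    exact this.trans (mul_le_mul_of_nonneg_right ((le_max_right _ _).trans hj.le) (norm_nonneg _))
  · exact (T.le_opNorm v).trans
      (mul_le_mul_of_nonneg_right ((le_max_left _ _).trans hj.le) (norm_nonneg _))

theorem claimT (T : V →L[ℝ] V) (hT : Function.Injective T) {c p : ℝ} (hp : 0 < p) (v : V)
    (h : |R.lam ‖v‖ - R.lam ‖T v‖| ≤ c) :
    ‖R.W p (T v) - nrm T (R.W p v)‖ ≤ c / (p + R.lam ‖v‖) := by
  have h4 := theta_le hp hp (R.lam_nonneg (norm_nonneg v)) (R.lam_nonneg (norm_nonneg (T v)))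
    (by simpa using (abs_nonneg _).trans h) h
  rcases eq_or_ne v 0 with rfl | hv
  · refine le_trans ?_ ((abs_nonneg _).trans h4)
    simp [W, nrm]
  · have h1 : 0 < ‖T v‖ := norm_pos_iff.2 ((map_ne_zero_iff T hT).2 hv)
    have a0 := R.coef_pos hp v
    rw [← R.coef_mul hp, ← R.coef_mul hp, abs_sub_comm] at h4
    rw [nrm, W, W, map_smul, norm_smul, norm_smul, smul_smul, ← sub_smul, norm_smul,
      Real.norm_of_nonneg a0.le, Real.norm_eq_abs, ← abs_norm (T v), ← abs_mul, abs_norm]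
    refine le_of_eq_of_le (congrArg _ ?_) h4
    generalize ((p + R.lam ‖v‖) * R.g (R.lam ‖v‖))⁻¹ = a at *
    generalize ((p + R.lam ‖T v‖) * R.g (R.lam ‖T v‖))⁻¹ = a' at *
    field_simp

end Rad

end Pool.Agent.P.MP_f05dbc_gt
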