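import Pool.Agent.P.MP_f05dbc_gt.ER
import Pool.Agent.P.MP_f05dbc_gt.Radial
import Pool.Agent.P.MP_f05dbc_gt.Aff

/-!
Metric forms of nullity and of the extension property, and the identification of the interior of
the join.
-/

namespace Pool.Agent.P.MP_f05dbc_gt

open Set Filter Topology Metric

section

variable {G : Type*} [Group G] {X : Type} [MetricSpace X] {Z : Set X} {a : G →* (↥Zᶜ ≃ₜ ↥Zᶜ)}

theorem IsRelGeom.null_dist {N : Subgroup G} (h : IsRelGeom N Z a) {C : Set ↥Zᶜ}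
    (hC : IsCompact C) {ε : ℝ} (hε : 0 < ε) :
    FinCos N {g | ∃ x ∈ C, ∃ x' ∈ C, ε ≤ dist (a g x : X) (a g x')} := by
  refine (h.null C hC (range fun y => ball y (ε / 2)) (by rintro _ ⟨y, rfl⟩; exact isOpen_ball)
    (eq_univ_of_forall fun y => ⟨_, mem_range_self y, mem_ball_self (half_pos hε)⟩)).mono ?_
  rintro g ⟨x, hx, x', hx', h1⟩ ⟨_, ⟨y, rfl⟩, h2⟩
  linarith [dist_triangle_right (a g x : X) (a g x') y, mem_ball.1 (h2 x hx), mem_ball.1 (h2 x' hx')]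

theorem Fix.finiteIndex {N : Subgroup G} {T : Type} [TopologicalSpace T] {a : G →* (T ≃ₜ T)}
    (h : Fix N a) (K : Set T) (hK : IsCompact K) :
    ∃ (H : Subgroup N) (ψ : T → ℝ), H.FiniteIndex ∧ Continuous ψ ∧ HasCompactSupport ψ ∧
      (∀ x ∈ K, ψ x ≠ 0) ∧ ∀ h ∈ H, ∀ x, ψ (a h x) = ψ x := by
  obtain ⟨H, ψ, h1, h2, h3, h4, h5⟩ := h K hK
  exact ⟨_, ψ, h1.finiteIndex, h2, h3, h4, fun g hg => h5 g hg⟩

theorem isRelGeom_of {N : Subgroup G} (h1 : IsER X) (h2 : IsZSet Z) (h0 : Fix N a) (h3 : Prp N a)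
    (h4 : Ccp a) (h : ∀ C : Set ↥Zᶜ, IsCompact C → ∀ ε : ℝ, 0 < ε →
      FinCos N {g | ∃ x ∈ C, ∃ x' ∈ C, ε ≤ dist (a g x : X) (a g x')}) : IsRelGeom N Z a := by
  refine ⟨h1, h2, h0.finiteIndex, h3, h4, fun C hC 𝒰 ho hc => ?_⟩
  obtain ⟨_, -, -, _, -⟩ := h1
  obtain ⟨δ, hδ, hL⟩ := lebesgue_number_lemma_of_metric_sUnion isCompact_univ ho hc.ge
  refine (h C hC δ hδ).mono fun g hg => ?_
  by_contra hn
  simp only [mem_setOf_eq, not_exists, not_and, not_le] at hn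
  rcases C.eq_empty_or_nonempty with rfl | ⟨x, hx⟩
  · obtain ⟨U, hU, -⟩ := hL (Classical.arbitrary X) (mem_univ _)
    exact hg ⟨U, hU, fun _ h => absurd h (notMem_empty _)⟩
  · obtain ⟨U, hU, hs⟩ := hL (a g x) (mem_univ _)
    exact hg ⟨U, hU, fun z hz => hs (hn z hz x hx)⟩

theorem IsZSet.dense [ContractibleSpace X] (h : IsZSet Z) : Dense Zᶜ := by
  obtain ⟨k, -, hc, h0, h1, -⟩ := exists_push h
  intro x
  have : Tendsto (fun t : ℝ => k (x, t)) (𝓝[>] 0) (𝓝 x) := by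
    have := (show Continuous fun t : ℝ => k (x, t) by fun_prop).tendsto 0
    rw [h0] at this
    exact this.mono_left nhdsWithin_le_nhds
  exact mem_closure_of_tendsto this (eventually_mem_nhdsWithin.mono fun t ht => h1 x t ht)

theorem extends_of (h : IsClosed Z) (hd : Dense Zᶜ)
    (hS : ∀ g, ∃ S : X → X, Continuous S ∧ ∀ ε : ℝ, 0 < ε → ∃ K : Set ↥Zᶜ, IsCompact K ∧
      ∀ x, x ∉ K → dist (a g x : X) (S x) ≤ ε) : Extends a := by
  classical
  choose S hc hS using hS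
  let F : G → X → X := fun g x => if hx : x ∈ Zᶜ then a g ⟨x, hx⟩ else S g x
  have h1 : ∀ g (x : ↥Zᶜ), F g x = a g x := fun g x => dif_pos x.2
  have h2 : ∀ g, Continuous (F g) := fun g => continuous_iff_continuousAt.2 fun x => by
    by_cases hx : x ∈ Zᶜ
    · refine ContinuousOn.continuousAt ?_ (h.isOpen_compl.mem_nhds hx)
      exact continuousOn_iff_continuous_restrict.2
        ((continuous_subtype_val.comp (a g).continuous).congr fun x => (h1 g x).symm)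
    · refine Metric.tendsto_nhds.2 fun ε hε => ?_
      obtain ⟨K, hK, hK'⟩ := hS g _ (half_pos hε)
      have h3 : (Subtype.val '' K)ᶜ ∈ 𝓝 x :=
        (hK.image continuous_subtype_val).isClosed.isOpen_compl.mem_nhds
          fun ⟨z, _, e⟩ => hx (e ▸ z.2)
      filter_upwards [h3, Metric.tendsto_nhds.1 ((hc g).tendsto x) _ (half_pos hε)] with z z1 z2
      have h4 : dist (F g z) (S g z) ≤ ε / 2 := by
        by_cases hz : z ∈ Zᶜ
        · rw [h1 g ⟨z, hz⟩]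
          exact hK' _ fun hk => z1 ⟨_, hk, rfl⟩
        · rw [show F g z = S g z from dif_neg hz, dist_self]
          exact (half_pos hε).le
      rw [show F g x = S g x from dif_neg hx]
      linarith [dist_triangle (F g z) (S g z) (S g x)]
  refine ⟨homOf F h2 (congrFun (Continuous.ext_on hd (h2 1) continuous_id fun x hx => ?_))
    fun g k => congrFun (Continuous.ext_on hd (h2 _) ((h2 g).comp (h2 k)) fun x hx => ?_), h1⟩
  · exact (h1 1 ⟨x, hx⟩).trans (by rw [act_one])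
  · exact (h1 _ ⟨x, hx⟩).trans (by rw [act_mul, ← h1, ← h1])

end

theorem IsRelGeom.fix' {G : Type*} [Group G] {X : Type} [TopologicalSpace X] {Z : Set X}
    {a : G →* (↥Zᶜ ≃ₜ ↥Zᶜ)} {N : Subgroup G} (h : IsRelGeom N Z a) : Fix N a := fun K hK => by
  obtain ⟨H, ψ, _, h2, h3, h4, h1⟩ := h.inv K hK
  refine ⟨_, ψ, ((finCos_of_finiteIndex H univ).map N.subtype).mono
    fun x hx => ⟨⟨x, hx⟩, mem_univ _, rfl⟩, h2, h3, h4, ?_⟩
  rintro _ ⟨x, hx, rfl⟩
  exact h1 x hx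

section

variable {G : Type*} [Group G] {T T' : Type} [TopologicalSpace T] [TopologicalSpace T']

/-- Transport of an action along a homeomorphism. -/
def cj (e : T ≃ₜ T') (a : G →* (T ≃ₜ T)) : G →* (T' ≃ₜ T') :=
  homOf (fun g x => e (a g (e.symm x))) (fun g => by fun_prop)
    (fun x => by rw [act_one, e.apply_symm_apply])
    fun g h x => by rw [act_mul, e.symm_apply_apply]

theorem cj_apply (e : T ≃ₜ T') (a : G →* (T ≃ₜ T)) (g : G) (t : T) :
    cj e a g (e t) = e (a g t) := congrArg (fun s => e (a g s)) (e.symm_apply_apply t)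

theorem Fix.cj {N : Subgroup G} {a : G →* (T ≃ₜ T)} (h : Fix N a) (e : T ≃ₜ T') :
    Fix N (cj e a) := fun _ hK => by
  obtain ⟨H, ψ, h1, h2, h3, h4, h5⟩ := h _ (hK.image e.symm.continuous)
  exact ⟨H, ψ ∘ e.symm, h1, by fun_prop, h3.comp_homeomorph e.symm, fun x hx => h4 _ ⟨x, hx, rfl⟩,
    fun g hg x => (congrArg ψ (e.symm_apply_apply _)).trans (h5 g hg _)⟩

theorem Prp.cj {N : Subgroup G} {a : G →* (T ≃ₜ T)} (h : Prp N a) (e : T ≃ₜ T') :
    Prp N (cj e a) := fun _ _ hK hL =>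
  (h _ _ (hK.image e.symm.continuous) (hL.image e.symm.continuous)).mono
    fun _ ⟨_, ⟨x, hx, rfl⟩, hl⟩ => ⟨_, ⟨_, ⟨x, hx, rfl⟩, rfl⟩, _, hl, e.symm_apply_apply _⟩

theorem Ccp.cj {a : G →* (T ≃ₜ T)} (h : Ccp a) (e : T ≃ₜ T') : Ccp (cj e a) := by
  obtain ⟨K, hK, h⟩ := h
  exact ⟨e '' K, hK.image e.continuous, fun x => (h (e.symm x)).imp fun g hg => ⟨_, hg, rfl⟩⟩

end

variable {Y V X : Type} [MetricSpace Y] [NormedAddCommGroup V] [NormedSpace ℝ V] [MetricSpace X]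

/-- The interior of the join. -/
noncomputable def JoinData.emb (J : JoinData Y V X) (R : Rad) {Z : Set Y} {p : ↥Zᶜ → ℝ}
    (hc : Continuous p) (h1 : ∀ y, 0 < p y) : V × ↥Zᶜ ≃ₜ ↥(J.bd Z)ᶜ where
  toFun t := ⟨J.π t.2 (R.W (p t.2) t.1), J.π_notMem t.2.2 (R.norm_W_lt (h1 _) _)⟩
  invFun x := (R.U (p ⟨J.η x, (J.notMem_bd.1 x.2).2⟩) (J.ω x), ⟨J.η x, (J.notMem_bd.1 x.2).2⟩)
  left_inv t := by
    have h := R.norm_W_lt (h1 t.2) t.1
    simp only [J.η_π _ h, J.ω_π _ _ h.le, R.U_W (h1 _)]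
  right_inv x := Subtype.ext (by
    simp only [R.W_U (h1 _) (J.notMem_bd.1 x.2).1, J.π_η])
  continuous_toFun := Continuous.subtype_mk (continuous_iff_continuousAt.2 fun t =>
    J.contAt (R.contAt_W (by fun_prop) (by fun_prop) (h1 _)) (fun s => (R.norm_W_lt (h1 _) _).le)
      fun _ => by fun_prop) _
  continuous_invFun := by
    have h2 : Continuous fun x : ↥(J.bd Z)ᶜ => (⟨J.η x, (J.notMem_bd.1 x.2).2⟩ : ↥Zᶜ) :=
      Continuous.subtype_mk (continuous_iff_continuousAt.2 fun x =>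
        (J.contAt_η (J.notMem_bd.1 x.2).1).comp continuous_subtype_val.continuousAt) _
    exact Continuous.prodMk (continuous_iff_continuousAt.2 fun x => R.contAt_U
      (hc.comp h2).continuousAt (J.cont_ω.comp continuous_subtype_val).continuousAt
        (J.notMem_bd.1 x.2).1) h2

omit [NormedSpace ℝ V] in
theorem Rad.isCompact_le [ProperSpace V] (R : Rad) {T : Type} [TopologicalSpace T] {p : T → ℝ}
    (hc : Continuous p) (h0 : ∀ y, 0 ≤ p y) (hK : ∀ t, IsCompact {y | p y ≤ t}) (M : ℝ) :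
    IsCompact {t : V × T | p t.2 + R.lam ‖t.1‖ ≤ M} := by
  have := R.cont_lam
  refine ((isCompact_closedBall (0 : V) (M * R.g M)).prod (hK M)).of_isClosed_subset
    (isClosed_le (by fun_prop) continuous_const) fun t ht => ?_
  have h1 : p t.2 + R.lam ‖t.1‖ ≤ M := ht
  exact ⟨mem_closedBall_zero_iff.2 (R.le_of_lam_le (norm_nonneg _) (by linarith [h0 t.2])),
    show p t.2 ≤ M by linarith [R.lam_nonneg (norm_nonneg t.1)]⟩

theorem exists_rad' (E : ℕ → ℝ) : ∃ R : Rad, ∀ p l : ℝ, 0 ≤ p →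
    ∃ k : ℕ, p ≤ k ∧ l ≤ k ∧ E k ≤ R.g (max (√p) l) := by
  obtain ⟨R, hR⟩ := exists_rad fun j => E ((j + 1) ^ 2)
  refine ⟨R, fun p l hp => ⟨(⌊max (√p) l⌋₊ + 1) ^ 2, ?_, ?_,
    hR _ _ (Nat.floor_le (le_max_of_le_left (Real.sqrt_nonneg p)))⟩⟩
  · have h1 := (le_max_left _ _).trans (Nat.lt_floor_add_one (max (√p) l)).le
    have h2 := pow_le_pow_left₀ (Real.sqrt_nonneg p) h1 2
    rw [Real.sq_sqrt hp] at h2
    exact_mod_cast h2
  · have h1 := (le_max_right _ _).trans (Nat.lt_floor_add_one (max (√p) l)).le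
    have h2 : (0 : ℝ) ≤ ⌊max (√p) l⌋₊ := Nat.cast_nonneg _
    push_cast
    nlinarith

end Pool.Agent.P.MP_f05dbc_gt
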