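import Pool.Agent.P.MP_f05dbc_gt.Defs

/-!
The join of a compact metric space with the unit sphere of a normed space.
-/

namespace Pool.Agent.P.MP_f05dbc_gt

open Set Filter Topology Metric

/-- The quotient of `Y × (closed unit ball)` that collapses `Y × {w}` for `‖w‖ = 1`. -/
structure JoinData (Y V X : Type) [MetricSpace Y] [NormedAddCommGroup V] [MetricSpace X] where
  π : Y → V → X
  ω : X → V
  η : X → Y
  B : ℝ
  B_pos : 0 < B
  cont_ω : Continuous ω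
  norm_ω : ∀ x, ‖ω x‖ ≤ 1
  ω_π : ∀ y w, ‖w‖ ≤ 1 → ω (π y w) = w
  π_η : ∀ x, π (η x) (ω x) = x
  dist_le : ∀ y y' w w', ‖w‖ ≤ 1 → ‖w'‖ ≤ 1 →
    dist (π y w) (π y' w') ≤ B * ‖w - w'‖ + (1 - ‖w'‖) * dist y y'
  le_dist : ∀ y y' w w', ‖w‖ ≤ 1 → ‖w'‖ ≤ 1 →
    (1 - ‖w'‖) * dist y y' ≤ B * dist (π y w) (π y' w')

theorem exists_join (Y V : Type) [MetricSpace Y] [CompactSpace Y] [NormedAddCommGroup V] :
    ∃ (X : Type) (_ : MetricSpace X), Nonempty (JoinData Y V X) := by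
  classical
  let j := kuratowskiEmbedding Y
  have hj : Isometry j := kuratowskiEmbedding.isometry Y
  obtain ⟨C, hC0, hC⟩ := (isCompact_range hj.continuous).isBounded.exists_pos_norm_le
  have hC' : ∀ y, ‖j y‖ ≤ C := fun y => hC _ (mem_range_self y)
  let P : Y → V → lp (fun _ : ℕ => ℝ) ⊤ × V := fun y w => ((1 - ‖w‖) • j y, w)
  let X := {p : lp (fun _ : ℕ => ℝ) ⊤ × V // ∃ y w, ‖w‖ ≤ 1 ∧ p = P y w}
  let π : Y → V → X := fun y w =>
    if h : ‖w‖ ≤ 1 then ⟨P y w, y, w, h, rfl⟩ else ⟨P y 0, y, 0, by simp, rfl⟩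
  have hπ : ∀ y w, ‖w‖ ≤ 1 → (π y w).1 = P y w := fun y w h => by simp only [π, dif_pos h]
  have hω : ∀ x : X, ‖x.1.2‖ ≤ 1 := by
    rintro ⟨_, y, w, h, rfl⟩
    exact h
  have key : ∀ y y' (w w' : V), (1 - ‖w‖) • j y - (1 - ‖w'‖) • j y' =
      (‖w'‖ - ‖w‖) • j y + (1 - ‖w'‖) • (j y - j y') := fun y y' w w' => by module
  have k1 : ∀ y (w w' : V), ‖(‖w'‖ - ‖w‖) • j y‖ ≤ C * ‖w - w'‖ := fun y w w' => by
    rw [norm_smul, mul_comm, Real.norm_eq_abs, abs_sub_comm]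
    exact mul_le_mul (hC' y) (abs_norm_sub_norm_le _ _) (abs_nonneg _) hC0.le
  have k2 : ∀ y y' (w' : V), ‖w'‖ ≤ 1 → ‖(1 - ‖w'‖) • (j y - j y')‖ = (1 - ‖w'‖) * dist y y' :=
    fun y y' w' h => by
      rw [norm_smul, Real.norm_of_nonneg (sub_nonneg.2 h), ← dist_eq_norm, hj.dist_eq]
  refine ⟨X, inferInstance, ⟨⟨π, fun x => x.1.2, fun x => x.2.choose, C + 1, by positivity,
    continuous_snd.comp continuous_subtype_val, hω, fun y w h => by rw [hπ y w h], fun x => ?_,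
    fun y y' w w' h h' => ?_, fun y y' w w' h h' => ?_⟩⟩⟩
  · obtain ⟨w, hw, e⟩ := x.2.choose_spec
    have e2 : x.1.2 = w := by rw [e]
    apply Subtype.ext
    rw [hπ _ _ (hω x), e2, ← e]
  · rw [Subtype.dist_eq, hπ _ _ h, hπ _ _ h', Prod.dist_eq, dist_eq_norm, dist_eq_norm]
    have h1 := mul_nonneg (sub_nonneg.2 h') (dist_nonneg (x := y) (y := y'))
    have h2 := norm_nonneg (w - w')
    refine max_le ?_ ?_
    · simp only [P]
      rw [key]
      refine (norm_add_le _ _).trans ?_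
      rw [k2 _ _ _ h']
      linarith [k1 y w w']
    · simp only [P]
      nlinarith
  · rw [Subtype.dist_eq, hπ _ _ h, hπ _ _ h', Prod.dist_eq, dist_eq_norm, dist_eq_norm]
    simp only [P]
    have h1 := le_max_left ‖(1 - ‖w‖) • j y - (1 - ‖w'‖) • j y'‖ ‖w - w'‖
    have h2 := le_max_right ‖(1 - ‖w‖) • j y - (1 - ‖w'‖) • j y'‖ ‖w - w'‖
    have h3 : (1 - ‖w'‖) * dist y y' ≤ ‖(1 - ‖w‖) • j y - (1 - ‖w'‖) • j y'‖ + C * ‖w - w'‖ := by
      rw [← k2 _ _ _ h', key]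
      have := norm_sub_le ((‖w'‖ - ‖w‖) • j y + (1 - ‖w'‖) • (j y - j y')) ((‖w'‖ - ‖w‖) • j y)
      rw [add_sub_cancel_left] at this
      linarith [k1 y w w']
    nlinarith

namespace JoinData

variable {Y V X : Type} [MetricSpace Y] [NormedAddCommGroup V] [MetricSpace X]
  (J : JoinData Y V X)

theorem η_π (y : Y) {w : V} (h : ‖w‖ < 1) : J.η (J.π y w) = y := by
  have h1 := J.le_dist (J.η (J.π y w)) y w w h.le h.le
  have h2 := J.π_η (J.π y w)
  rw [J.ω_π y w h.le] at h2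
  rw [h2, dist_self, mul_zero] at h1
  exact dist_le_zero.1 (le_of_mul_le_mul_left (h1.trans_eq (mul_zero _).symm) (sub_pos.2 h))

theorem π_eq (y y' : Y) {w : V} (h : ‖w‖ = 1) : J.π y w = J.π y' w := by
  have := J.dist_le y y' w w h.le h.le
  rw [h] at this
  simpa using this

theorem contAt {T : Type*} [TopologicalSpace T] {a : T → Y} {c : T → V} {t : T}
    (hc : ContinuousAt c t) (h1 : ∀ s, ‖c s‖ ≤ 1) (ha : ‖c t‖ < 1 → ContinuousAt a t) :
    ContinuousAt (fun s => J.π (a s) (c s)) t := by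
  rw [ContinuousAt, tendsto_iff_dist_tendsto_zero]
  refine squeeze_zero (fun _ => dist_nonneg) (fun s => J.dist_le _ _ _ _ (h1 s) (h1 t)) ?_
  have e1 : Tendsto (fun s => J.B * ‖c s - c t‖) (𝓝 t) (𝓝 0) := by
    simpa using (tendsto_iff_norm_sub_tendsto_zero.1 hc).const_mul J.B
  have e2 : Tendsto (fun s => (1 - ‖c t‖) * dist (a s) (a t)) (𝓝 t) (𝓝 0) := by
    rcases (h1 t).lt_or_eq with h | h
    · simpa using (tendsto_iff_dist_tendsto_zero.1 (ha h)).const_mul (1 - ‖c t‖)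
    · simp [h]
  simpa using e1.add e2

theorem contAt_η {x : X} (h : ‖J.ω x‖ < 1) : ContinuousAt J.η x := by
  rw [ContinuousAt, tendsto_iff_dist_tendsto_zero]
  refine squeeze_zero (g := fun s => J.B * dist s x / (1 - ‖J.ω x‖)) (fun _ => dist_nonneg)
    (fun s => ?_) ?_
  · have := J.le_dist (J.η s) (J.η x) _ _ (J.norm_ω s) (J.norm_ω x)
    rw [J.π_η, J.π_η] at this
    rwa [le_div_iff₀' (sub_pos.2 h)]
  · have : Tendsto (fun s => dist s x) (𝓝 x) (𝓝 0) := tendsto_iff_dist_tendsto_zero.1 tendsto_id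
    simpa using (this.const_mul J.B).div_const (1 - ‖J.ω x‖)

include J in
theorem compactSpace [CompactSpace Y] [ProperSpace V] : CompactSpace X := by
  have : CompactSpace (closedBall (0 : V) 1) := isCompact_iff_compactSpace.1 (isCompact_closedBall _ _)
  have hc : Continuous fun p : Y × closedBall (0 : V) 1 => J.π p.1 p.2 :=
    continuous_iff_continuousAt.2 fun p => J.contAt (by fun_prop)
      (fun s => mem_closedBall_zero_iff.1 s.2.2) fun _ => continuousAt_fst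
  refine ⟨?_⟩
  rw [← Function.Surjective.range_eq (f := fun p : Y × closedBall (0 : V) 1 => J.π p.1 p.2)
    fun x => ⟨(J.η x, ⟨J.ω x, mem_closedBall_zero_iff.2 (J.norm_ω x)⟩), J.π_η x⟩]
  exact isCompact_range hc

/-- The boundary: the join of the sphere with `Z`. -/
def bd (Z : Set Y) : Set X := {x | ‖J.ω x‖ < 1 ∧ J.η x ∉ Z}ᶜ

theorem isClosed_bd {Z : Set Y} (hZ : IsClosed Z) : IsClosed (J.bd Z) := by
  rw [bd, isClosed_compl_iff, isOpen_iff_mem_nhds]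
  intro x hx
  exact inter_mem ((isOpen_lt J.cont_ω.norm continuous_const).mem_nhds hx.1)
    ((J.contAt_η hx.1).preimage_mem_nhds (hZ.isOpen_compl.mem_nhds hx.2))

theorem π_notMem {Z : Set Y} {y : Y} {w : V} (hy : y ∉ Z) (hw : ‖w‖ < 1) : J.π y w ∉ J.bd Z := by
  rw [bd, notMem_compl_iff]
  exact ⟨by rwa [J.ω_π _ _ hw.le], by rwa [J.η_π _ hw]⟩

theorem notMem_bd {Z : Set Y} {x : X} : x ∉ J.bd Z ↔ ‖J.ω x‖ < 1 ∧ J.η x ∉ Z := by
  rw [bd, notMem_compl_iff]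
  rfl

end JoinData

end Pool.Agent.P.MP_f05dbc_gt
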