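import Pool.Agent.P.MP_f05dbc_gt.Gen

/-!
Passing from a commensurated subgroup to the kernel of a map onto a lattice.
-/

namespace Pool.Agent.P.MP_f05dbc_gt

open Set Filter Topology Metric

variable {G : Type*} [Group G] {V : Type} [NormedAddCommGroup V] [NormedSpace ℝ V]
  {N H : Subgroup G}

theorem Aff.exists_bound [ProperSpace V] [Countable G] {T : Type} [TopologicalSpace T]
    {a : G →* (T ≃ₜ T)} (A : Aff N a V) (hf : Fix N a) (hp : Prp N a) {p : T → ℝ} (hs : Slow a p) :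
    ∃ R : Rad,
      (∀ C : Set (V × T), IsCompact C → ∃ M : ℝ, ∀ g, ∀ t ∈ C, ∀ t' ∈ C, ∀ l : ℝ,
        M ≤ p (a g t.2) + l →
          ‖(A.act g t).1 - (A.act g t').1‖ ≤ R.g (max (√(p (a g t.2))) l)) ∧
      ∀ g, ∃ M : ℝ, ∀ y l, M ≤ p y + l → ‖A.β g y‖ ≤ R.g (max (√(p y)) l) := by
  obtain ⟨γ, hγ⟩ := exists_surjective_nat G
  have h1 : ∀ k : ℕ, ∃ b : ℝ, 0 ≤ b ∧ ∀ g, ∀ t ∈ closedBall (0 : V) k ×ˢ {y | p y ≤ k},
      ∀ t' ∈ closedBall (0 : V) k ×ˢ {y | p y ≤ k}, p (a g t.2) ≤ k →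
        ‖(A.act g t).1 - (A.act g t').1‖ ≤ b := fun k => by
    obtain ⟨H, -, h2, h3⟩ := A.loc' (hs.compact k)
    obtain ⟨H', L, h6, hL, h7⟩ := hf.bdd (hs.compact k)
    obtain ⟨F, hF, h4⟩ := (h2.inf h6).trans (hp _ _ (hs.compact k) (hs.compact k))
    obtain ⟨r, hr0, hr⟩ := (((hF.isCompact_biUnion fun f _ =>
      ((isCompact_closedBall (0 : V) k).prod hL).image (A.act f).continuous).image
        continuous_fst).isBounded).exists_pos_norm_le
    refine ⟨r + r, by positivity, fun g t ht t' ht' hk => ?_⟩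
    obtain ⟨f, hf, h5⟩ := h4 g ⟨_, ⟨t.2, ht.2, rfl⟩, hk⟩
    have e1 : (A.act g t).1 - (A.act g t').1 = (A.act f (t.1, a (f⁻¹ * g) t.2)).1 -
        (A.act f (t'.1, a (f⁻¹ * g) t'.2)).1 := by
      conv_lhs => rw [← mul_inv_cancel_left f g, act_mul _ f, act_mul _ f, h3 _ h5.1 t ht.2,
        h3 _ h5.1 t' ht'.2]
      simp only [A.act_apply, map_add]
      abel
    rw [e1]
    exact (norm_sub_le _ _).trans (add_le_add
      (hr _ ⟨_, mem_biUnion hf ⟨(t.1, a (f⁻¹ * g) t.2), ⟨ht.1, h7 _ h5.2 _ ht.2⟩, rfl⟩, rfl⟩)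
      (hr _ ⟨_, mem_biUnion hf ⟨(t'.1, a (f⁻¹ * g) t'.2), ⟨ht'.1, h7 _ h5.2 _ ht'.2⟩, rfl⟩, rfl⟩))
  have h2 : ∀ k : ℕ, ∃ b : ℝ, 0 ≤ b ∧ ∀ i ≤ k, ∀ y, p y ≤ k → ‖A.β (γ i) y‖ ≤ b := fun k => by
    obtain ⟨r, hr0, hr⟩ := ((finite_Iic k).isCompact_biUnion fun i _ =>
      (hs.compact k).image (A.cont (γ i))).isBounded.exists_pos_norm_le
    exact ⟨r, hr0.le, fun i hi y hy => hr _ (mem_biUnion hi ⟨y, hy, rfl⟩)⟩
  choose b₁ n₁ h1 using h1
  choose b₂ n₂ h2 using h2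
  obtain ⟨R, hR⟩ := exists_rad' fun k => b₁ k + b₂ k
  have p0 : ∀ y, 0 ≤ p y := fun y => zero_le_one.trans (hs.one_le y)
  refine ⟨R, fun C hC => ?_, fun g => ?_⟩
  · obtain ⟨r, hr⟩ := hC.exists_bound_of_continuousOn continuous_fst.continuousOn
    obtain ⟨r', hr'⟩ := hC.exists_bound_of_continuousOn (hs.cont.comp continuous_snd).continuousOn
    refine ⟨2 * max r r', fun g t ht t' ht' l hl => ?_⟩
    obtain ⟨k, k1, k2, k3⟩ := hR _ l (p0 (a g t.2))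
    have hm : ∀ t ∈ C, t ∈ closedBall (0 : V) k ×ˢ {y | p y ≤ k} := fun t ht =>
      ⟨mem_closedBall_zero_iff.2 ((hr t ht).trans (by linarith [le_max_left r r'])),
        ((le_abs_self _).trans (hr' t ht)).trans (by linarith [le_max_right r r'])⟩
    linarith [h1 k g t (hm t ht) t' (hm t' ht') k1, n₂ k]
  · obtain ⟨i, rfl⟩ := hγ g
    refine ⟨2 * i, fun y l hl => ?_⟩
    obtain ⟨k, k1, k2, k3⟩ := hR _ l (p0 y)
    linarith [h2 k i (by exact_mod_cast (show (i : ℝ) ≤ k by linarith)) y k1, n₁ k]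

theorem step_metric {e : Prop} {n : ℕ} {Y : Type} [MetricSpace Y] {Z : Set Y}
    {a : G →* (↥Zᶜ ≃ₜ ↥Zᶜ)} (h : IsRelGeom N Z a) (he : e → Extends a)
    (hN : (N : Set G).Countable) (L : Lat N (Fin n → ℝ)) :
    ∃ (X : Type) (_ : TopologicalSpace X) (Z' : Set X) (a' : G →* (↥Z'ᶜ ≃ₜ ↥Z'ᶜ)),
      IsRelGeom L.ker Z' a' ∧ (e → Extends a') := by
  obtain ⟨_, -, -, _, -⟩ := h.er
  have : LocallyCompactSpace ↥Zᶜ := h.zset.1.isOpen_compl.locallyCompactSpace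
  have : Nonempty ↥Zᶜ := h.zset.dense.nonempty.to_subtype
  have hp : Prp N a := h.proper
  have hf := h.fix'
  have := hp.countable hN
  obtain ⟨H, hH1, hH2, ⟨P⟩⟩ := exists_part hf hp h.cocompact
  obtain ⟨p, hs⟩ := P.exists_slow ((hp.cms hf).of_le hH1 hH2)
  obtain ⟨A, hA⟩ := L.exists_aff (hp.cms hf) hH1 hH2 P
  rw [← hA]
  obtain ⟨R, hR1, hR2⟩ := A.exists_bound hf hp hs
  obtain ⟨X, _, ⟨J⟩⟩ := exists_join Y (Fin n → ℝ)
  have p0 : ∀ y, 0 < p y := fun y => one_pos.trans_le (hs.one_le y)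
  have hER := J.isER h.er
  have hZ := J.isZSet_bd h.zset
  have hB := J.B_pos
  have hK := R.isCompact_le (V := Fin n → ℝ) hs.cont (fun y => (p0 y).le) hs.compact
  let E := J.emb R hs.cont p0
  have hE : ∀ t, (E t : X) = J.π t.2 (R.W (p t.2) t.1) := fun _ => rfl
  refine ⟨X, inferInstance, J.bd Z, cj E A.act, isRelGeom_of hER hZ ((A.fix hf).cj E)
    ((A.prp hp).cj E) ((A.ccp hf h.cocompact).cj E) fun C' hC' ε hε => ?_, fun he' => ?_⟩
  · have hC := hC'.image E.symm.continuous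
    have hC2 := hC.image continuous_snd
    obtain ⟨δ, hδ, hδ'⟩ : ∃ δ : ℝ, 0 < δ ∧ J.B * δ + δ < ε :=
      ⟨ε / (2 * (J.B + 1)), by positivity, by field_simp; linarith⟩
    obtain ⟨c, hc⟩ := hs.orb _ hC2
    obtain ⟨M₁, h1⟩ := R.claimN (V := Fin n → ℝ) hδ c
    obtain ⟨M₂, h2⟩ := hR1 _ hC
    obtain ⟨H', L', hL1, hL', hL2⟩ := hf.bdd hC2
    obtain ⟨F, hF, hF'⟩ := hL1.trans (h.null_dist hC2 hδ)
    obtain ⟨b, hb⟩ := (hF.isCompact_biUnion fun q _ =>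
      hL'.image (a q).continuous).exists_bound_of_continuousOn hs.cont.continuousOn
    obtain ⟨D, hD⟩ := Metric.isBounded_iff.1 (isCompact_univ (X := Y)).isBounded
    refine (A.prp hp _ _ hC (hK (max (max M₁ M₂) (b * D / δ)))).mono ?_
    rintro g ⟨x, hx, x', hx', h3⟩
    obtain ⟨t, rfl⟩ := E.surjective x
    obtain ⟨t', rfl⟩ := E.surjective x'
    have ht : t ∈ E.symm '' C' := ⟨_, hx, E.symm_apply_apply _⟩
    have ht' : t' ∈ E.symm '' C' := ⟨_, hx', E.symm_apply_apply _⟩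
    by_contra hn
    have h4 : ∀ t ∈ E.symm '' C', max (max M₁ M₂) (b * D / δ) <
        p (a g t.2) + R.lam ‖(A.act g t).1‖ := fun t ht =>
      not_le.1 fun hle => hn ⟨_, ⟨t, ht, rfl⟩, hle⟩
    simp only [max_lt_iff] at h4
    rw [cj_apply, cj_apply, hE, hE] at h3
    have h5 := h3.trans (J.dist_le _ _ _ _ (R.norm_W_lt (p0 _) _).le (R.norm_W_lt (p0 _) _).le)
    have h6 := h1 _ _ _ _ (hs.one_le _) (hs.one_le _) (hc g _ ⟨t, ht, rfl⟩ _ ⟨t', ht', rfl⟩)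
      (h4 t ht).1.1.le (h2 g t ht t' ht' _ (h4 t ht).1.2.le)
    have h7 : (1 - ‖R.W (p (a g t'.2)) (A.act g t').1‖) *
        dist (a g t.2 : Y) (a g t'.2) ≤ δ := by
      rcases le_total δ (dist (a g t.2 : Y) (a g t'.2)) with h8 | h8
      · obtain ⟨f, hf1, hf2⟩ := hF' g ⟨_, ⟨t, ht, rfl⟩, _, ⟨t', ht', rfl⟩, h8⟩
        have h9 : p (a g t'.2) ≤ b := by
          rw [← mul_inv_cancel_left f g, act_mul]
          exact (le_abs_self _).trans
            (hb _ (mem_biUnion hf1 ⟨_, hL2 _ hf2 _ ⟨t', ht', rfl⟩, rfl⟩))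
        have h10 := (div_lt_iff₀ hδ).1 (h4 t' ht').2
        have h11 := add_pos_of_pos_of_nonneg (p0 (a g t'.2))
          (R.lam_nonneg (norm_nonneg (A.act g t').1))
        rw [R.norm_W (p0 _), one_sub_div h11.ne', add_sub_cancel_right, div_mul_eq_mul_div,
          div_le_iff₀' h11]
        exact (mul_le_mul h9 (hD (mem_univ _) (mem_univ _)) dist_nonneg
          ((p0 _).le.trans h9)).trans h10.le
      · exact (mul_le_of_le_one_left dist_nonneg (sub_le_self _ (norm_nonneg _))).trans h8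
    exact absurd (h5.trans (add_le_add (mul_le_mul_of_nonneg_left h6 hB.le) h7)) (not_le.2 hδ')
  · obtain ⟨b, hb⟩ := he he'
    obtain ⟨-, -, -, _, -⟩ := hER
    refine extends_of hZ.1 hZ.dense fun g => ?_
    have hinv : ∀ v, A.ρ g⁻¹ (A.ρ g v) = v := fun v => by
      rw [← mul_apply_eq_comp, ← map_mul, inv_mul_cancel, map_one]
      rfl
    have hinj : Function.Injective (A.ρ g) := Function.LeftInverse.injective hinv
    refine ⟨fun x => J.π (b g (J.η x)) (nrm (A.ρ g) (J.ω x)),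
      continuous_iff_continuousAt.2 fun x => J.contAt
        ((continuous_nrm hinj).comp J.cont_ω).continuousAt
        (fun s => (norm_nrm hinj _).trans_le (J.norm_ω s)) fun hx =>
          (b g).continuous.continuousAt.comp (J.contAt_η (norm_nrm hinj _ ▸ hx)),
      fun ε hε => ?_⟩
    have hδ : 0 < ε / (2 * J.B) := by positivity
    obtain ⟨c₁, h1⟩ := hs.act g
    obtain ⟨c₂, h2⟩ := R.lam_equiv _ _ hinv
    obtain ⟨M₁, h3⟩ := R.claimN (V := Fin n → ℝ) hδ c₁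
    obtain ⟨M₂, h4⟩ := hR2 g
    refine ⟨_, (hK (max (max M₁ M₂ + c₂) (c₂ / (ε / (2 * J.B))))).image E.continuous,
      fun x hx => ?_⟩
    obtain ⟨t, rfl⟩ := E.surjective x
    have h5 := max_lt_iff.1 (not_le.1 fun hle : p t.2 + R.lam ‖t.1‖ ≤ _ => hx ⟨t, hle, rfl⟩)
    have h6 := R.norm_W_lt (p0 t.2) t.1
    have h7 := abs_le.1 (h2 t.1)
    have h8 := h3 _ _ (A.ρ g t.1) (A.ρ g t.1 + A.β g t.2) (hs.one_le _) (hs.one_le _) (h1 t.2)
      (by linarith [le_max_left M₁ M₂]) (by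
        rw [sub_add_cancel_left, norm_neg]
        exact h4 _ _ (by linarith [le_max_right M₁ M₂]))
    have h9 := (R.claimT _ hinj (p0 t.2) t.1 (h2 t.1)).trans (show _ ≤ ε / (2 * J.B) by
      rw [div_le_iff₀' (add_pos_of_pos_of_nonneg (p0 _) (R.lam_nonneg (norm_nonneg _)))]
      exact ((div_lt_iff₀ hδ).1 h5.2).le)
    simp only [cj_apply, hE, J.η_π _ h6, J.ω_π _ _ h6.le, hb, A.act_apply]
    refine (J.dist_le _ _ _ _ (R.norm_W_lt (p0 _) _).le
      ((norm_nrm hinj _).trans_le h6.le)).trans ?_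
    rw [dist_self, mul_zero, add_zero, ← le_div_iff₀' hB]
    rw [norm_sub_rev] at h8
    refine (norm_sub_le_norm_sub_add_norm_sub _ _ _).trans ((add_le_add h8 h9).trans_eq ?_)
    field_simp
    norm_num

/-- A relative Z-structure, which is an EZ-structure if `e` holds. -/
def HasG (e : Prop) (N : Subgroup G) : Prop :=
  ∃ (X : Type) (_ : TopologicalSpace X) (Z : Set X) (a : G →* (↥Zᶜ ≃ₜ ↥Zᶜ)),
    IsRelGeom N Z a ∧ (e → Extends a)

theorem HasG.of_lat {e : Prop} {n : ℕ} (h : HasG e N) (hN : (N : Set G).Countable)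
    (L : Lat N (Fin n → ℝ)) : HasG e L.ker := by
  obtain ⟨Y, _, Z, a, h, he⟩ := h
  have := h.er.2.1
  let _ := TopologicalSpace.metrizableSpaceMetric Y
  exact step_metric h he hN L

theorem HasG.of_le {e : Prop} (h : HasG e N) (h1 : H ≤ N) (h2 : FinCos H N) : HasG e H := by
  obtain ⟨Y, _, Z, a, h, he⟩ := h
  exact ⟨Y, inferInstance, Z, a, ⟨h.er, h.zset, Fix.finiteIndex fun K hK =>
    (h.fix' K hK).imp fun _ h => h.imp fun _ h => ⟨h.1.mono h1, h.2⟩,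
    fun K L hK hL => h2.trans (h.proper K L hK hL), h.cocompact,
    fun C hC 𝒰 ho hu => h2.trans (h.null C hC 𝒰 ho hu)⟩, he⟩

theorem HasG.cms {e : Prop} (h : HasG e N) : Cms N := by
  obtain ⟨Y, _, Z, a, h, -⟩ := h
  obtain ⟨-, -, -, _, -⟩ := h.er
  obtain ⟨k, -, -, -, h1, -⟩ := exists_push h.zset
  have : Nonempty ↥Zᶜ := ⟨⟨_, h1 (Classical.arbitrary Y) 1 one_pos⟩⟩
  exact Prp.cms h.proper h.fix'

theorem IsRelGeom.isGeom {X : Type} [TopologicalSpace X] {Z : Set X} {a : G →* (↥Zᶜ ≃ₜ ↥Zᶜ)}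
    (h : IsRelGeom N Z a) (hN : (N : Set G).Finite) : IsGeom Z a :=
  ⟨h.er, h.zset, fun K L hK hL => (h.proper K L hK hL).finite hN, h.cocompact,
    fun C hC 𝒰 ho hu => (h.null C hC 𝒰 ho hu).finite hN⟩

theorem IsGeom.isFree {X : Type} [TopologicalSpace X] {Z : Set X} {a : G →* (↥Zᶜ ≃ₜ ↥Zᶜ)}
    (h : IsGeom Z a) (htf : ∀ g : G, IsOfFinOrder g → g = 1) : IsFree a := fun g x hg => by
  have h1 : ∀ k : ℕ, a (g ^ k) x = x := fun k => by
    induction k with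
    | zero => rw [pow_zero, act_one]
    | succ k ih => rw [pow_succ, act_mul, hg, ih]
  refine htf g (finite_powers.1 ((h.proper {x} {x} isCompact_singleton
    isCompact_singleton).subset ?_))
  rintro _ ⟨k, rfl⟩
  exact ⟨x, ⟨x, rfl, h1 k⟩, rfl⟩

end Pool.Agent.P.MP_f05dbc_gt
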